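import Pool.Agent.Q73.GL.Stm

set_option autoImplicit false

/-!
Project GL (helper73): the assembly. From the lemmas of `Stm` to the theorem on the blow-up time.
-/

namespace Pool.Agent.Q73.GL

open MeasureTheory Set Filter Topology FourierTransform
open scoped ZeroAtInfty InnerProductSpace Real BoundedContinuousFunction SchwartzMap

/-- the final statement -/
def Main : Prop := ∀ (N : ℕ) (θ α : ℝ), 0 ≤ θ → θ < π / 2 → 0 < α →
  ∀ (u0 : C₀(E N, ℂ)) (b : L2 N), (b : E N → ℂ) =ᵐ[volume] (u0 : E N → ℂ) → InH1 b → u0 ≠ 0 →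
  ∀ ε : ℝ, 0 < ε → ∃ γ0 : ℝ, 0 < γ0 ∧ ∀ γ : ℝ, γ0 < γ → Tmax θ α γ u0 ≤ ENNReal.ofReal ε

namespace FIN

theorem ei_norm (θ : ℝ) : ‖ei θ‖ = 1 := by
  unfold ei
  exact Complex.norm_exp_ofReal_mul_I θ

/-- the `L²` part of a solution -/
theorem mildH_of (hv1 : S_V1) (hxc : S_XC) {N : ℕ} {θ M : ℝ}
    {TC : ℝ → C₀(E N, ℂ) →L[ℂ] C₀(E N, ℂ)} {TX : ℝ → XT N →L[ℂ] XT N} (hS : Sem N θ M TC TX)
    (D : Tr (L2 N) θ) (hD : ∀ t, 0 ≤ t → D.S t = FM (aS θ t)) {α γ T : ℝ} (hT : 0 ≤ T)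
    {x0 : XT N} {V g : ℝ → XT N} (h : SolX TX θ α γ T x0 V g) :
    MildH D T (fun t => (V t).l) (fun t => (g t).l) := by
  have := hxc N
  have hg' : ContinuousOn (fun s => ei θ • g s) (Icc 0 T) :=
    (continuous_const_smul (ei θ)).comp_continuousOn h.contg
  refine ⟨?_, ?_, ?_⟩
  · exact (lL N).continuous.comp_continuousOn h.contV
  · exact (lL N).continuous.comp_continuousOn h.contg
  · intro t ht
    have hcont := (hv1 (XT N) M TX T (fun s => ei θ • g s) hS.sgX hT hg').1 t ht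
    have hint : IntervalIntegrable (fun s => TX (t - s) (ei θ • g s)) volume 0 t := by
      apply ContinuousOn.intervalIntegrable
      rw [uIcc_of_le ht.1]
      exact hcont
    have e1 : lL N (V t) = lL N (TX t x0) + ∫ s in (0 : ℝ)..t, lL N (TX (t - s) (ei θ • g s)) := by
      rw [h.eq t ht, map_add, ContinuousLinearMap.intervalIntegral_comp_comm _ hint]
    show (V t).l = D.S t (V 0).l + ∫ s in (0 : ℝ)..t, D.S (t - s) (ei θ • (g s).l)
    rw [h.init, hD t ht.1]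
    rw [lL_apply, lL_apply] at e1
    rw [e1, hS.snd t x0 ht.1]
    congr 1
    apply intervalIntegral.integral_congr
    intro s hs
    rw [uIcc_of_le ht.1] at hs
    show lL N (TX (t - s) (ei θ • g s)) = D.S (t - s) (ei θ • (g s).l)
    rw [lL_apply, hS.snd _ _ (sub_nonneg.2 hs.2), hD _ (sub_nonneg.2 hs.2), XT.l_smul]

/-- the potential part -/
theorem potH_of (hp : S_POT) {N : ℕ} {θ : ℝ} {TX : ℝ → XT N →L[ℂ] XT N} {α γ T : ℝ} (hα : 0 < α)
    {x0 : XT N} {V g : ℝ → XT N} (h : SolX TX θ α γ T x0 V g) :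
    PotH T (α * γ) (α + 2) (fun t => (V t).l) (fun t => (g t).l) (fun t => pot α (V t)) := by
  obtain ⟨hp1, hp2, hp3, -⟩ := hp N α hα
  have key : ∀ t ∈ Icc 0 T, ∀ x,
      ((((Real.exp (α * γ * t))⁻¹ : ℝ) : ℂ) • g t).c x =
        ((‖(V t).c x‖ ^ α : ℝ) : ℂ) * (V t).c x := by
    intro t ht x
    rw [XT.c_smul]
    show (((Real.exp (α * γ * t))⁻¹ : ℝ) : ℂ) * (g t).c x = _
    rw [h.g_eq t ht x, ← mul_assoc, ← Complex.ofReal_mul, ← mul_assoc,
      inv_mul_cancel₀ (Real.exp_pos _).ne', one_mul]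
  have gl : ∀ t, (g t).l = ((Real.exp (α * γ * t) : ℝ) : ℂ) •
      ((((Real.exp (α * γ * t))⁻¹ : ℝ) : ℂ) • g t).l := by
    intro t
    rw [XT.l_smul, smul_smul, ← Complex.ofReal_mul, mul_inv_cancel₀ (Real.exp_pos _).ne',
      Complex.ofReal_one, one_smul]
  refine ⟨hp3.comp_continuousOn h.contV, fun t _ => (hp1 (V t)).1, ?_, ?_⟩
  · intro s hs t _
    show (⟪(g s).l, (V t).l - (V s).l⟫_ℂ).re ≤ Real.exp (α * γ * s) * (pot α (V t) - pot α (V s))
    have h1 := (hp2 (V s) (V t) _ (key s hs)).1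
    rw [gl s, inner_smul_left, Complex.conj_ofReal, Complex.re_ofReal_mul]
    exact mul_le_mul_of_nonneg_left h1 (Real.exp_pos _).le
  · intro t ht
    show ⟪(g t).l, (V t).l⟫_ℂ = (((α + 2) * Real.exp (α * γ * t) * pot α (V t) : ℝ) : ℂ)
    have h1 := (hp2 (V t) (V t) _ (key t ht)).2
    rw [gl t, inner_smul_left, Complex.conj_ofReal, h1, ← Complex.ofReal_mul]
    congr 1
    ring

end FIN

open FIN in
theorem t_FIN (h4 : S_H4) (hrl : S_RL) (hv1 : S_V1) (htr : S_TR) (hhh : S_HH) (hxc : S_XC)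
    (htx : S_TX) (hper : S_PER) (hpot : S_POT) (hsm : S_SM) : Main := by
  intro N θ α hθ hθ' hα u0 b hb hb1 hu0 ε hε
  obtain ⟨M, TC, TX, hS⟩ := htx N θ hθ hθ'
  obtain ⟨D, hDP, hDA, hDS⟩ := htr N θ hθ hθ'
  obtain ⟨K0, hK0⟩ := hhh N b hb1
  have hcos : 0 < Real.cos θ := Real.cos_pos_of_mem_Ioo ⟨by linarith [Real.pi_pos], hθ'⟩
  let x0 : XT N := XT.mk u0 b hb
  have hx0 : x0 ≠ 0 := by
    intro h
    apply hu0
    have : x0.c = (0 : XT N).c := by rw [h]
    exact this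
  obtain ⟨F1, hF1, hsm'⟩ := hsm N θ M TX hS.sgX α x0 hα hx0
  set c1 : ℝ := 2 * (α + 2) * Real.cos θ with hc1
  have hc1pos : 0 < c1 := by positivity
  set κ : ℝ := (α + 2) / 2 with hκ
  have hκ1 : 1 < κ := by rw [hκ]; linarith
  have hκ0 : 0 < κ - 1 := by linarith
  set He : ℝ := F1 / (c1 * (κ - 1) * (ε / 2)) with hHe
  have hHepos : 0 < He := by positivity
  obtain ⟨γ0, hγ0, hγ⟩ := hsm' (K0 + He) (ε / 2) (by positivity)
  refine ⟨γ0, hγ0, ?_⟩
  intro γ hγγ
  obtain ⟨t1, ht1, ht1', ht1T⟩ := hγ γ hγγ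
  unfold Tmax
  refine iSup₂_le ?_
  rintro T ⟨hT0, u, hu⟩
  refine ENNReal.ofReal_le_ofReal ?_
  by_contra hcon
  rw [not_le] at hcon
  have hTpos : 0 < T := hε.trans hcon
  have ht1T' : t1 < T := by linarith
  obtain ⟨V, g, hV⟩ := hper N θ M TC TX hθ hθ' hS α γ T x0 u hα hTpos hu
  obtain ⟨hB, hF⟩ := ht1T T V g ht1T'.le hV
  have hγpos : 0 < γ := hγ0.trans hγγ
  have hMild := mildH_of hv1 hxc hS D hDS hTpos.le hV
  have hPot := potH_of hpot hα hV
  have hKn : ∀ n, Kn D (fun t => (V t).l) n 0 ≤ K0 := by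
    intro n
    show -(1 / 2) * (⟪D.A n (V 0).l, (V 0).l⟫_ℂ).re ≤ K0
    rw [hV.init, hDA n]
    exact hK0 n
  obtain ⟨En, hE0, hElow, hEdec, hEgr, hEcs⟩ := h4 (L2 N) θ D T (α * γ) (α + 2) K0
    (fun t => (V t).l) (fun t => (g t).l) (fun t => pot α (V t)) hθ hθ' hTpos
    (by positivity) (by linarith) hMild hPot hKn
  have ht1mem : t1 ∈ Icc 0 T := ⟨ht1.le, ht1T'.le⟩
  have hpnn : ∀ t ∈ Icc 0 T, 0 ≤ pot α (V t) := fun t ht => hPot.nonneg t ht
  have hEt1 : En t1 ≤ -He := by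
    have e1 := hEdec 0 t1 le_rfl ht1.le ht1T'.le
    have e2 : 0 ≤ pot α (V 0) := hpnn 0 ⟨le_rfl, hTpos.le⟩
    have e3 : En 0 ≤ K0 - pot α (V 0) := hE0
    linarith [hB]
  have hanti : ∀ a c, 0 ≤ a → a ≤ c → c ≤ T → En c ≤ En a := by
    intro a c ha hac hc
    have e1 := hEdec a c ha hac hc
    have e2 : 0 ≤ ∫ s in a..c, α * γ * Real.exp (α * γ * s) * pot α (V s) := by
      apply intervalIntegral.integral_nonneg hac
      intro s hs
      have := hpnn s ⟨ha.trans hs.1, hs.2.trans hc⟩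
      positivity
    linarith
  -- application of the differential inequality
  have hVt1 : (V t1).l ≠ 0 := by
    intro h0
    have e1 := hElow t1 ht1mem
    have e2 : ⟪(g t1).l, (V t1).l⟫_ℂ =
        (((α + 2) * Real.exp (α * γ * t1) * pot α (V t1) : ℝ) : ℂ) := hPot.homog t1 ht1mem
    rw [h0, inner_zero_right] at e2
    have e3 : (α + 2) * Real.exp (α * γ * t1) * pot α (V t1) = 0 := by
      exact_mod_cast e2.symm
    have e4 : Real.exp (α * γ * t1) * pot α (V t1) = 0 := by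
      rw [mul_assoc] at e3
      rcases mul_eq_zero.1 e3 with h | h
      · linarith
      · exact h
    have e5 : -(Real.exp (α * γ * t1) * pot α (V t1)) ≤ En t1 := e1
    rw [e4] at e5
    linarith
  have hres := hrl κ c1 t1 T (fun t => ‖(V t).l‖ ^ 2) (fun t => -En t) hκ1 hc1pos ht1T'
    (by
      have : ContinuousOn (fun t => (V t).l) (Icc t1 T) :=
        hMild.contV.mono (Icc_subset_Icc ht1.le le_rfl)
      exact this.norm.pow 2)
    (by
      have := norm_pos_iff.2 hVt1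
      show 0 < ‖(V t1).l‖ ^ 2
      positivity)
    (by show 0 < -En t1; linarith)
    (by
      intro a c ha hac hc
      show -En a ≤ -En c
      linarith [hanti a c (ht1.le.trans ha) hac hc])
    (by
      intro a c ha hac hc
      show c1 * -En a * (c - a) ≤ ‖(V c).l‖ ^ 2 - ‖(V a).l‖ ^ 2
      have := hEgr a c (ht1.le.trans ha) hac hc
      calc c1 * -En a * (c - a) = 2 * (α + 2) * Real.cos θ * -En a * (c - a) := by rw [hc1]
        _ ≤ _ := this)
    (by
      intro a c ha hac hc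
      show κ * -En a * (‖(V c).l‖ ^ 2 - ‖(V a).l‖ ^ 2) ≤ ‖(V c).l‖ ^ 2 * (-En c - -En a)
      have ha0 : 0 ≤ a := ht1.le.trans ha
      have hEa : En a ≤ -He := (hanti t1 a ht1.le ha (hac.trans hc)).trans hEt1
      have g1 : 2 * (α + 2) * Real.cos θ * (-En a) * (c - a) ≤ ‖(V c).l‖ ^ 2 - ‖(V a).l‖ ^ 2 :=
        hEgr a c ha0 hac hc
      have g2 : (‖(V c).l‖ ^ 2 - ‖(V a).l‖ ^ 2) ^ 2 ≤
          4 * Real.cos θ * ‖(V c).l‖ ^ 2 * (c - a) * (En a - En c) :=
        hEcs a c ha0 hac hc (by linarith)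
      have g3 : En c ≤ En a := hanti a c ha0 hac hc
      set x := ‖(V c).l‖ ^ 2 - ‖(V a).l‖ ^ 2 with hx
      have hEa0 : 0 < -En a := by linarith
      have hx0 : 0 ≤ x := by
        refine le_trans ?_ g1
        have : 0 ≤ c - a := by linarith
        positivity
      rcases hx0.lt_or_eq with hxpos | hxz
      · have hfc : 0 ≤ ‖(V c).l‖ ^ 2 := by positivity
        have hd : 0 ≤ En a - En c := by linarith
        have g4 : x * (κ * -En a * x) ≤ x * (‖(V c).l‖ ^ 2 * (-En c - -En a)) := by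
          have s1 : κ * -En a * x ^ 2 ≤
              κ * -En a * (4 * Real.cos θ * ‖(V c).l‖ ^ 2 * (c - a) * (En a - En c)) :=
            mul_le_mul_of_nonneg_left g2 (by positivity)
          have s2 : κ * -En a * (4 * Real.cos θ * ‖(V c).l‖ ^ 2 * (c - a) * (En a - En c)) =
              (2 * (α + 2) * Real.cos θ * (-En a) * (c - a)) *
                (‖(V c).l‖ ^ 2 * (En a - En c)) := by
            rw [hκ]; ring
          have s3 : (2 * (α + 2) * Real.cos θ * (-En a) * (c - a)) *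
                (‖(V c).l‖ ^ 2 * (En a - En c)) ≤ x * (‖(V c).l‖ ^ 2 * (En a - En c)) :=
            mul_le_mul_of_nonneg_right g1 (by positivity)
          calc x * (κ * -En a * x) = κ * -En a * x ^ 2 := by ring
            _ ≤ x * (‖(V c).l‖ ^ 2 * (En a - En c)) := by
              rw [s2] at s1
              exact s1.trans s3
            _ = _ := by ring
        exact le_of_mul_le_mul_left g4 hxpos
      · rw [← hxz, mul_zero]
        have hd : 0 ≤ -En c - -En a := by linarith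
        positivity)
  have hres' : T - t1 ≤ ‖(V t1).l‖ ^ 2 / (c1 * (κ - 1) * -En t1) := hres
  have hfin : ‖(V t1).l‖ ^ 2 / (c1 * (κ - 1) * -En t1) ≤ ε / 2 := by
    have e1 : ‖(V t1).l‖ ^ 2 / (c1 * (κ - 1) * -En t1) ≤ F1 / (c1 * (κ - 1) * He) := by
      apply div_le_div₀ hF1.le hF (by positivity)
      apply mul_le_mul_of_nonneg_left _ (by positivity)
      linarith
    refine e1.trans (le_of_eq ?_)
    rw [hHe]
    field_simp
  linarith

end Pool.Agent.Q73.GL
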