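import Pool.Agent.Q73.GL.Stm

set_option autoImplicit false

/-! JOB FM: algebra of Fourier multipliers. -/

namespace Pool.Agent.Q73.GL.FM

open MeasureTheory Set Filter Topology FourierTransform
open scoped InnerProductSpace

variable {N : ℕ}

theorem mulL_apply {m : E N → ℂ} (hm : Measurable m) {C : ℝ} (hC : ∀ ξ, ‖m ξ‖ ≤ C)
    (f : L2 N) : mulL m f = mulFun m f := by
  have h : Measurable m ∧ ∃ C : ℝ, ∀ ξ, ‖m ξ‖ ≤ C := ⟨hm, C, hC⟩
  unfold mulL
  rw [dif_pos h]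
  rfl

theorem mulL_coe {m : E N → ℂ} (hm : Measurable m) {C : ℝ} (hC : ∀ ξ, ‖m ξ‖ ≤ C)
    (f : L2 N) : (mulL m f : E N → ℂ) =ᵐ[volume] fun ξ => m ξ * f ξ := by
  rw [mulL_apply hm hC]
  exact mulFun_coe hm hC f

theorem FM_apply (m : E N → ℂ) (f : L2 N) :
    FM m f = (Lp.fourierTransformₗᵢ (E N) ℂ).symm (mulL m ((Lp.fourierTransformₗᵢ (E N) ℂ) f)) :=
  rfl

theorem U_FM (m : E N → ℂ) (f : L2 N) :
    (Lp.fourierTransformₗᵢ (E N) ℂ) (FM m f) = mulL m ((Lp.fourierTransformₗᵢ (E N) ℂ) f) := by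
  rw [FM_apply, LinearIsometryEquiv.apply_symm_apply]

theorem norm_FM {m : E N → ℂ} (f : L2 N) :
    ‖FM m f‖ = ‖mulL m ((Lp.fourierTransformₗᵢ (E N) ℂ) f)‖ := by
  rw [FM_apply, LinearIsometryEquiv.norm_map]

theorem inner_FM {m : E N → ℂ} {C : ℝ} (hm : Measurable m) (hC : ∀ ξ, ‖m ξ‖ ≤ C) (f g : L2 N) :
    ⟪FM m f, g⟫_ℂ = ∫ ξ, (starRingEnd ℂ) (m ξ) *
      ((starRingEnd ℂ) ((𝓕 f : L2 N) ξ) * (𝓕 g : L2 N) ξ) := by
  rw [← (Lp.fourierTransformₗᵢ (E N) ℂ).inner_map_map, U_FM, L2.inner_def]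
  refine integral_congr_ae ?_
  filter_upwards [mulL_coe hm hC ((Lp.fourierTransformₗᵢ (E N) ℂ) f)] with ξ h
  rw [h]
  show ⟪m ξ * (𝓕 f : L2 N) ξ, (𝓕 g : L2 N) ξ⟫_ℂ = _
  rw [RCLike.inner_apply, map_mul]
  ring

end Pool.Agent.Q73.GL.FM

namespace Pool.Agent.Q73.GL

open MeasureTheory Set Filter Topology FourierTransform
open scoped InnerProductSpace

theorem t_FM : S_FM := by
  intro N
  refine ⟨?_, ?_, ?_, ?_, ?_, ?_, ?_, ?_⟩
  · intro m C hm hC0 hC
    refine ContinuousLinearMap.opNorm_le_bound _ hC0 fun f => ?_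
    rw [FM.norm_FM, FM.mulL_apply hm hC]
    refine (mulFun_norm hm hC0 hC _).trans ?_
    rw [LinearIsometryEquiv.norm_map]
  · intro m m' C C' hm hm' hC hC' f
    have hmm : Measurable fun ξ => m ξ * m' ξ := hm.mul hm'
    have hCC : ∀ ξ, ‖m ξ * m' ξ‖ ≤ C * C' := by
      intro ξ
      rw [norm_mul]
      exact mul_le_mul (hC ξ) (hC' ξ) (norm_nonneg _) ((norm_nonneg _).trans (hC ξ))
    apply (Lp.fourierTransformₗᵢ (E N) ℂ).injective
    rw [FM.U_FM, FM.U_FM, FM.U_FM]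
    refine Lp.ext ?_
    filter_upwards [FM.mulL_coe hm hC (mulL m' ((Lp.fourierTransformₗᵢ (E N) ℂ) f)),
      FM.mulL_coe hm' hC' ((Lp.fourierTransformₗᵢ (E N) ℂ) f),
      FM.mulL_coe hmm hCC ((Lp.fourierTransformₗᵢ (E N) ℂ) f)] with ξ h1 h2 h3
    rw [h1, h2, h3, mul_assoc]
  · intro m m' C C' hm hm' hC hC'
    have hmm : Measurable fun ξ => m ξ + m' ξ := hm.add hm'
    have hCC : ∀ ξ, ‖m ξ + m' ξ‖ ≤ C + C' := fun ξ =>
      (norm_add_le _ _).trans (add_le_add (hC ξ) (hC' ξ))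
    refine ContinuousLinearMap.ext fun f => ?_
    apply (Lp.fourierTransformₗᵢ (E N) ℂ).injective
    rw [ContinuousLinearMap.add_apply, map_add, FM.U_FM, FM.U_FM, FM.U_FM]
    refine Lp.ext ?_
    filter_upwards [FM.mulL_coe hm hC ((Lp.fourierTransformₗᵢ (E N) ℂ) f),
      FM.mulL_coe hm' hC' ((Lp.fourierTransformₗᵢ (E N) ℂ) f),
      FM.mulL_coe hmm hCC ((Lp.fourierTransformₗᵢ (E N) ℂ) f),
      Lp.coeFn_add (mulL m ((Lp.fourierTransformₗᵢ (E N) ℂ) f))
        (mulL m' ((Lp.fourierTransformₗᵢ (E N) ℂ) f))] with ξ h1 h2 h3 h4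
    rw [h4, Pi.add_apply, h1, h2, h3, add_mul]
  · intro m c C hm hC
    have hmm : Measurable fun ξ => c * m ξ := hm.const_mul c
    have hCC : ∀ ξ, ‖c * m ξ‖ ≤ ‖c‖ * C := by
      intro ξ
      rw [norm_mul]
      exact mul_le_mul_of_nonneg_left (hC ξ) (norm_nonneg _)
    refine ContinuousLinearMap.ext fun f => ?_
    apply (Lp.fourierTransformₗᵢ (E N) ℂ).injective
    rw [ContinuousLinearMap.smul_apply, map_smul, FM.U_FM, FM.U_FM]
    refine Lp.ext ?_
    filter_upwards [FM.mulL_coe hm hC ((Lp.fourierTransformₗᵢ (E N) ℂ) f),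
      FM.mulL_coe hmm hCC ((Lp.fourierTransformₗᵢ (E N) ℂ) f),
      Lp.coeFn_smul c (mulL m ((Lp.fourierTransformₗᵢ (E N) ℂ) f))] with ξ h1 h2 h3
    rw [h2, h3, Pi.smul_apply, h1, smul_eq_mul, mul_assoc]
  · refine ContinuousLinearMap.ext fun f => ?_
    apply (Lp.fourierTransformₗᵢ (E N) ℂ).injective
    rw [FM.U_FM, ContinuousLinearMap.id_apply]
    refine Lp.ext ?_
    filter_upwards [FM.mulL_coe (m := fun _ : E N => (1 : ℂ)) measurable_const (C := 1)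
      (fun ξ => by simp) ((Lp.fourierTransformₗᵢ (E N) ℂ) f)] with ξ h1
    rw [h1, one_mul]
  · intro m C hm hC f g
    have hm' : Measurable fun ξ => (starRingEnd ℂ) (m ξ) := Complex.continuous_conj.measurable.comp hm
    have hC' : ∀ ξ, ‖(starRingEnd ℂ) (m ξ)‖ ≤ C := fun ξ => by
      rw [RCLike.norm_conj]; exact hC ξ
    rw [← (Lp.fourierTransformₗᵢ (E N) ℂ).inner_map_map,
      ← (Lp.fourierTransformₗᵢ (E N) ℂ).inner_map_map f, FM.U_FM, FM.U_FM, L2.inner_def,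
      L2.inner_def]
    refine integral_congr_ae ?_
    filter_upwards [FM.mulL_coe hm hC ((Lp.fourierTransformₗᵢ (E N) ℂ) f),
      FM.mulL_coe hm' hC' ((Lp.fourierTransformₗᵢ (E N) ℂ) g)] with ξ h1 h2
    rw [h1, h2, RCLike.inner_apply, RCLike.inner_apply, map_mul]
    ring
  · intro m C hm hC f g
    exact FM.inner_FM hm hC f g
  · intro ι l _ m m0 C hm hm0 hC hlim f
    by_cases hl : l = ⊥
    · rw [hl]; exact tendsto_bot
    haveI : l.NeBot := ⟨hl⟩
    have hC0 : ∀ ξ, ‖m0 ξ‖ ≤ C := fun ξ =>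
      le_of_tendsto (hlim ξ).norm (Eventually.of_forall fun i => hC i ξ)
    rw [tendsto_iff_norm_sub_tendsto_zero]
    set g : L2 N := (Lp.fourierTransformₗᵢ (E N) ℂ) f with hg
    have hn : ∀ i, ‖FM (m i) f - FM m0 f‖ ^ 2 = ∫ ξ, ‖(m i ξ - m0 ξ) * g ξ‖ ^ 2 := by
      intro i
      rw [← (Lp.fourierTransformₗᵢ (E N) ℂ).norm_map, map_sub, FM.U_FM, FM.U_FM, ← hg]
      rw [← RCLike.ofReal_inj (K := ℂ)]
      rw [RCLike.ofReal_pow, ← inner_self_eq_norm_sq_to_K (𝕜 := ℂ), L2.inner_def]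
      rw [← integral_ofReal]
      refine integral_congr_ae ?_
      filter_upwards [FM.mulL_coe (hm i) (hC i) g, FM.mulL_coe hm0 hC0 g,
        Lp.coeFn_sub (mulL (m i) g) (mulL m0 g)] with ξ h1 h2 h3
      rw [h3, Pi.sub_apply, h1, h2, ← sub_mul, inner_self_eq_norm_sq_to_K]
      norm_cast
    have hint : Integrable (fun ξ => ‖g ξ‖ ^ 2) := (Lp.memLp g).integrable_norm_pow (by norm_num)
    have key : Tendsto (fun i => ∫ ξ, ‖(m i ξ - m0 ξ) * g ξ‖ ^ 2) l (𝓝 (∫ _ : E N, (0 : ℝ))) := by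
      refine tendsto_integral_filter_of_dominated_convergence (fun ξ => (2 * C) ^ 2 * ‖g ξ‖ ^ 2)
        ?_ ?_ (hint.const_mul _) ?_
      · refine Eventually.of_forall fun i => ?_
        have h1 : AEStronglyMeasurable (fun ξ => (m i ξ - m0 ξ) * g ξ) volume :=
          (((hm i).sub hm0).aestronglyMeasurable).mul (Lp.aestronglyMeasurable g)
        exact h1.norm.pow 2
      · refine Eventually.of_forall fun i => Eventually.of_forall fun ξ => ?_
        rw [norm_pow, norm_norm, norm_mul, mul_pow]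
        refine mul_le_mul_of_nonneg_right ?_ (by positivity)
        refine pow_le_pow_left₀ (norm_nonneg _) ?_ 2
        refine (norm_sub_le _ _).trans ?_
        have := hC i ξ
        have := hC0 ξ
        linarith
      · refine Eventually.of_forall fun ξ => ?_
        have h1 : Tendsto (fun i => m i ξ - m0 ξ) l (𝓝 (m0 ξ - m0 ξ)) :=
          (hlim ξ).sub tendsto_const_nhds
        rw [sub_self] at h1
        have h2 := ((h1.mul_const (g ξ)).norm).pow 2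
        simpa using h2
    rw [integral_zero] at key
    have h3 : Tendsto (fun i => Real.sqrt (‖FM (m i) f - FM m0 f‖ ^ 2)) l (𝓝 (Real.sqrt 0)) := by
      refine (Real.continuous_sqrt.tendsto 0).comp ?_
      refine key.congr fun i => (hn i).symm
    rw [Real.sqrt_zero] at h3
    refine h3.congr fun i => ?_
    exact Real.sqrt_sq (norm_nonneg _)

end Pool.Agent.Q73.GL
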