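import Pool.Agent.Q73.GL.Stm

set_option autoImplicit false

/-!
Project GL (helper73), JOB V1: Duhamel integrals (proof by helper277).
-/

namespace Pool.Agent.Q73.GL

open MeasureTheory Set Filter Topology

namespace V1

variable {X : Type} [NormedAddCommGroup X] [NormedSpace ℂ X] {M : ℝ} {T : ℝ → X →L[ℂ] X}

theorem jcont (h : SG M T) : Continuous fun q : ℝ × X => T (max q.1 0) q.2 := by
  rw [continuous_iff_continuousAt]
  rintro ⟨r, x⟩
  have h1 : Tendsto (fun q : ℝ × X => T (max q.1 0) (q.2 - x)) (𝓝 (r, x)) (𝓝 0) := by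
    refine squeeze_zero_norm' (a := fun q : ℝ × X => M * ‖q.2 - x‖) ?_ ?_
    · refine Eventually.of_forall fun q => ?_
      refine ((T (max q.1 0)).le_opNorm _).trans ?_
      exact mul_le_mul_of_nonneg_right (h.bd _ (le_max_right _ _)) (norm_nonneg _)
    · have : Continuous fun q : ℝ × X => M * ‖q.2 - x‖ := by fun_prop
      have h2 := this.tendsto (r, x)
      simpa using h2
  have h2 : Continuous fun q : ℝ × X => T (max q.1 0) x := by
    have h3 := h.cont x
    exact h3.comp_continuous (by fun_prop) fun q => mem_Ici.2 (le_max_right _ _)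
  have h4 : (fun q : ℝ × X => T (max q.1 0) q.2) = fun q =>
      T (max q.1 0) (q.2 - x) + T (max q.1 0) x := by
    funext q
    rw [map_sub, sub_add_cancel]
  rw [ContinuousAt, h4]
  have h5 := h1.add (h2.tendsto (r, x))
  simpa using h5

theorem part1 (h : SG M T) {φ : ℝ → X} {b t : ℝ} (hφ : ContinuousOn φ (Icc 0 b)) (ht : t ∈ Icc 0 b) :
    ContinuousOn (fun s => T (t - s) (φ s)) (Icc 0 t) := by
  have h1 : ContinuousOn (fun s => T (max (t - s) 0) (φ s)) (Icc 0 t) := by
    refine (jcont h).comp_continuousOn (f := fun s => (t - s, φ s)) ?_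
    exact ContinuousOn.prodMk (by fun_prop) (hφ.mono (Icc_subset_Icc le_rfl ht.2))
  refine h1.congr fun s hs => ?_
  simp only
  rw [max_eq_left (sub_nonneg.2 hs.2)]

theorem part2 (h : SG M T) {φ : ℝ → X} {b : ℝ} (hb : 0 ≤ b) (hφ : ContinuousOn φ (Icc 0 b)) :
    ContinuousOn (fun t => ∫ s in (0 : ℝ)..t, T (t - s) (φ s)) (Icc 0 b) := by
  have h1 : Continuous fun s : ℝ => φ (max 0 (min b s)) := by
    refine hφ.comp_continuous (by fun_prop) fun s => ?_
    exact ⟨le_max_left _ _, max_le hb (min_le_left _ _)⟩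
  have h2 : Continuous (Function.uncurry fun t s : ℝ => T (max (t - s) 0) (φ (max 0 (min b s)))) := by
    exact (jcont h).comp (f := fun q : ℝ × ℝ => (q.1 - q.2, φ (max 0 (min b q.2))))
      (Continuous.prodMk (by fun_prop) (h1.comp continuous_snd))
  have h3 := intervalIntegral.continuous_parametric_intervalIntegral_of_continuous (μ := volume)
    (a₀ := (0 : ℝ)) h2 (s := fun t => t) continuous_id
  refine h3.continuousOn.congr fun t ht => ?_
  refine intervalIntegral.integral_congr fun s hs => ?_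
  rw [uIcc_of_le ht.1] at hs
  show T (t - s) (φ s) = T (max (t - s) 0) (φ (max 0 (min b s)))
  rw [max_eq_left (sub_nonneg.2 hs.2), min_eq_right (hs.2.trans ht.2), max_eq_right hs.1]

theorem part3 (h : SG M T) {φ : ℝ → X} {b t : ℝ} (hφ : ContinuousOn φ (Icc 0 b)) (ht : t ∈ Icc 0 b) :
    ‖∫ s in (0 : ℝ)..t, T (t - s) (φ s)‖ ≤ M * ∫ s in (0 : ℝ)..t, ‖φ s‖ := by
  rw [← intervalIntegral.integral_const_mul]
  refine intervalIntegral.norm_integral_le_of_norm_le ht.1 ?_ ?_
  · refine Eventually.of_forall fun s hs => ?_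
    refine ((T (t - s)).le_opNorm _).trans ?_
    exact mul_le_mul_of_nonneg_right (h.bd _ (sub_nonneg.2 hs.2)) (norm_nonneg _)
  · refine ContinuousOn.intervalIntegrable ?_
    rw [uIcc_of_le ht.1]
    exact continuousOn_const.mul (hφ.mono (Icc_subset_Icc le_rfl ht.2)).norm

end V1

/-- JOB V1 -/
theorem t_V1 : S_V1 := by
  intro X _ _ _ M T b φ hT hb hφ
  exact ⟨fun t ht => V1.part1 hT hφ ht, V1.part2 hT hb hφ, fun t ht => V1.part3 hT hφ ht⟩

end Pool.Agent.Q73.GL
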