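import Pool.Agent.Q73.GL.Stm
import Pool.Agent.Q73.GL.V1

set_option autoImplicit false
set_option linter.unusedSectionVars false

/-! # Project GL of helper73, job H1: the truncated equation -/

namespace Pool.Agent.Q73.GL

open MeasureTheory Set Filter Topology
open scoped InnerProductSpace Real

namespace H1

variable {H : Type} [NormedAddCommGroup H] [InnerProductSpace ℂ H] [CompleteSpace H] {θ : ℝ}

theorem sg (D : Tr H θ) : SG 1 D.S where
  one_le := le_refl 1
  zero := D.S_zero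
  bd := fun t ht => ContinuousLinearMap.opNorm_le_bound _ zero_le_one fun x => by
    rw [one_mul]
    exact D.S_bd t x ht
  cont := D.S_cont

theorem R_cont (D : Tr H θ) (n : ℕ) : Continuous (D.R n) :=
  continuous_iff_continuousAt.2 fun t => (D.R_deriv n t).continuousAt

theorem R_inv (D : Tr H θ) (n : ℕ) (t : ℝ) (x : H) : D.R n t (D.R n (-t) x) = x := by
  have h := D.R_add n t (-t)
  rw [add_neg_cancel, D.R_zero] at h
  have h1 := congrArg (fun L : H →L[ℂ] H => L x) h
  exact h1.symm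

/-- derivative of `R n t (Y t)` -/
theorem R_apply_deriv (D : Tr H θ) (n : ℕ) (Y : ℝ → H) (Y' : H) (t : ℝ) (h : HasDerivAt Y Y' t) :
    HasDerivAt (fun s => D.R n s (Y s)) (ei θ • D.A n (D.R n t (Y t)) + D.R n t Y') t := by
  have h1 : HasDerivAt (fun s => ContinuousLinearMap.restrictScalarsL ℂ H H ℝ ℝ (D.R n s))
      (ContinuousLinearMap.restrictScalarsL ℂ H H ℝ ℝ (ei θ • ((D.A n) ∘L (D.R n t)))) t :=
    (ContinuousLinearMap.restrictScalarsL ℂ H H ℝ ℝ).hasFDerivAt.comp_hasDerivAt t (D.R_deriv n t)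
  exact h1.clm_apply h

theorem main (D : Tr H θ) (b : ℝ) (V g : ℝ → H) (hb : 0 ≤ b) (hV : MildH D b V g) (n : ℕ) :
    ContinuousOn (dv D V g n) (Icc 0 b) ∧
    ∀ t ∈ Icc 0 b, D.P n (V t) = D.P n (V 0) + ∫ s in (0 : ℝ)..t, dv D V g n s := by
  have hcont : ContinuousOn (dv D V g n) (Icc 0 b) := by
    unfold dv
    exact (((D.A n).continuous.comp_continuousOn hV.contV).add
      ((D.P n).continuous.comp_continuousOn hV.contg)).const_smul _
  refine ⟨hcont, ?_⟩
  -- the extension
  obtain ⟨G, hG, hGc⟩ : ∃ G : ℝ → H, (∀ s ∈ Icc 0 b, G s = g s) ∧ Continuous G := by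
    refine ⟨fun s => g (projIcc 0 b hb s), fun s hs => ?_, ?_⟩
    · show g (projIcc 0 b hb s) = g s
      rw [projIcc_of_mem hb hs]
    · exact hV.contg.comp_continuous (continuous_subtype_val.comp continuous_projIcc)
        fun s => (projIcc 0 b hb s).2
  have hRG : Continuous fun s : ℝ => D.R n (-s) (D.P n (ei θ • G s)) :=
    ((R_cont D n).comp continuous_neg).clm_apply ((D.P n).continuous.comp (hGc.const_smul _))
  obtain ⟨Y, hY⟩ : ∃ Y : ℝ → H, Y = fun t => D.P n (V 0) +
    ∫ s in (0 : ℝ)..t, D.R n (-s) (D.P n (ei θ • G s)) := ⟨_, rfl⟩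
  have hYd : ∀ t, HasDerivAt Y (D.R n (-t) (D.P n (ei θ • G t))) t := by
    intro t
    rw [hY]
    exact (intervalIntegral.integral_hasDerivAt_right (hRG.intervalIntegrable _ _)
      hRG.aestronglyMeasurable.stronglyMeasurableAtFilter hRG.continuousAt).const_add _
  -- the solution
  have hW : ∀ t ∈ Icc 0 b, D.P n (V t) = D.R n t (Y t) := by
    intro t ht
    have hy : ContinuousOn (fun s => ei θ • g s) (Icc 0 b) := hV.contg.const_smul _
    have hc := (t_V1 H 1 D.S b (fun s => ei θ • g s) (sg D) hb hy).1 t ht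
    rw [hV.eq t ht, map_add, D.S_P n t _ ht.1]
    have h1 : D.P n (∫ s in (0 : ℝ)..t, D.S (t - s) (ei θ • g s)) =
        ∫ s in (0 : ℝ)..t, D.P n (D.S (t - s) (ei θ • g s)) := by
      rw [← ContinuousLinearMap.intervalIntegral_comp_comm]
      exact (hc.mono (by rw [uIcc_of_le ht.1])).intervalIntegrable
    have h2 : ∫ s in (0 : ℝ)..t, D.P n (D.S (t - s) (ei θ • g s)) =
        ∫ s in (0 : ℝ)..t, D.R n t (D.R n (-s) (D.P n (ei θ • G s))) := by
      refine intervalIntegral.integral_congr fun s hs => ?_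
      rw [uIcc_of_le ht.1] at hs
      show D.P n (D.S (t - s) (ei θ • g s)) = D.R n t (D.R n (-s) (D.P n (ei θ • G s)))
      rw [D.S_P n (t - s) _ (sub_nonneg.2 hs.2), hG s ⟨hs.1, hs.2.trans ht.2⟩, sub_eq_add_neg,
        D.R_add]
      rfl
    rw [h1, h2, hY, ContinuousLinearMap.intervalIntegral_comp_comm _ (hRG.intervalIntegrable _ _),
      ← map_add]
  have hWd : ∀ t, HasDerivAt (fun s => D.R n s (Y s))
      (ei θ • D.A n (D.R n t (Y t)) + D.P n (ei θ • G t)) t := by
    intro t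
    have h := R_apply_deriv D n Y _ t (hYd t)
    rw [R_inv] at h
    exact h
  have hYc : Continuous Y := continuous_iff_continuousAt.2 fun t => (hYd t).continuousAt
  have hWc : Continuous fun t : ℝ => ei θ • D.A n (D.R n t (Y t)) + D.P n (ei θ • G t) :=
    (((D.A n).continuous.comp ((R_cont D n).clm_apply hYc)).const_smul _).add
      ((D.P n).continuous.comp (hGc.const_smul _))
  intro t ht
  have h3 := intervalIntegral.integral_eq_sub_of_hasDerivAt (a := 0) (b := t)
    (fun s _ => hWd s) (hWc.intervalIntegrable _ _)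
  have h4 : ∫ s in (0 : ℝ)..t, dv D V g n s =
      ∫ s in (0 : ℝ)..t, (ei θ • D.A n (D.R n s (Y s)) + D.P n (ei θ • G s)) := by
    refine intervalIntegral.integral_congr fun s hs => ?_
    rw [uIcc_of_le ht.1] at hs
    have hs' : s ∈ Icc 0 b := ⟨hs.1, hs.2.trans ht.2⟩
    show ei θ • (D.A n (V s) + D.P n (g s)) =
      ei θ • D.A n (D.R n s (Y s)) + D.P n (ei θ • G s)
    rw [← hW s hs', D.A_P, hG s hs', smul_add, map_smul]
  rw [h4, h3, ← hW t ht, ← hW 0 ⟨le_refl 0, hb⟩]
  abel

end H1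

theorem t_H1 : S_H1 := fun _ _ _ _ _ D b V g hb hV n => H1.main D b V g hb hV n

end Pool.Agent.Q73.GL
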