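import Pool.Agent.Q73.GL.Stm

/-!
Lemma job GL-H2 of project GL (helper73): the two identities of the truncated equation.
-/

set_option autoImplicit false
set_option linter.unusedSectionVars false

namespace Pool.Agent.Q73.GL

open MeasureTheory Set Filter Topology
open scoped InnerProductSpace Real

namespace H2

variable {H : Type} [NormedAddCommGroup H] [InnerProductSpace ℂ H] [CompleteSpace H] {θ : ℝ}

theorem ei_re : (ei θ).re = Real.cos θ := by
  unfold ei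
  rw [Complex.exp_ofReal_mul_I_re]

theorem ei_im : (ei θ).im = Real.sin θ := by
  unfold ei
  rw [Complex.exp_ofReal_mul_I_im]

theorem ei_norm : ‖ei θ‖ = 1 := by
  unfold ei
  exact Complex.norm_exp_ofReal_mul_I θ

theorem ei_conj_mul : (starRingEnd ℂ) (ei θ) * ei θ = 1 := by
  rw [Complex.conj_mul', ei_norm]
  norm_num

/-- `⟪A V, V⟫ = ⟪A v, v⟫` with `v = P V` -/
theorem AV (D : Tr H θ) (n : ℕ) (x : H) :
    ⟪D.A n x, x⟫_ℂ = ⟪D.A n (D.P n x), D.P n x⟫_ℂ := by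
  rw [D.A_P]
  conv_lhs => rw [← D.P_A, D.P_sa]

theorem AV' (D : Tr H θ) (n : ℕ) (x : H) :
    ⟪D.A n x, x⟫_ℂ = ⟪D.A n x, D.P n x⟫_ℂ := by
  conv_lhs => rw [← D.P_A, D.P_sa]

theorem gP (D : Tr H θ) (n : ℕ) (x y : H) :
    ⟪x, D.P n y⟫_ℂ = ⟪D.P n x, D.P n y⟫_ℂ := by
  rw [D.P_sa, D.P_P]

/-- third claim -/
theorem third (D : Tr H θ) (V g : ℝ → H) (n : ℕ) (s : ℝ) :
    -2 * Kn D V n s + (⟪g s, D.P n (V s)⟫_ℂ).re ≤ ‖dv D V g n s‖ * ‖D.P n (V s)‖ := by
  have h1 : -2 * Kn D V n s + (⟪g s, D.P n (V s)⟫_ℂ).re =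
      (⟪D.A n (V s) + D.P n (g s), D.P n (V s)⟫_ℂ).re := by
    rw [inner_add_left, Complex.add_re, ← AV', gP]
    unfold Kn
    ring
  have h2 : ‖dv D V g n s‖ = ‖D.A n (V s) + D.P n (g s)‖ := by
    unfold dv
    rw [norm_smul, ei_norm, one_mul]
  rw [h1, h2]
  exact (Complex.re_le_norm _).trans (norm_inner_le_norm _ _)

/-- the algebra of the first claim -/
theorem alg1 (D : Tr H θ) (V g : ℝ → H) (n : ℕ) (s : ℝ) :
    -(⟪D.A n (V s), dv D V g n s⟫_ℂ).re =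
      -(Real.cos θ * ‖dv D V g n s‖ ^ 2) + (⟪g s, dv D V g n s⟫_ℂ).re := by
  obtain ⟨w, hw⟩ : ∃ w : H, w = dv D V g n s := ⟨_, rfl⟩
  have hPw : D.P n w = w := by
    rw [hw]
    unfold dv
    rw [map_smul, map_add, D.P_A, D.P_P]
  have hA : D.A n (V s) = (starRingEnd ℂ) (ei θ) • w - D.P n (g s) := by
    rw [hw]
    unfold dv
    rw [smul_smul, ei_conj_mul, one_smul]
    abel
  rw [← hw, hA, inner_sub_left, inner_smul_left, D.P_sa, hPw, Complex.conj_conj,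
    inner_self_eq_norm_sq_to_K]
  have h1 : (ei θ * ((‖w‖ : ℂ)) ^ 2).re = Real.cos θ * ‖w‖ ^ 2 := by
    rw [← Complex.ofReal_pow, Complex.re_mul_ofReal, ei_re]
  have h2 : (ei θ * ((‖w‖ : ℂ)) ^ 2 - ⟪g s, w⟫_ℂ).re =
      (ei θ * ((‖w‖ : ℂ)) ^ 2).re - (⟪g s, w⟫_ℂ).re := Complex.sub_re _ _
  have h3 : -(ei θ * ((‖w‖ : ℂ)) ^ 2 - ⟪g s, w⟫_ℂ).re =
      -(Real.cos θ * ‖w‖ ^ 2) + (⟪g s, w⟫_ℂ).re := by
    rw [h2, h1]
    ring
  exact h3

/-- the algebra of the second claim -/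
theorem alg2 (D : Tr H θ) (V g : ℝ → H) (n : ℕ) (s : ℝ) :
    (⟪D.P n (V s), dv D V g n s⟫_ℂ).re =
      Real.cos θ * (-2 * Kn D V n s + (⟪g s, D.P n (V s)⟫_ℂ).re) +
        Real.sin θ * (⟪g s, D.P n (V s)⟫_ℂ).im := by
  have h1 : (⟪D.P n (V s), D.A n (V s)⟫_ℂ) = ((-2 * Kn D V n s : ℝ) : ℂ) := by
    have h2 : ⟪D.P n (V s), D.A n (V s)⟫_ℂ = ⟪D.A n (V s), V s⟫_ℂ := by
      rw [D.P_sa, D.P_A, D.A_sa]
    have h3 : (starRingEnd ℂ) ⟪D.A n (V s), V s⟫_ℂ = ⟪D.A n (V s), V s⟫_ℂ := by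
      rw [inner_conj_symm, D.A_sa]
    rw [h2]
    obtain ⟨r, hr⟩ := Complex.conj_eq_iff_real.1 h3
    rw [hr]
    have h4 : Kn D V n s = -(1 / 2) * r := by
      unfold Kn
      rw [hr, Complex.ofReal_re]
    rw [h4]
    push_cast
    ring
  have h5 : ⟪D.P n (V s), D.P n (g s)⟫_ℂ = (starRingEnd ℂ) ⟪g s, D.P n (V s)⟫_ℂ := by
    rw [inner_conj_symm, ← D.P_sa, D.P_P]
  have h6 : dv D V g n s = ei θ • (D.A n (V s) + D.P n (g s)) := rfl
  rw [h6, inner_smul_right, inner_add_right, h1, h5, Complex.mul_re, Complex.add_re,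
    Complex.add_im, Complex.ofReal_re, Complex.ofReal_im, Complex.conj_re, Complex.conj_im,
    ei_re, ei_im]
  ring

theorem main (h1 : S_H1) (D : Tr H θ) (b : ℝ) (V g : ℝ → H) (hb : 0 ≤ b) (hV : MildH D b V g)
    (n : ℕ) :
    (∀ a c, 0 ≤ a → a ≤ c → c ≤ b →
      Kn D V n c - Kn D V n a + Real.cos θ * ∫ s in a..c, ‖dv D V g n s‖ ^ 2 =
        ∫ s in a..c, (⟪g s, dv D V g n s⟫_ℂ).re) ∧
    (∀ a c, 0 ≤ a → a ≤ c → c ≤ b →
      ‖D.P n (V c)‖ ^ 2 - ‖D.P n (V a)‖ ^ 2 =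
        ∫ s in a..c, 2 * (Real.cos θ * (-2 * Kn D V n s + (⟪g s, D.P n (V s)⟫_ℂ).re) +
          Real.sin θ * (⟪g s, D.P n (V s)⟫_ℂ).im)) := by
  obtain ⟨hdv, hint⟩ := h1 H θ D b V g hb hV n
  -- the extension of the derivative
  obtain ⟨w, hw, hwc⟩ : ∃ w : ℝ → H, (∀ s ∈ Icc 0 b, w s = dv D V g n s) ∧ Continuous w := by
    refine ⟨fun s => dv D V g n (projIcc 0 b hb s), fun s hs => ?_, ?_⟩
    · show dv D V g n (projIcc 0 b hb s) = dv D V g n s
      rw [projIcc_of_mem hb hs]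
    · exact hdv.comp_continuous (continuous_subtype_val.comp continuous_projIcc)
        fun s => (projIcc 0 b hb s).2
  obtain ⟨F, hF⟩ : ∃ F : ℝ → H, F = fun t => D.P n (V 0) + ∫ s in (0 : ℝ)..t, w s := ⟨_, rfl⟩
  have hFd : ∀ t, HasDerivAt F (w t) t := by
    intro t
    rw [hF]
    have h2 := (intervalIntegral.integral_hasDerivAt_right (hwc.intervalIntegrable 0 t)
      (hwc.stronglyMeasurableAtFilter _ _) hwc.continuousAt).const_add (D.P n (V 0))
    exact h2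
  have hFc : Continuous F := continuous_iff_continuousAt.2 fun t => (hFd t).continuousAt
  have hFV : ∀ t ∈ Icc 0 b, F t = D.P n (V t) := by
    intro t ht
    rw [hint t ht, hF]
    show D.P n (V 0) + ∫ s in (0 : ℝ)..t, w s = _
    rw [intervalIntegral.integral_congr]
    intro s hs
    rw [uIcc_of_le ht.1] at hs
    exact hw s ⟨hs.1, hs.2.trans ht.2⟩
  have hAF : ∀ t ∈ Icc 0 b, D.A n (F t) = D.A n (V t) := by
    intro t ht
    rw [hFV t ht, D.A_P]
  have hK : ∀ t ∈ Icc 0 b, Kn D V n t = -(1 / 2) * (⟪D.A n (F t), F t⟫_ℂ).re := by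
    intro t ht
    unfold Kn
    rw [AV, hFV t ht]
  have hsub : ∀ a c, 0 ≤ a → a ≤ c → c ≤ b → ∀ s ∈ uIcc a c, s ∈ Icc 0 b := by
    intro a c ha hac hcb s hs
    rw [uIcc_of_le hac] at hs
    exact ⟨ha.trans hs.1, hs.2.trans hcb⟩
  refine ⟨fun a c ha hac hcb => ?_, fun a c ha hac hcb => ?_⟩
  · -- derivative of the energy
    have hAd : ∀ t, HasDerivAt (fun s => D.A n (F s)) (D.A n (w t)) t := by
      intro t
      exact ((ContinuousLinearMap.restrictScalars ℝ (D.A n)).hasFDerivAt.comp_hasDerivAt t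
        (hFd t))
    have hkd : ∀ t, HasDerivAt (fun s => -(1 / 2) * (⟪D.A n (F s), F s⟫_ℂ).re)
        (-(⟪D.A n (F t), w t⟫_ℂ).re) t := by
      intro t
      have h2 := (hAd t).inner ℂ (hFd t)
      have h3 : HasDerivAt (fun s => (⟪D.A n (F s), F s⟫_ℂ).re)
          ((⟪D.A n (F t), w t⟫_ℂ + ⟪D.A n (w t), F t⟫_ℂ).re) t :=
        Complex.reCLM.hasFDerivAt.comp_hasDerivAt t h2
      have h4 := h3.const_mul (-(1 / 2) : ℝ)
      have h5 : (⟪D.A n (w t), F t⟫_ℂ).re = (⟪D.A n (F t), w t⟫_ℂ).re := by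
        rw [D.A_sa, ← inner_conj_symm, Complex.conj_re]
      have h6 : -(1 / 2) * (⟪D.A n (F t), w t⟫_ℂ + ⟪D.A n (w t), F t⟫_ℂ).re =
          -(⟪D.A n (F t), w t⟫_ℂ).re := by
        rw [Complex.add_re, h5]
        ring
      rw [← h6]
      exact h4
    have hdc : Continuous fun t => -(⟪D.A n (F t), w t⟫_ℂ).re :=
      (Complex.continuous_re.comp (((D.A n).continuous.comp hFc).inner hwc)).neg
    have h7 := intervalIntegral.integral_eq_sub_of_hasDerivAt (a := a) (b := c)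
      (fun x _ => hkd x) (hdc.intervalIntegrable a c)
    have ha' : a ∈ Icc 0 b := ⟨ha, hac.trans hcb⟩
    have hc' : c ∈ Icc 0 b := ⟨ha.trans hac, hcb⟩
    rw [← hK a ha', ← hK c hc'] at h7
    have h8 : ∫ s in a..c, -(⟪D.A n (F s), w s⟫_ℂ).re =
        ∫ s in a..c, (-(Real.cos θ * ‖dv D V g n s‖ ^ 2) + (⟪g s, dv D V g n s⟫_ℂ).re) := by
      refine intervalIntegral.integral_congr fun s hs => ?_
      have hs' := hsub a c ha hac hcb s hs
      show -(⟪D.A n (F s), w s⟫_ℂ).re = _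
      rw [hAF s hs', hw s hs']
      exact alg1 D V g n s
    have hss : Set.uIcc a c ⊆ Icc 0 b := fun s hs => hsub a c ha hac hcb s hs
    have hdv' : ContinuousOn (dv D V g n) (uIcc a c) := hdv.mono hss
    have hg' : ContinuousOn g (uIcc a c) := hV.contg.mono hss
    have hi1 : IntervalIntegrable (fun s => ‖dv D V g n s‖ ^ 2) volume a c :=
      (hdv'.norm.pow 2).intervalIntegrable
    have hi2 : IntervalIntegrable (fun s => (⟪g s, dv D V g n s⟫_ℂ).re) volume a c :=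
      (Complex.continuous_re.comp_continuousOn (hg'.inner hdv')).intervalIntegrable
    have h9 : ∫ s in a..c, (-(Real.cos θ * ‖dv D V g n s‖ ^ 2) + (⟪g s, dv D V g n s⟫_ℂ).re) =
        -(Real.cos θ * ∫ s in a..c, ‖dv D V g n s‖ ^ 2) +
          ∫ s in a..c, (⟪g s, dv D V g n s⟫_ℂ).re := by
      have hi3 : IntervalIntegrable (fun s => -(Real.cos θ * ‖dv D V g n s‖ ^ 2)) volume a c :=
        (hi1.const_mul (Real.cos θ)).neg
      rw [intervalIntegral.integral_add hi3 hi2,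
        intervalIntegral.integral_neg, intervalIntegral.integral_const_mul]
    rw [h8, h9] at h7
    linarith
  · -- derivative of the square of the norm
    have hnd : ∀ t, HasDerivAt (fun s => ‖F s‖ ^ 2) (2 * (⟪F t, w t⟫_ℂ).re) t := by
      intro t
      have h2 := (hFd t).inner ℂ (hFd t)
      have h3 : HasDerivAt (fun s => (⟪F s, F s⟫_ℂ).re)
          ((⟪F t, w t⟫_ℂ + ⟪w t, F t⟫_ℂ).re) t :=
        Complex.reCLM.hasFDerivAt.comp_hasDerivAt t h2
      have h5 : (⟪w t, F t⟫_ℂ).re = (⟪F t, w t⟫_ℂ).re := by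
        rw [← inner_conj_symm, Complex.conj_re]
      have h6 : (⟪F t, w t⟫_ℂ + ⟪w t, F t⟫_ℂ).re = 2 * (⟪F t, w t⟫_ℂ).re := by
        rw [Complex.add_re, h5]
        ring
      rw [← h6]
      have h7 : (fun s => ‖F s‖ ^ 2) = fun s => (⟪F s, F s⟫_ℂ).re := by
        funext s
        rw [inner_self_eq_norm_sq_to_K]
        norm_cast
      rw [h7]
      exact h3
    have hdc : Continuous fun t => 2 * (⟪F t, w t⟫_ℂ).re :=
      continuous_const.mul (Complex.continuous_re.comp (hFc.inner hwc))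
    have h7 := intervalIntegral.integral_eq_sub_of_hasDerivAt (a := a) (b := c)
      (fun x _ => hnd x) (hdc.intervalIntegrable a c)
    have ha' : a ∈ Icc 0 b := ⟨ha, hac.trans hcb⟩
    have hc' : c ∈ Icc 0 b := ⟨ha.trans hac, hcb⟩
    rw [hFV a ha', hFV c hc'] at h7
    rw [← h7]
    refine intervalIntegral.integral_congr fun s hs => ?_
    have hs' := hsub a c ha hac hcb s hs
    show 2 * (⟪F s, w s⟫_ℂ).re = _
    rw [hFV s hs', hw s hs', alg2]

end H2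

theorem t_H2 (h1 : S_H1) : S_H2 := by
  intro H _ _ _ θ D b V g hb hV n
  have h := H2.main h1 D b V g hb hV n
  exact ⟨h.1, h.2, fun s => H2.third D V g n s⟩

end Pool.Agent.Q73.GL
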