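import Pool.Agent.Q73.GL.Stm

set_option autoImplicit false
set_option linter.unusedSectionVars false

/-! # Project GL of helper73, job H3: bound of the dissipation, limit of the work of `g` -/

namespace Pool.Agent.Q73.GL

open MeasureTheory Set Filter Topology
open scoped InnerProductSpace Real

namespace H3

variable {H : Type} [NormedAddCommGroup H] [InnerProductSpace ℂ H] [CompleteSpace H] {θ : ℝ}

theorem re_le (x y : H) : (⟪x, y⟫_ℂ).re ≤ ‖x‖ * ‖y‖ :=
  (Complex.re_le_norm _).trans (norm_inner_le_norm _ _)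

/-- `re ⟪x, ·⟫` as a real linear functional -/
noncomputable def fl (x : H) : H →L[ℝ] ℝ :=
  Complex.reCLM ∘L ((innerSL ℂ x).restrictScalars ℝ)

theorem fl_apply (x y : H) : fl x y = (⟪x, y⟫_ℂ).re := rfl

theorem Kn_nonneg (D : Tr H θ) (V : ℝ → H) (n : ℕ) (s : ℝ) : 0 ≤ Kn D V n s := by
  unfold Kn
  have := D.A_neg n (V s)
  nlinarith

/-- part (A) -/
theorem partA (h1 : S_H1) (h2 : S_H2) (D : Tr H θ) (b K0 : ℝ) (V g : ℝ → H) (h0 : 0 ≤ θ)
    (hθ : θ < π / 2) (hb : 0 < b) (hV : MildH D b V g) (hK : ∀ n, Kn D V n 0 ≤ K0) :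
    ∃ C : ℝ, ∀ n, ∫ s in (0 : ℝ)..b, ‖dv D V g n s‖ ^ 2 ≤ C := by
  obtain ⟨c, hc⟩ : ∃ c : ℝ, c = Real.cos θ := ⟨_, rfl⟩
  have hc0 : 0 < c := by
    rw [hc]
    exact Real.cos_pos_of_mem_Ioo ⟨by linarith [Real.pi_pos], hθ⟩
  refine ⟨2 / c * (K0 + 1 / (2 * c) * ∫ s in (0 : ℝ)..b, ‖g s‖ ^ 2), fun n => ?_⟩
  have hdv := (h1 H θ D b V g hb.le hV n).1
  have h3 := (h2 H θ D b V g hb.le hV n).1 0 b (le_refl 0) hb.le (le_refl b)
  have h4 := Kn_nonneg D V n b
  have h5 := hK n
  have hu : uIcc 0 b = Icc 0 b := uIcc_of_le hb.le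
  have i1 : IntervalIntegrable (fun s => ‖dv D V g n s‖ ^ 2) volume 0 b :=
    ContinuousOn.intervalIntegrable (by rw [hu]; exact (hdv.norm).pow 2)
  have i2 : IntervalIntegrable (fun s => ‖g s‖ ^ 2) volume 0 b :=
    ContinuousOn.intervalIntegrable (by rw [hu]; exact (hV.contg.norm).pow 2)
  have i3 : IntervalIntegrable (fun s => (⟪g s, dv D V g n s⟫_ℂ).re) volume 0 b :=
    ContinuousOn.intervalIntegrable (by
      rw [hu]
      exact Complex.continuous_re.comp_continuousOn (hV.contg.inner hdv))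
  have h6 : ∫ s in (0 : ℝ)..b, (⟪g s, dv D V g n s⟫_ℂ).re ≤
      ∫ s in (0 : ℝ)..b, (1 / (2 * c) * ‖g s‖ ^ 2 + c / 2 * ‖dv D V g n s‖ ^ 2) := by
    refine intervalIntegral.integral_mono_on hb.le i3
      ((i2.const_mul _).add (i1.const_mul _)) fun s _ => ?_
    refine (re_le _ _).trans ?_
    have h7 : 0 ≤ (‖g s‖ - c * ‖dv D V g n s‖) ^ 2 / (2 * c) := by positivity
    have h8 : (‖g s‖ - c * ‖dv D V g n s‖) ^ 2 / (2 * c) =
        1 / (2 * c) * ‖g s‖ ^ 2 + c / 2 * ‖dv D V g n s‖ ^ 2 - ‖g s‖ * ‖dv D V g n s‖ := by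
      field_simp
      ring
    linarith
  rw [intervalIntegral.integral_add (i2.const_mul _) (i1.const_mul _),
    intervalIntegral.integral_const_mul, intervalIntegral.integral_const_mul] at h6
  rw [← hc] at h3
  have h9 : c / 2 * ∫ s in (0 : ℝ)..b, ‖dv D V g n s‖ ^ 2 ≤
      K0 + 1 / (2 * c) * ∫ s in (0 : ℝ)..b, ‖g s‖ ^ 2 := by linarith
  have h10 := mul_le_mul_of_nonneg_left h9 (by positivity : (0 : ℝ) ≤ 2 / c)
  refine le_trans (le_of_eq ?_) h10
  field_simp

/-- part (B) -/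
theorem partB (h1 : S_H1) (D : Tr H θ) (b lam be C : ℝ) (V g : ℝ → H) (p : ℝ → ℝ)
    (hb : 0 < b) (hlam : 0 ≤ lam) (hV : MildH D b V g) (hp : PotH b lam be V g p)
    (hC : ∀ n, ∫ s in (0 : ℝ)..b, ‖dv D V g n s‖ ^ 2 ≤ C)
    (a c : ℝ) (ha : 0 ≤ a) (hac : a ≤ c) (hcb : c ≤ b) (ε : ℝ) (hε : 0 < ε) :
    ∀ᶠ n in atTop, ∫ s in a..c, (⟪g s, dv D V g n s⟫_ℂ).re ≤
      Real.exp (lam * c) * p c - Real.exp (lam * a) * p a -
        (∫ s in a..c, lam * Real.exp (lam * s) * p s) + ε := by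
  have hC0 : 0 ≤ C := by
    refine le_trans ?_ (hC 0)
    exact intervalIntegral.integral_nonneg hb.le fun s _ => by positivity
  obtain ⟨ω, hω⟩ : ∃ ω : ℝ, ω = ε / (3 * (b + C)) := ⟨_, rfl⟩
  have hω0 : 0 < ω := by
    rw [hω]
    positivity
  obtain ⟨ω', hω'⟩ : ∃ ω' : ℝ, ω' = ε / (3 * Real.exp (lam * b)) := ⟨_, rfl⟩
  have hω'0 : 0 < ω' := by
    rw [hω']
    positivity
  obtain ⟨δ1, hδ1, hg⟩ := Metric.uniformContinuousOn_iff.1
    (isCompact_Icc.uniformContinuousOn_of_continuous hV.contg) ω hω0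
  obtain ⟨δ2, hδ2, hpc⟩ := Metric.uniformContinuousOn_iff.1
    (isCompact_Icc.uniformContinuousOn_of_continuous hp.cont) ω' hω'0
  obtain ⟨m, hm⟩ := exists_nat_gt ((c - a) / min δ1 δ2)
  have hδ : 0 < min δ1 δ2 := lt_min hδ1 hδ2
  have hm0 : (0 : ℝ) < m := lt_of_le_of_lt (div_nonneg (sub_nonneg.2 hac) hδ.le) hm
  obtain ⟨h, hh⟩ : ∃ h : ℝ, h = (c - a) / m := ⟨_, rfl⟩
  have hh0 : 0 ≤ h := by
    rw [hh]
    exact div_nonneg (sub_nonneg.2 hac) hm0.le
  have hhδ : h < min δ1 δ2 := by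
    rw [hh, div_lt_iff₀ hm0]
    rw [div_lt_iff₀ hδ] at hm
    linarith
  obtain ⟨t, ht⟩ : ∃ t : ℕ → ℝ, t = fun j : ℕ => a + j * h := ⟨_, rfl⟩
  have ht0 : t 0 = a := by simp [ht]
  have htm : t m = c := by
    rw [ht, hh]
    field_simp
    ring
  have hts : ∀ j, t (j + 1) = t j + h := by
    intro j
    rw [ht]
    push_cast
    ring
  have htle : ∀ j, t j ≤ t (j + 1) := fun j => by
    rw [hts]
    linarith
  have htmono : Monotone t := monotone_nat_of_le_succ htle
  have htmem : ∀ j, j ≤ m → t j ∈ Icc a c := fun j hj =>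
    ⟨by rw [← ht0]; exact htmono (Nat.zero_le j), by rw [← htm]; exact htmono hj⟩
  have hsub : ∀ j, j < m → Icc (t j) (t (j + 1)) ⊆ Icc a c := fun j hj =>
    Icc_subset_Icc (htmem j hj.le).1 (htmem (j + 1) hj).2
  have hac0 : Icc a c ⊆ Icc 0 b := Icc_subset_Icc ha hcb
  have hint : ∀ (f : ℝ → ℝ), ContinuousOn f (Icc 0 b) → ∀ j, j < m →
      IntervalIntegrable f volume (t j) (t (j + 1)) := fun f hf j hj =>
    ContinuousOn.intervalIntegrable (by
      rw [uIcc_of_le (htle j)]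
      exact hf.mono ((hsub j hj).trans hac0))
  have hsplit : ∀ (f : ℝ → ℝ), ContinuousOn f (Icc 0 b) →
      ∑ j ∈ Finset.range m, ∫ s in t j..t (j + 1), f s = ∫ s in a..c, f s := by
    intro f hf
    have := intervalIntegral.sum_integral_adjacent_intervals (a := t) (n := m) (hint f hf)
    rw [this, ht0, htm]
  -- the limit of the sums
  have hlim : Tendsto (fun n => ∑ j ∈ Finset.range m, fl (g (t j)) (D.P n (V (t (j + 1)) - V (t j))))
      atTop (𝓝 (∑ j ∈ Finset.range m, fl (g (t j)) (V (t (j + 1)) - V (t j)))) :=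
    tendsto_finsetSum _ fun j _ => ((fl (g (t j))).continuous.tendsto _).comp (D.P_lim _)
  have hev := hlim.eventually_lt_const
    (show ∑ j ∈ Finset.range m, fl (g (t j)) (V (t (j + 1)) - V (t j)) <
      ∑ j ∈ Finset.range m, fl (g (t j)) (V (t (j + 1)) - V (t j)) + ε / 3 by linarith)
  -- the potential
  have hexpc : Continuous fun s : ℝ => lam * Real.exp (lam * s) := by fun_prop
  have hexpint : ∀ x y : ℝ, ∫ s in x..y, lam * Real.exp (lam * s) =
      Real.exp (lam * y) - Real.exp (lam * x) := by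
    intro x y
    refine intervalIntegral.integral_eq_sub_of_hasDerivAt (f := fun s => Real.exp (lam * s))
      (fun s _ => ?_) (hexpc.intervalIntegrable _ _)
    have := ((hasDerivAt_id s).const_mul lam).exp
    simp only [id, mul_one] at this
    rw [mul_comm]
    exact this
  have hpot : ∑ j ∈ Finset.range m, fl (g (t j)) (V (t (j + 1)) - V (t j)) ≤
      Real.exp (lam * c) * p c - Real.exp (lam * a) * p a -
        (∫ s in a..c, lam * Real.exp (lam * s) * p s) + ε / 3 := by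
    have e1 : ∀ j ∈ Finset.range m, fl (g (t j)) (V (t (j + 1)) - V (t j)) ≤
        (Real.exp (lam * t (j + 1)) * p (t (j + 1)) - Real.exp (lam * t j) * p (t j)) -
          (∫ s in t j..t (j + 1), lam * Real.exp (lam * s) * p s) +
          ω' * (Real.exp (lam * t (j + 1)) - Real.exp (lam * t j)) := by
      intro j hj
      have hjm := Finset.mem_range.1 hj
      have m1 : t j ∈ Icc 0 b := hac0 (htmem j hjm.le)
      have m2 : t (j + 1) ∈ Icc 0 b := hac0 (htmem (j + 1) hjm)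
      have e2 := hp.conv (t j) m1 (t (j + 1)) m2
      have e3 : ∫ s in t j..t (j + 1), lam * Real.exp (lam * s) * p s ≤
          ∫ s in t j..t (j + 1), (p (t (j + 1)) + ω') * (lam * Real.exp (lam * s)) := by
        refine intervalIntegral.integral_mono_on (htle j)
          (hint _ ((hexpc.continuousOn).mul hp.cont) j hjm)
          ((hexpc.intervalIntegrable _ _).const_mul _) fun s hs => ?_
        have m3 : s ∈ Icc 0 b := hac0 (hsub j hjm hs)
        have e4 : dist (p s) (p (t (j + 1))) < ω' := by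
          refine hpc s m3 _ m2 ?_
          rw [Real.dist_eq, abs_sub_comm, abs_of_nonneg (by linarith [hs.2])]
          have := hs.1
          have h7 := hts j
          have h8 : min δ1 δ2 ≤ δ2 := min_le_right _ _
          linarith
        rw [Real.dist_eq] at e4
        have e5 := (abs_lt.1 e4).2
        have e6 : 0 ≤ lam * Real.exp (lam * s) := mul_nonneg hlam (Real.exp_pos _).le
        nlinarith
      rw [intervalIntegral.integral_const_mul, hexpint] at e3
      rw [fl_apply]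
      refine e2.trans ?_
      nlinarith
    refine (Finset.sum_le_sum e1).trans ?_
    rw [Finset.sum_add_distrib, Finset.sum_sub_distrib,
      Finset.sum_range_sub (fun j => Real.exp (lam * t j) * p (t j)) m, ← Finset.mul_sum,
      Finset.sum_range_sub (fun j => Real.exp (lam * t j)) m,
      hsplit (fun s => lam * Real.exp (lam * s) * p s) ((hexpc.continuousOn).mul hp.cont), ht0, htm]
    have e7 : Real.exp (lam * c) - Real.exp (lam * a) ≤ Real.exp (lam * b) := by
      have e8 : Real.exp (lam * c) ≤ Real.exp (lam * b) :=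
        Real.exp_le_exp.2 (mul_le_mul_of_nonneg_left hcb hlam)
      linarith [Real.exp_pos (lam * a)]
    have e9 : ω' * (Real.exp (lam * c) - Real.exp (lam * a)) ≤ ε / 3 := by
      refine (mul_le_mul_of_nonneg_left e7 hω'0.le).trans (le_of_eq ?_)
      rw [hω']
      have := (Real.exp_pos (lam * b)).ne'
      field_simp
    linarith
  filter_upwards [hev] with n hn
  have hdv := (h1 H θ D b V g hb.le hV n).1
  have hH1 := (h1 H θ D b V g hb.le hV n).2
  have hP : ∀ j, j < m → D.P n (V (t (j + 1)) - V (t j)) = ∫ s in t j..t (j + 1), dv D V g n s := by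
    intro j hj
    have m1 : t j ∈ Icc 0 b := hac0 (htmem j hj.le)
    have m2 : t (j + 1) ∈ Icc 0 b := hac0 (htmem (j + 1) hj)
    have i1 : IntervalIntegrable (dv D V g n) volume 0 (t j) :=
      ContinuousOn.intervalIntegrable (by
        rw [uIcc_of_le m1.1]
        exact hdv.mono (Icc_subset_Icc (le_refl 0) m1.2))
    have i2 : IntervalIntegrable (dv D V g n) volume 0 (t (j + 1)) :=
      ContinuousOn.intervalIntegrable (by
        rw [uIcc_of_le m2.1]
        exact hdv.mono (Icc_subset_Icc (le_refl 0) m2.2))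
    rw [map_sub, hH1 _ m1, hH1 _ m2, ← intervalIntegral.integral_interval_sub_left i2 i1]
    abel
  have hre : ContinuousOn (fun s => (⟪g s, dv D V g n s⟫_ℂ).re) (Icc 0 b) :=
    Complex.continuous_re.comp_continuousOn (hV.contg.inner hdv)
  have hsq : ContinuousOn (fun s => ‖dv D V g n s‖ ^ 2) (Icc 0 b) := (hdv.norm).pow 2
  have hsq1 : ContinuousOn (fun s => 1 + ‖dv D V g n s‖ ^ 2) (Icc 0 b) := continuousOn_const.add hsq
  have hpiece : ∀ j ∈ Finset.range m, ∫ s in t j..t (j + 1), (⟪g s, dv D V g n s⟫_ℂ).re ≤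
      fl (g (t j)) (D.P n (V (t (j + 1)) - V (t j))) +
        ω / 2 * ∫ s in t j..t (j + 1), (1 + ‖dv D V g n s‖ ^ 2) := by
    intro j hj
    have hjm := Finset.mem_range.1 hj
    have i1 : IntervalIntegrable (dv D V g n) volume (t j) (t (j + 1)) :=
      ContinuousOn.intervalIntegrable (by
        rw [uIcc_of_le (htle j)]
        exact hdv.mono ((hsub j hjm).trans hac0))
    have hfl : ContinuousOn (fun s => fl (g (t j)) (dv D V g n s)) (Icc 0 b) :=
      (fl (g (t j))).continuous.comp_continuousOn hdv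
    rw [hP j hjm, ← ContinuousLinearMap.intervalIntegral_comp_comm _ i1,
      ← intervalIntegral.integral_const_mul,
      ← intervalIntegral.integral_add (hint _ hfl j hjm) ((hint _ hsq1 j hjm).const_mul _)]
    refine intervalIntegral.integral_mono_on (htle j) (hint _ hre j hjm)
      ((hint _ hfl j hjm).add ((hint _ hsq1 j hjm).const_mul _)) fun s hs => ?_
    have m1 : t j ∈ Icc 0 b := hac0 (htmem j hjm.le)
    have m3 : s ∈ Icc 0 b := hac0 (hsub j hjm hs)
    have e4 : dist (g s) (g (t j)) < ω := by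
      refine hg s m3 _ m1 ?_
      rw [Real.dist_eq, abs_of_nonneg (by linarith [hs.1])]
      have := hs.2
      have h7 := hts j
      have h8 : min δ1 δ2 ≤ δ1 := min_le_left _ _
      linarith
    rw [dist_eq_norm] at e4
    have e5 : (⟪g s, dv D V g n s⟫_ℂ).re = fl (g (t j)) (dv D V g n s) +
        (⟪g s - g (t j), dv D V g n s⟫_ℂ).re := by
      rw [fl_apply, inner_sub_left, Complex.sub_re]
      ring
    rw [e5]
    have e6 := re_le (g s - g (t j)) (dv D V g n s)
    have e7 : ‖g s - g (t j)‖ * ‖dv D V g n s‖ ≤ ω * ‖dv D V g n s‖ :=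
      mul_le_mul_of_nonneg_right e4.le (norm_nonneg _)
    have e8 : 0 ≤ ω * (1 - ‖dv D V g n s‖) ^ 2 := by positivity
    have e9 : ω * ‖dv D V g n s‖ ≤ ω / 2 * (1 + ‖dv D V g n s‖ ^ 2) := by nlinarith
    linarith
  have hsum := Finset.sum_le_sum hpiece
  rw [hsplit _ hre, Finset.sum_add_distrib, ← Finset.mul_sum, hsplit _ hsq1] at hsum
  have hlast : ∫ s in a..c, (1 + ‖dv D V g n s‖ ^ 2) ≤ b + C := by
    have j1 : ∫ s in a..c, (1 + ‖dv D V g n s‖ ^ 2) ≤
        ∫ s in (0 : ℝ)..b, (1 + ‖dv D V g n s‖ ^ 2) := by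
      have k1 : ∀ x y, x ∈ Icc 0 b → y ∈ Icc 0 b →
          IntervalIntegrable (fun s => 1 + ‖dv D V g n s‖ ^ 2) volume x y := fun x y hx hy =>
        ContinuousOn.intervalIntegrable (hsq1.mono (uIcc_subset_Icc hx hy))
      have ma : a ∈ Icc 0 b := ⟨ha, hac.trans hcb⟩
      have mc : c ∈ Icc 0 b := ⟨ha.trans hac, hcb⟩
      have m0 : (0 : ℝ) ∈ Icc 0 b := ⟨le_refl 0, hb.le⟩
      have mb : b ∈ Icc 0 b := ⟨hb.le, le_refl b⟩
      rw [← intervalIntegral.integral_add_adjacent_intervals (k1 0 c m0 mc) (k1 c b mc mb),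
        ← intervalIntegral.integral_add_adjacent_intervals (k1 0 a m0 ma) (k1 a c ma mc)]
      have n1 : 0 ≤ ∫ s in (0 : ℝ)..a, (1 + ‖dv D V g n s‖ ^ 2) :=
        intervalIntegral.integral_nonneg ha fun s _ => by positivity
      have n2 : 0 ≤ ∫ s in c..b, (1 + ‖dv D V g n s‖ ^ 2) :=
        intervalIntegral.integral_nonneg hcb fun s _ => by positivity
      linarith
    refine j1.trans ?_
    rw [intervalIntegral.integral_add (intervalIntegrable_const)
      (ContinuousOn.intervalIntegrable (by rw [uIcc_of_le hb.le]; exact hsq)),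
      intervalIntegral.integral_const, smul_eq_mul, mul_one, sub_zero]
    linarith [hC n]
  have hω2 : ω / 2 * ∫ s in a..c, (1 + ‖dv D V g n s‖ ^ 2) ≤ ε / 3 := by
    have hpos : 0 < b + C := by linarith
    have k1 : ω / 2 * (b + C) = ε / 6 := by
      rw [hω]
      field_simp
      ring
    have k2 := mul_le_mul_of_nonneg_left hlast (by positivity : 0 ≤ ω / 2)
    linarith
  linarith

end H3

theorem t_H3 (h1 : S_H1) (h2 : S_H2) : S_H3 := by
  intro H _ _ _ θ D b lam be K0 V g p h0 hθ hb hlam hV hp hK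
  obtain ⟨C, hC⟩ := H3.partA h1 h2 D b K0 V g h0 hθ hb hV hK
  exact ⟨⟨C, hC⟩, fun a c ha hac hcb ε hε =>
    H3.partB h1 D b lam be C V g p hb hlam hV hp hC a c ha hac hcb ε hε⟩

end Pool.Agent.Q73.GL
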