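import Pool.Agent.Q73.GL.Stm

set_option autoImplicit false

/-!
Project GL (helper73), JOB H4: the energy lemma (proof by helper277).
-/

namespace Pool.Agent.Q73.GL

open MeasureTheory Set Filter Topology
open scoped InnerProductSpace Real

namespace H4

/-- if a number is at most `r X + Y / r` for all `r`, its square is at most `4 X Y` -/
theorem sq_le {x X Y : ℝ} (hx : 0 ≤ x) (hX : 0 ≤ X) (hY : 0 ≤ Y)
    (h : ∀ r : ℝ, 0 < r → x ≤ r * X + Y / r) : x ^ 2 ≤ 4 * X * Y := by
  have h1 : ∀ r : ℝ, 0 ≤ X * (r * r) + (-x) * r + Y := by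
    intro r
    rcases le_or_gt r 0 with hr | hr
    · have h2 : 0 ≤ X * (r * r) := mul_nonneg hX (mul_self_nonneg r)
      have h3 : 0 ≤ (-x) * r := mul_nonneg_of_nonpos_of_nonpos (by linarith) hr
      linarith
    · have h2 := mul_le_mul_of_nonneg_left (h r hr) hr.le
      have h3 : r * (r * X + Y / r) = X * (r * r) + Y := by
        field_simp
      linarith
  have h2 := discrim_le_zero h1
  unfold discrim at h2
  nlinarith

section

variable {H : Type} [NormedAddCommGroup H] [InnerProductSpace ℂ H] {θ : ℝ}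
  {D : Tr H θ} {b lam be K0 : ℝ} {V g : ℝ → H} {p : ℝ → ℝ}

theorem kn_mono (s : ℝ) : Monotone fun n => Kn D V n s := by
  refine monotone_nat_of_le_succ fun n => ?_
  unfold Kn
  have := D.A_anti n (V s)
  linarith

theorem kn_nonneg (n : ℕ) (s : ℝ) : 0 ≤ Kn D V n s := by
  unfold Kn
  have := D.A_neg n (V s)
  linarith

theorem kn_cont (hV : ContinuousOn V (Icc 0 b)) (n : ℕ) : ContinuousOn (Kn D V n) (Icc 0 b) := by
  unfold Kn
  refine continuousOn_const.mul ?_
  refine Complex.continuous_re.comp_continuousOn ?_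
  exact ContinuousOn.inner (𝕜 := ℂ) ((D.A n).continuous.comp_continuousOn hV) hV

theorem ii {f : ℝ → ℝ} (hf : ContinuousOn f (Icc 0 b)) {a c : ℝ} (ha : 0 ≤ a) (hac : a ≤ c)
    (hc : c ≤ b) : IntervalIntegrable f volume a c := by
  refine ContinuousOn.intervalIntegrable ?_
  rw [uIcc_of_le hac]
  exact hf.mono (Icc_subset_Icc ha hc)

theorem gP_cont (hV : ContinuousOn V (Icc 0 b)) (hg : ContinuousOn g (Icc 0 b)) (n : ℕ) :
    ContinuousOn (fun s => ⟪g s, D.P n (V s)⟫_ℂ) (Icc 0 b) :=
  ContinuousOn.inner (𝕜 := ℂ) hg ((D.P n).continuous.comp_continuousOn hV)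

/-- convergence of the terms with `g` -/
theorem gP_lim (hM : MildH D b V g) (hP : PotH b lam be V g p) (α β : ℝ) {a c : ℝ} (ha : 0 ≤ a)
    (hac : a ≤ c) (hc : c ≤ b) :
    Tendsto (fun n => ∫ s in a..c, (α * (⟪g s, D.P n (V s)⟫_ℂ).re + β * (⟪g s, D.P n (V s)⟫_ℂ).im))
      atTop (𝓝 (∫ s in a..c, α * (be * Real.exp (lam * s) * p s))) := by
  refine intervalIntegral.tendsto_integral_filter_of_dominated_convergence
    (fun s => (|α| + |β|) * (‖g s‖ * ‖V s‖)) ?_ ?_ ?_ ?_
  · refine Eventually.of_forall fun n => ?_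
    have h1 : ContinuousOn (fun s => α * (⟪g s, D.P n (V s)⟫_ℂ).re + β * (⟪g s, D.P n (V s)⟫_ℂ).im)
        (Icc 0 b) :=
      (continuousOn_const.mul (Complex.continuous_re.comp_continuousOn (gP_cont hM.contV hM.contg n))).add
        (continuousOn_const.mul (Complex.continuous_im.comp_continuousOn (gP_cont hM.contV hM.contg n)))
    exact (ii h1 ha hac hc).aestronglyMeasurable_restrict_uIoc
  · refine Eventually.of_forall fun n => Eventually.of_forall fun s _ => ?_
    have h1 : ‖⟪g s, D.P n (V s)⟫_ℂ‖ ≤ ‖g s‖ * ‖V s‖ :=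
      (norm_inner_le_norm _ _).trans (mul_le_mul_of_nonneg_left (D.P_bd n _) (norm_nonneg _))
    have h2 := (Complex.abs_re_le_norm ⟪g s, D.P n (V s)⟫_ℂ).trans h1
    have h3 := (Complex.abs_im_le_norm ⟪g s, D.P n (V s)⟫_ℂ).trans h1
    rw [Real.norm_eq_abs]
    calc |α * (⟪g s, D.P n (V s)⟫_ℂ).re + β * (⟪g s, D.P n (V s)⟫_ℂ).im|
        ≤ |α * (⟪g s, D.P n (V s)⟫_ℂ).re| + |β * (⟪g s, D.P n (V s)⟫_ℂ).im| := abs_add_le _ _
      _ = |α| * |(⟪g s, D.P n (V s)⟫_ℂ).re| + |β| * |(⟪g s, D.P n (V s)⟫_ℂ).im| := by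
          rw [abs_mul, abs_mul]
      _ ≤ |α| * (‖g s‖ * ‖V s‖) + |β| * (‖g s‖ * ‖V s‖) :=
          add_le_add (mul_le_mul_of_nonneg_left h2 (abs_nonneg _))
            (mul_le_mul_of_nonneg_left h3 (abs_nonneg _))
      _ = (|α| + |β|) * (‖g s‖ * ‖V s‖) := by ring
  · exact ii (continuousOn_const.mul (hM.contg.norm.mul hM.contV.norm)) ha hac hc
  · refine Eventually.of_forall fun s hs => ?_
    rw [uIoc_of_le hac] at hs
    have hs' : s ∈ Icc 0 b := ⟨ha.trans hs.1.le, hs.2.trans hc⟩
    have h1 : Tendsto (fun n => ⟪g s, D.P n (V s)⟫_ℂ) atTop (𝓝 ⟪g s, V s⟫_ℂ) :=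
      tendsto_const_nhds.inner (D.P_lim (V s))
    rw [hP.homog s hs'] at h1
    have h2 := (Complex.continuous_re.tendsto _).comp h1
    have h3 := (Complex.continuous_im.tendsto _).comp h1
    rw [Complex.ofReal_re] at h2
    rw [Complex.ofReal_im] at h3
    have h4 := (h2.const_mul α).add (h3.const_mul β)
    rw [mul_zero, add_zero] at h4
    exact h4

end

end H4

open H4 in
/-- JOB H4 -/
theorem t_H4 (h1 : S_H1) (h2 : S_H2) (h3 : S_H3) : S_H4 := by
  intro H _ _ _ θ D b lam be K0 V g p hθ0 hθ1 hb hlam hbe hM hP hK0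
  have hcos : 0 < Real.cos θ := Real.cos_pos_of_mem_Ioo ⟨by linarith [Real.pi_pos], hθ1⟩
  have h21 := fun n => (h2 H θ D b V g hb.le hM n).1
  have h22 := fun n => (h2 H θ D b V g hb.le hM n).2.1
  have h23 := fun n => (h2 H θ D b V g hb.le hM n).2.2
  have hdv := fun n => (h1 H θ D b V g hb.le hM n).1
  have h3' := (h3 H θ D b lam be K0 V g p hθ0 hθ1 hb hlam hM hP hK0).2
  have hep : ContinuousOn (fun s => lam * Real.exp (lam * s) * p s) (Icc 0 b) :=
    (Continuous.continuousOn (by fun_prop)).mul hP.cont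
  have hep2 : ContinuousOn (fun s => be * Real.exp (lam * s) * p s) (Icc 0 b) :=
    (Continuous.continuousOn (by fun_prop)).mul hP.cont
  have hep1 : ContinuousOn (fun s => Real.exp (lam * s) * p s) (Icc 0 b) :=
    (Continuous.continuousOn (by fun_prop)).mul hP.cont
  -- the work
  set W : ℝ → ℝ → ℝ := fun a c => Real.exp (lam * c) * p c - Real.exp (lam * a) * p a -
    ∫ s in a..c, lam * Real.exp (lam * s) * p s with hW
  have hwork : ∀ a c, 0 ≤ a → a ≤ c → c ≤ b → ∀ ε : ℝ, 0 < ε → ∀ᶠ n in atTop,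
      Kn D V n c - Kn D V n a + Real.cos θ * ∫ s in a..c, ‖dv D V g n s‖ ^ 2 ≤ W a c + ε := by
    intro a c ha hac hc ε hε
    filter_upwards [h3' a c ha hac hc ε hε] with n hn
    rw [h21 n a c ha hac hc]
    exact hn
  have hdis : ∀ n a c, a ≤ c → 0 ≤ Real.cos θ * ∫ s in a..c, ‖dv D V g n s‖ ^ 2 := fun n a c hac =>
    mul_nonneg hcos.le (intervalIntegral.integral_nonneg hac fun s _ => by positivity)
  -- the kinetic energy
  have hbdd : ∀ t ∈ Icc 0 b, BddAbove (range fun n => Kn D V n t) := by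
    intro t ht
    refine ⟨K0 + (W 0 t + 1), ?_⟩
    rintro _ ⟨n, rfl⟩
    obtain ⟨m, hm, hnm⟩ := ((hwork 0 t le_rfl ht.1 ht.2 1 one_pos).and (eventually_ge_atTop n)).exists
    have h4 : Kn D V n t ≤ Kn D V m t := kn_mono t hnm
    have h5 := hdis m 0 t ht.1
    have h6 := hK0 m
    simp only
    linarith
  set K : ℝ → ℝ := fun t => ⨆ n, Kn D V n t with hKdef
  have hK : ∀ t ∈ Icc 0 b, Tendsto (fun n => Kn D V n t) atTop (𝓝 (K t)) := fun t ht =>
    tendsto_atTop_ciSup (kn_mono t) (hbdd t ht)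
  have hleK : ∀ t ∈ Icc 0 b, ∀ n, Kn D V n t ≤ K t := fun t ht n => (kn_mono t).ge_of_tendsto (hK t ht) n
  have hKnn : ∀ t ∈ Icc 0 b, 0 ≤ K t := fun t ht => (kn_nonneg 0 t).trans (hleK t ht 0)
  have e2 : ∀ t ∈ Icc 0 b, -(Real.exp (lam * t) * p t) ≤ K t - Real.exp (lam * t) * p t := fun t ht => by
    have := hKnn t ht
    linarith
  have e3 : ∀ a c, 0 ≤ a → a ≤ c → c ≤ b → (K c - Real.exp (lam * c) * p c) +
      (∫ s in a..c, lam * Real.exp (lam * s) * p s) ≤ K a - Real.exp (lam * a) * p a := by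
    intro a c ha hac hc
    have h4 : K c - K a ≤ W a c := by
      refine le_of_forall_pos_le_add fun ε hε => ?_
      have h5 := (hK c ⟨ha.trans hac, hc⟩).sub (hK a ⟨ha, hac.trans hc⟩)
      refine le_of_tendsto h5 ?_
      filter_upwards [hwork a c ha hac hc ε hε] with n hn
      have h6 := hdis n a c hac
      linarith
    rw [hW] at h4
    simp only at h4
    linarith
  have hint0 : ∀ a c, 0 ≤ a → a ≤ c → c ≤ b → 0 ≤ ∫ s in a..c, lam * Real.exp (lam * s) * p s :=
    fun a c ha hac hc => intervalIntegral.integral_nonneg hac fun s hs =>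
      mul_nonneg (mul_nonneg hlam (Real.exp_pos _).le) (hP.nonneg s ⟨ha.trans hs.1, hs.2.trans hc⟩)
  have hanti : ∀ a c, 0 ≤ a → a ≤ c → c ≤ b → K c - Real.exp (lam * c) * p c ≤
      K a - Real.exp (lam * a) * p a := fun a c ha hac hc => by
    have := e3 a c ha hac hc
    have := hint0 a c ha hac hc
    linarith
  have hPV : ∀ t, Tendsto (fun n => ‖D.P n (V t)‖ ^ 2) atTop (𝓝 (‖V t‖ ^ 2)) := fun t =>
    ((D.P_lim (V t)).norm).pow 2
  have e4 : ∀ a c, 0 ≤ a → a ≤ c → c ≤ b →
      2 * be * Real.cos θ * (-(K a - Real.exp (lam * a) * p a)) * (c - a) ≤ ‖V c‖ ^ 2 - ‖V a‖ ^ 2 := by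
    intro a c ha hac hc
    set e := K a - Real.exp (lam * a) * p a with he
    have hl1 := (hPV c).sub (hPV a)
    have hl2 := gP_lim hM hP (2 * Real.cos θ) (2 * Real.sin θ) ha hac hc
    have hbase : ContinuousOn (fun s => 2 * Real.cos θ * (-2 * e - 2 * (Real.exp (lam * s) * p s)))
        (Icc 0 b) := continuousOn_const.mul (continuousOn_const.sub (continuousOn_const.mul hep1))
    have hl3 : Tendsto (fun n => (∫ s in a..c, 2 * Real.cos θ * (-2 * e - 2 * (Real.exp (lam * s) * p s))) +
        ∫ s in a..c, (2 * Real.cos θ * (⟪g s, D.P n (V s)⟫_ℂ).re +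
          2 * Real.sin θ * (⟪g s, D.P n (V s)⟫_ℂ).im)) atTop
        (𝓝 ((∫ s in a..c, 2 * Real.cos θ * (-2 * e - 2 * (Real.exp (lam * s) * p s))) +
          ∫ s in a..c, 2 * Real.cos θ * (be * Real.exp (lam * s) * p s))) :=
      tendsto_const_nhds.add hl2
    have hle : (∫ s in a..c, 2 * Real.cos θ * (-2 * e - 2 * (Real.exp (lam * s) * p s))) +
          ∫ s in a..c, 2 * Real.cos θ * (be * Real.exp (lam * s) * p s) ≤ ‖V c‖ ^ 2 - ‖V a‖ ^ 2 := by
      refine le_of_tendsto_of_tendsto' hl3 hl1 fun n => ?_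
      have hcn : ContinuousOn (fun s => (2 * Real.cos θ * (⟪g s, D.P n (V s)⟫_ℂ).re +
          2 * Real.sin θ * (⟪g s, D.P n (V s)⟫_ℂ).im)) (Icc 0 b) :=
        (continuousOn_const.mul (Complex.continuous_re.comp_continuousOn (gP_cont hM.contV hM.contg n))).add
        (continuousOn_const.mul (Complex.continuous_im.comp_continuousOn (gP_cont hM.contV hM.contg n)))
      rw [h22 n a c ha hac hc, ← intervalIntegral.integral_add (ii hbase ha hac hc) (ii hcn ha hac hc)]
      refine intervalIntegral.integral_mono_on hac (ii (hbase.add hcn) ha hac hc) ?_ fun s hs => ?_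
      · refine ii ?_ ha hac hc
        refine continuousOn_const.mul (ContinuousOn.add (continuousOn_const.mul (ContinuousOn.add
          (continuousOn_const.mul (kn_cont hM.contV n))
          (Complex.continuous_re.comp_continuousOn (gP_cont hM.contV hM.contg n))))
          (continuousOn_const.mul (Complex.continuous_im.comp_continuousOn (gP_cont hM.contV hM.contg n))))
      · have hs' : s ∈ Icc 0 b := ⟨ha.trans hs.1, hs.2.trans hc⟩
        have h4 := hleK s hs' n
        have h5 := hanti a s ha hs.1 hs'.2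
        have h6 : -2 * e - 2 * (Real.exp (lam * s) * p s) ≤ -2 * Kn D V n s := by linarith
        have h7 := mul_le_mul_of_nonneg_left h6 hcos.le
        linarith
    have hlow : 2 * be * Real.cos θ * (-e) * (c - a) ≤
        (∫ s in a..c, 2 * Real.cos θ * (-2 * e - 2 * (Real.exp (lam * s) * p s))) +
          ∫ s in a..c, 2 * Real.cos θ * (be * Real.exp (lam * s) * p s) := by
      have hbe2 : ContinuousOn (fun s => 2 * Real.cos θ * (be * Real.exp (lam * s) * p s)) (Icc 0 b) :=
        continuousOn_const.mul hep2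
      rw [← intervalIntegral.integral_add (ii hbase ha hac hc) (ii hbe2 ha hac hc)]
      have h4 : 2 * be * Real.cos θ * (-e) * (c - a) = ∫ _s in a..c, 2 * be * Real.cos θ * (-e) := by
        rw [intervalIntegral.integral_const, smul_eq_mul]
        ring
      rw [h4]
      refine intervalIntegral.integral_mono_on hac intervalIntegrable_const
        (ii (hbase.add hbe2) ha hac hc) fun s hs => ?_
      have hs' : s ∈ Icc 0 b := ⟨ha.trans hs.1, hs.2.trans hc⟩
      have h5 := hanti a s ha hs.1 hs'.2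
      have h6 := e2 s hs'
      have h7 : -e ≤ Real.exp (lam * s) * p s := by linarith
      have h8 := mul_le_mul_of_nonneg_left h7 (by linarith : (0 : ℝ) ≤ be - 2)
      have h9 := mul_le_mul_of_nonneg_left h8 hcos.le
      nlinarith
    exact hlow.trans hle
  refine ⟨fun t => K t - Real.exp (lam * t) * p t, ?_, e2, e3, e4, ?_⟩
  · have h4 : K 0 ≤ K0 := ciSup_le fun n => hK0 n
    simp only [mul_zero, Real.exp_zero, one_mul]
    linarith
  · intro a c ha hac hc hea
    simp only at hea
    have hx : 0 ≤ ‖V c‖ ^ 2 - ‖V a‖ ^ 2 := by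
      refine le_trans ?_ (e4 a c ha hac hc)
      have : 0 ≤ be := by linarith
      have h4 : 0 ≤ -(K a - Real.exp (lam * a) * p a) := by linarith
      have h5 : 0 ≤ c - a := by linarith
      positivity
    have hX : 0 ≤ (K a - Real.exp (lam * a) * p a) - (K c - Real.exp (lam * c) * p c) := by
      have := hanti a c ha hac hc
      linarith
    have hY : 0 ≤ Real.cos θ * ‖V c‖ ^ 2 * (c - a) :=
      mul_nonneg (mul_nonneg hcos.le (by positivity)) (by linarith)
    have hVs : ∀ s ∈ Icc a c, ‖V s‖ ^ 2 ≤ ‖V c‖ ^ 2 := by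
      intro s hs
      have h4 := e4 s c (ha.trans hs.1) hs.2 hc
      have h5 := hanti a s ha hs.1 (hs.2.trans hc)
      have h6 : 0 ≤ 2 * be * Real.cos θ * (-(K s - Real.exp (lam * s) * p s)) * (c - s) := by
        have : 0 ≤ be := by linarith
        have h7 : 0 ≤ -(K s - Real.exp (lam * s) * p s) := by linarith
        have h8 : 0 ≤ c - s := by linarith [hs.2]
        positivity
      linarith
    have main : ∀ r : ℝ, 0 < r → ‖V c‖ ^ 2 - ‖V a‖ ^ 2 ≤
        r * ((K a - Real.exp (lam * a) * p a) - (K c - Real.exp (lam * c) * p c)) +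
          (Real.cos θ * ‖V c‖ ^ 2 * (c - a)) / r := by
      intro r hr
      refine le_of_forall_pos_le_add fun ε hε => ?_
      have hεr : 0 < ε / r := div_pos hε hr
      have hl1 := (hPV c).sub (hPV a)
      have hl2 := gP_lim hM hP 0 (2 * Real.sin θ) ha hac hc
      simp only [zero_mul, zero_add, intervalIntegral.integral_zero] at hl2
      have hl4 : Tendsto (fun n => r * (Kn D V n a - Kn D V n c + (W a c + ε / r)) +
          (Real.cos θ * ‖V c‖ ^ 2 * (c - a)) / r +
          ∫ s in a..c, 2 * Real.sin θ * (⟪g s, D.P n (V s)⟫_ℂ).im) atTop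
          (𝓝 (r * (K a - K c + (W a c + ε / r)) + (Real.cos θ * ‖V c‖ ^ 2 * (c - a)) / r + 0)) := by
        refine Tendsto.add (Tendsto.add ?_ tendsto_const_nhds) hl2
        exact (((hK a ⟨ha, hac.trans hc⟩).sub (hK c ⟨ha.trans hac, hc⟩)).add tendsto_const_nhds).const_mul r
      have hfin : ‖V c‖ ^ 2 - ‖V a‖ ^ 2 ≤
          r * (K a - K c + (W a c + ε / r)) + (Real.cos θ * ‖V c‖ ^ 2 * (c - a)) / r + 0 := by
        refine le_of_tendsto_of_tendsto hl1 hl4 ?_
        filter_upwards [hwork a c ha hac hc (ε / r) hεr] with n hn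
        have hnc : ContinuousOn (fun s => Real.cos θ * (r * ‖dv D V g n s‖ ^ 2 + ‖V c‖ ^ 2 / r))
            (Icc 0 b) :=
          continuousOn_const.mul ((continuousOn_const.mul ((hdv n).norm.pow 2)).add continuousOn_const)
        have him : ContinuousOn (fun s => 2 * Real.sin θ * (⟪g s, D.P n (V s)⟫_ℂ).im) (Icc 0 b) :=
          continuousOn_const.mul (Complex.continuous_im.comp_continuousOn (gP_cont hM.contV hM.contg n))
        have hup : ∫ s in a..c, 2 * (Real.cos θ * (-2 * Kn D V n s + (⟪g s, D.P n (V s)⟫_ℂ).re) +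
            Real.sin θ * (⟪g s, D.P n (V s)⟫_ℂ).im) ≤
            ∫ s in a..c, (Real.cos θ * (r * ‖dv D V g n s‖ ^ 2 + ‖V c‖ ^ 2 / r) +
              2 * Real.sin θ * (⟪g s, D.P n (V s)⟫_ℂ).im) := by
          refine intervalIntegral.integral_mono_on hac ?_ (ii (hnc.add him) ha hac hc) fun s hs => ?_
          · refine ii ?_ ha hac hc
            refine continuousOn_const.mul (ContinuousOn.add (continuousOn_const.mul (ContinuousOn.add
              (continuousOn_const.mul (kn_cont hM.contV n))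
              (Complex.continuous_re.comp_continuousOn (gP_cont hM.contV hM.contg n))))
              (continuousOn_const.mul (Complex.continuous_im.comp_continuousOn (gP_cont hM.contV hM.contg n))))
          · have h4 := h23 n s
            have h5 : 2 * (‖dv D V g n s‖ * ‖D.P n (V s)‖) ≤
                r * ‖dv D V g n s‖ ^ 2 + ‖D.P n (V s)‖ ^ 2 / r := by
              have h6 : 0 ≤ (r * ‖dv D V g n s‖ - ‖D.P n (V s)‖) ^ 2 / r := by positivity
              have h7 : (r * ‖dv D V g n s‖ - ‖D.P n (V s)‖) ^ 2 / r =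
                  r * ‖dv D V g n s‖ ^ 2 + ‖D.P n (V s)‖ ^ 2 / r -
                    2 * (‖dv D V g n s‖ * ‖D.P n (V s)‖) := by
                field_simp
                ring
              linarith
            have h8 : ‖D.P n (V s)‖ ^ 2 / r ≤ ‖V c‖ ^ 2 / r := by
              refine div_le_div_of_nonneg_right ?_ hr.le
              refine le_trans ?_ (hVs s hs)
              exact pow_le_pow_left₀ (norm_nonneg _) (D.P_bd n _) 2
            have h9 : 2 * (-2 * Kn D V n s + (⟪g s, D.P n (V s)⟫_ℂ).re) ≤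
                r * ‖dv D V g n s‖ ^ 2 + ‖V c‖ ^ 2 / r := by linarith
            have h10 := mul_le_mul_of_nonneg_left h9 hcos.le
            linarith
        have hsplit : ∫ s in a..c, (Real.cos θ * (r * ‖dv D V g n s‖ ^ 2 + ‖V c‖ ^ 2 / r) +
              2 * Real.sin θ * (⟪g s, D.P n (V s)⟫_ℂ).im) =
            r * (Real.cos θ * ∫ s in a..c, ‖dv D V g n s‖ ^ 2) +
              (Real.cos θ * ‖V c‖ ^ 2 * (c - a)) / r +
              ∫ s in a..c, 2 * Real.sin θ * (⟪g s, D.P n (V s)⟫_ℂ).im := by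
          have hnr : ContinuousOn (fun s => r * ‖dv D V g n s‖ ^ 2) (Icc 0 b) :=
            continuousOn_const.mul ((hdv n).norm.pow 2)
          rw [intervalIntegral.integral_add (ii hnc ha hac hc) (ii him ha hac hc),
            intervalIntegral.integral_const_mul, intervalIntegral.integral_add
              (ii hnr ha hac hc) intervalIntegrable_const,
            intervalIntegral.integral_const_mul, intervalIntegral.integral_const, smul_eq_mul]
          ring
        rw [h22 n a c ha hac hc]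
        refine hup.trans ?_
        rw [hsplit]
        have h4 : Real.cos θ * (∫ s in a..c, ‖dv D V g n s‖ ^ 2) ≤
            Kn D V n a - Kn D V n c + (W a c + ε / r) := by linarith
        have h5 := mul_le_mul_of_nonneg_left h4 hr.le
        linarith
      refine hfin.trans ?_
      have h4 : r * (ε / r) = ε := by field_simp
      have h5 : W a c = Real.exp (lam * c) * p c - Real.exp (lam * a) * p a -
        ∫ s in a..c, lam * Real.exp (lam * s) * p s := rfl
      have h6 := mul_nonneg hr.le (hint0 a c ha hac hc)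
      have h7 : r * (K a - K c + (W a c + ε / r)) = r * (K a - K c + W a c) + ε := by
        rw [← add_assoc, mul_add, h4]
      rw [h7, h5]
      linarith
    have h4 := sq_le hx hX hY main
    linarith

end Pool.Agent.Q73.GL
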