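import Pool.Agent.Q73.GL.Stm

set_option autoImplicit false

namespace Pool.Agent.Q73.GL

open MeasureTheory Set Filter Topology FourierTransform
open scoped ZeroAtInfty InnerProductSpace Real BoundedContinuousFunction SchwartzMap

namespace HH

variable {N : ℕ}

theorem meas_aA (n : ℕ) : Measurable (aA n : E N → ℂ) := by
  unfold aA
  refine Measurable.ite (measurableSet_le measurable_norm measurable_const) ?_ measurable_const
  fun_prop

theorem norm_aA (n : ℕ) (ξ : E N) : ‖aA n ξ‖ ≤ 4 * π ^ 2 * ‖ξ‖ ^ 2 := by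
  unfold aA
  split_ifs with h
  · rw [norm_neg, Complex.norm_real, Real.norm_of_nonneg (by positivity)]
  · rw [norm_zero]
    positivity

theorem bd_aA (n : ℕ) (ξ : E N) : ‖aA n ξ‖ ≤ 4 * π ^ 2 * (n : ℝ) ^ 2 := by
  unfold aA
  split_ifs with h
  · rw [norm_neg, Complex.norm_real, Real.norm_of_nonneg (by positivity)]
    gcongr
  · rw [norm_zero]
    positivity

theorem sq_int (f : L2 N) : Integrable (fun x => ‖f x‖ ^ 2) :=
  (Lp.memLp f).integrable_norm_pow (by norm_num)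

/-- the Fourier transform of a function in `H^1` is an `L^2` function divided by the weight -/
theorem weight (b : L2 N) (hb : InH1 b) : ∃ f' : L2 N,
    ∀ᵐ ξ : E N, ‖ξ‖ * ‖(𝓕 b : L2 N) ξ‖ ≤ ‖f' ξ‖ := by
  unfold InH1 at hb
  rw [TemperedDistribution.memSobolev_iff_exists_smulLeftCLM_fourier] at hb
  obtain ⟨f', hf'⟩ := hb
  refine ⟨f', ?_⟩
  set g : E N → ℂ := fun x => (((1 + ‖x‖ ^ 2) ^ (-(1 : ℝ) / 2) : ℝ) : ℂ) with hg
  have hg1 : g.HasTemperateGrowth := by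
    rw [hg]
    fun_prop
  have hgb : ∀ x, ‖g x‖ ≤ 1 := by
    intro x
    rw [hg]
    simp only
    rw [Complex.norm_real, Real.norm_of_nonneg (by positivity)]
    exact Real.rpow_le_one_of_one_le_of_nonpos (by nlinarith [sq_nonneg ‖x‖]) (by norm_num)
  set g' : E N →ᵇ ℂ := BoundedContinuousFunction.ofNormedAddCommGroup g hg1.1.continuous 1 hgb
    with hg'
  have hg2 : MemLp g ⊤ (volume : Measure (E N)) := g'.memLp_top
  have h1 := MeasureTheory.Lp.toTemperedDistribution_smul_eq (p := ⊤) (q := 2) (r := 2) hg1 hg2 f'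
  have hw : (fun x : E N => (((1 + ‖x‖ ^ 2) ^ ((1 : ℝ) / 2) : ℝ) : ℂ)).HasTemperateGrowth := by
    fun_prop
  rw [← hf', TemperedDistribution.smulLeftCLM_smulLeftCLM_apply hw hg1] at h1
  have h2 : ((fun x : E N => (((1 + ‖x‖ ^ 2) ^ ((1 : ℝ) / 2) : ℝ) : ℂ)) * g) = fun _ => 1 := by
    funext x
    rw [Pi.mul_apply, hg]
    simp only
    rw [← Complex.ofReal_mul, ← Real.rpow_add (by positivity)]
    norm_num
  rw [h2, TemperedDistribution.smulLeftCLM_const, one_smul,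
    MeasureTheory.Lp.fourier_toTemperedDistribution_eq] at h1
  have hinj : Function.Injective (MeasureTheory.Lp.toTemperedDistributionCLM ℂ
      (volume : Measure (E N)) 2) := by
    have := MeasureTheory.Lp.ker_toTemperedDistributionCLM_eq_bot (F := ℂ)
      (μ := (volume : Measure (E N))) (p := 2)
    exact LinearMap.ker_eq_bot.1 this
  have h3 : (hg2.toLp g • f' : L2 N) = (𝓕 b : L2 N) := hinj h1
  have h4 := Lp.coeFn_lpSMul (r := 2) (hg2.toLp g) f'
  rw [h3] at h4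
  filter_upwards [h4, hg2.coeFn_toLp] with ξ h5 h6
  rw [h5, Pi.smul_apply', h6, norm_smul, ← mul_assoc]
  have h7 : ‖ξ‖ * ‖g ξ‖ ≤ 1 := by
    rw [hg]
    simp only
    rw [Complex.norm_real, Real.norm_of_nonneg (by positivity)]
    have h8 : (-(1 : ℝ) / 2) = -(1 / 2) := by ring
    rw [h8, Real.rpow_neg (by positivity), ← Real.sqrt_eq_rpow]
    rw [← div_eq_mul_inv, div_le_one (Real.sqrt_pos.2 (by positivity))]
    apply Real.le_sqrt_of_sq_le
    linarith
  exact mul_le_of_le_one_left (norm_nonneg _) h7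

end HH

theorem t_HH (hf : S_FM) : S_HH := by
  intro N b hb
  obtain ⟨-, -, -, -, -, -, h7, -⟩ := hf N
  obtain ⟨f', hf'⟩ := HH.weight b hb
  refine ⟨1 / 2 * ∫ ξ, 4 * π ^ 2 * ‖f' ξ‖ ^ 2, fun n => ?_⟩
  rw [h7 (aA n) _ (HH.meas_aA n) (HH.bd_aA n) b b]
  have h1 : |(∫ ξ, (starRingEnd ℂ) (aA n ξ) *
      ((starRingEnd ℂ) ((𝓕 b : L2 N) ξ) * (𝓕 b : L2 N) ξ)).re| ≤ ∫ ξ, 4 * π ^ 2 * ‖f' ξ‖ ^ 2 := by
    refine (Complex.abs_re_le_norm _).trans ((norm_integral_le_integral_norm _).trans ?_)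
    apply integral_mono_of_nonneg
    · filter_upwards with ξ
      exact norm_nonneg _
    · exact (HH.sq_int f').const_mul _
    · filter_upwards [hf'] with ξ hξ
      rw [norm_mul, norm_mul, RCLike.norm_conj, RCLike.norm_conj]
      have h2 := HH.norm_aA n ξ
      have h3 : 0 ≤ ‖(𝓕 b : L2 N) ξ‖ := norm_nonneg _
      calc ‖aA n ξ‖ * (‖(𝓕 b : L2 N) ξ‖ * ‖(𝓕 b : L2 N) ξ‖)
          ≤ (4 * π ^ 2 * ‖ξ‖ ^ 2) * (‖(𝓕 b : L2 N) ξ‖ * ‖(𝓕 b : L2 N) ξ‖) :=
            mul_le_mul_of_nonneg_right h2 (by positivity)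
        _ = 4 * π ^ 2 * (‖ξ‖ * ‖(𝓕 b : L2 N) ξ‖) ^ 2 := by ring
        _ ≤ 4 * π ^ 2 * ‖f' ξ‖ ^ 2 := by
            apply mul_le_mul_of_nonneg_left _ (by positivity)
            exact pow_le_pow_left₀ (by positivity) hξ 2
  have h2 := abs_le.1 h1
  linarith [h2.1]

end Pool.Agent.Q73.GL
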