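import Pool.Agent.Q73.GL.Stm

set_option autoImplicit false

/-! # The kernel of `exp (t e^{iθ} Δ)` (job KER) -/

namespace Pool.Agent.Q73.GL

open MeasureTheory Set Filter Topology FourierTransform
open scoped ZeroAtInfty InnerProductSpace Real BoundedContinuousFunction SchwartzMap

namespace KER

/-- `π / b` for the Gaussian `exp (-b |x|^2)` -/
noncomputable def Z (θ t : ℝ) : ℂ := 4 * (π : ℂ) * (t : ℂ) * ei θ

/-- the exponent -/
noncomputable def B (θ t : ℝ) : ℂ := (4 * (t : ℂ) * ei θ)⁻¹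

theorem ei_ne (θ : ℝ) : ei θ ≠ 0 := Complex.exp_ne_zero _

theorem ei_norm (θ : ℝ) : ‖ei θ‖ = 1 := Complex.norm_exp_ofReal_mul_I θ

theorem ei_re (θ : ℝ) : (ei θ).re = Real.cos θ := by
  unfold ei
  rw [Complex.exp_ofReal_mul_I_re]

theorem ei_inv_re (θ : ℝ) : ((ei θ)⁻¹).re = Real.cos θ := by
  rw [Complex.inv_re, ei_re, Complex.normSq_eq_norm_sq, ei_norm]
  simp

theorem cos_pos' {θ : ℝ} (h0 : 0 ≤ θ) (h1 : θ < π / 2) : 0 < Real.cos θ :=
  Real.cos_pos_of_mem_Ioo ⟨by linarith [Real.pi_pos], h1⟩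

theorem B_re {θ t : ℝ} : (B θ t).re = Real.cos θ / (4 * t) := by
  unfold B
  have e : (4 * (t : ℂ) * ei θ)⁻¹ = (((4 * t)⁻¹ : ℝ) : ℂ) * (ei θ)⁻¹ := by
    rw [mul_inv]
    push_cast
    ring
  rw [e, Complex.re_ofReal_mul, ei_inv_re]
  ring

theorem B_re_pos {θ t : ℝ} (h0 : 0 ≤ θ) (h1 : θ < π / 2) (ht : 0 < t) : 0 < (B θ t).re := by
  rw [B_re]
  have := cos_pos' h0 h1
  positivity

theorem Z_ne {θ t : ℝ} (ht : 0 < t) : Z θ t ≠ 0 := by
  unfold Z
  have h1 : (π : ℂ) ≠ 0 := by exact_mod_cast Real.pi_ne_zero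
  have h2 : (t : ℂ) ≠ 0 := by exact_mod_cast ht.ne'
  exact mul_ne_zero (mul_ne_zero (mul_ne_zero (by norm_num) h1) h2) (ei_ne θ)

theorem Z_norm {θ t : ℝ} (ht : 0 < t) : ‖Z θ t‖ = 4 * π * t := by
  unfold Z
  rw [norm_mul, norm_mul, norm_mul, ei_norm, Complex.norm_real, Complex.norm_real,
    Real.norm_eq_abs, Real.norm_eq_abs, abs_of_pos Real.pi_pos, abs_of_pos ht]
  norm_num

theorem pi_div_B (θ t : ℝ) : (π : ℂ) / B θ t = Z θ t := by
  unfold B Z
  rw [div_inv_eq_mul]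
  ring

theorem G_eq (N : ℕ) (θ t : ℝ) (x : E N) :
    G N θ t x = (Z θ t) ^ (-(N : ℂ) / 2) * Complex.exp (-(B θ t) * (‖x‖ : ℂ) ^ 2) := by
  unfold G Z B
  congr 2
  rw [div_eq_mul_inv]
  ring

theorem cst_mul (N : ℕ) {θ t : ℝ} (ht : 0 < t) :
    (Z θ t) ^ (-(N : ℂ) / 2) * (Z θ t) ^ ((N : ℂ) / 2) = 1 := by
  rw [neg_div, Complex.cpow_neg, inv_mul_cancel₀]
  rw [Ne, Complex.cpow_eq_zero_iff]
  exact fun h => Z_ne ht h.1

theorem cst_norm (N : ℕ) {θ t : ℝ} (ht : 0 < t) :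
    ‖(Z θ t) ^ (-(N : ℂ) / 2)‖ = (4 * π * t) ^ (-(N : ℝ) / 2) := by
  have e : (-(N : ℂ) / 2) = ((-(N : ℝ) / 2 : ℝ) : ℂ) := by push_cast; ring
  rw [e, Complex.norm_cpow_real, Z_norm ht]

theorem fr (N : ℕ) : Module.finrank ℝ (E N) = N := finrank_euclideanSpace_fin

theorem cont (N : ℕ) (θ t : ℝ) : Continuous (G N θ t) := by
  have e : G N θ t = fun x => (Z θ t) ^ (-(N : ℂ) / 2) * Complex.exp (-(B θ t) * (‖x‖ : ℂ) ^ 2) := by
    funext x
    exact G_eq N θ t x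
  rw [e]
  have h1 : Continuous fun x : E N => (‖x‖ : ℂ) := Complex.continuous_ofReal.comp continuous_norm
  exact continuous_const.mul (Complex.continuous_exp.comp (continuous_const.mul (h1.pow 2)))

theorem intg (N : ℕ) {θ t : ℝ} (h0 : 0 ≤ θ) (h1 : θ < π / 2) (ht : 0 < t) :
    Integrable (G N θ t) := by
  have e : G N θ t = fun x => (Z θ t) ^ (-(N : ℂ) / 2) * Complex.exp (-(B θ t) * (‖x‖ : ℂ) ^ 2) := by
    funext x
    exact G_eq N θ t x
  rw [e]
  have h2 := GaussianFourier.integrable_cexp_neg_mul_sq_norm_add (V := E N) (B_re_pos h0 h1 ht) 0 0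
  simp only [zero_mul, add_zero] at h2
  exact h2.const_mul _

theorem norm_G (N : ℕ) {θ t : ℝ} (ht : 0 < t) (x : E N) :
    ‖G N θ t x‖ = (4 * π * t) ^ (-(N : ℝ) / 2) * Real.exp (-(Real.cos θ / (4 * t)) * ‖x‖ ^ 2) := by
  rw [G_eq, norm_mul, cst_norm N ht, Complex.norm_exp]
  congr 2
  have e : (-(B θ t) * (‖x‖ : ℂ) ^ 2) = ((‖x‖ ^ 2 : ℝ) : ℂ) * (-(B θ t)) := by
    push_cast; ring
  rw [e, Complex.re_ofReal_mul, Complex.neg_re, B_re]
  ring

end KER

open KER in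
theorem t_KER : S_KER := by
  intro N θ h0 h1 t ht
  have hc := cos_pos' h0 h1
  have hpi := Real.pi_pos
  refine ⟨cont N θ t, intg N h0 h1 ht, ?_, ?_, ?_⟩
  · have e : (fun x : E N => ‖G N θ t x‖) =
        fun x => (4 * π * t) ^ (-(N : ℝ) / 2) * Real.exp (-(Real.cos θ / (4 * t)) * ‖x‖ ^ 2) := by
      funext x
      exact norm_G N ht x
    rw [e, integral_const_mul,
      GaussianFourier.integral_rexp_neg_mul_sq_norm (V := E N) (by positivity : 0 < Real.cos θ / (4 * t)),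
      fr]
    have e2 : π / (Real.cos θ / (4 * t)) = (4 * π * t) * (Real.cos θ)⁻¹ := by
      field_simp
    rw [e2]
    have hq : 0 < 4 * π * t := by positivity
    generalize 4 * π * t = w at hq
    rw [Real.mul_rpow hq.le (by positivity), Real.inv_rpow hc.le, ← Real.rpow_neg hc.le,
      ← mul_assoc, ← Real.rpow_add hq]
    have e3 : -(N : ℝ) / 2 + (N : ℝ) / 2 = 0 := by ring
    have e4 : -((N : ℝ) / 2) = -(N : ℝ) / 2 := by ring
    rw [e3, e4, Real.rpow_zero, one_mul]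
  · have e : (fun x : E N => G N θ t x) =
        fun x => (Z θ t) ^ (-(N : ℂ) / 2) * Complex.exp (-(B θ t) * (‖x‖ : ℂ) ^ 2) := by
      funext x
      exact G_eq N θ t x
    rw [e, integral_const_mul,
      GaussianFourier.integral_cexp_neg_mul_sq_norm (V := E N) (B_re_pos h0 h1 ht), fr, pi_div_B,
      cst_mul N ht]
  · intro ξ
    have e : G N θ t =
        fun x => (Z θ t) ^ (-(N : ℂ) / 2) • Complex.exp (-(B θ t) * (‖x‖ : ℂ) ^ 2) := by
      funext x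
      rw [smul_eq_mul]
      exact G_eq N θ t x
    have h3 := fourier_gaussian_innerProductSpace (V := E N) (B_re_pos h0 h1 ht) ξ
    have h4 : 𝓕 (G N θ t) ξ = (Z θ t) ^ (-(N : ℂ) / 2) *
        𝓕 (fun x : E N => Complex.exp (-(B θ t) * (‖x‖ : ℂ) ^ 2)) ξ := by
      rw [Real.fourier_eq', Real.fourier_eq', ← integral_const_mul]
      refine integral_congr_ae (Eventually.of_forall fun x => ?_)
      simp only [smul_eq_mul]
      rw [G_eq]
      ring
    rw [h4, h3, fr, pi_div_B, ← mul_assoc, cst_mul N ht, one_mul]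
    unfold aS B
    congr 1
    rw [div_inv_eq_mul]
    push_cast
    ring

end Pool.Agent.Q73.GL
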