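import Pool.Agent.Q73.GL.FM

set_option autoImplicit false

/-! JOB LINK: on `C_0 ∩ L^2` the convolution with the kernel is the Fourier multiplier. -/

namespace Pool.Agent.Q73.GL.LINK

open MeasureTheory Set Filter Topology FourierTransform Real
open scoped InnerProductSpace SchwartzMap ContDiff ZeroAtInfty

variable {N : ℕ}

/-- multiplication formula -/
theorem flip {f g : E N → ℂ} (hf : Integrable f) (hg : Integrable g) :
    ∫ ξ, 𝓕 f ξ * g ξ = ∫ x, f x * 𝓕 g x := by
  simpa using! VectorFourier.integral_fourierIntegral_smul_eq_flip (L := innerₗ (E N))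
      Real.continuous_fourierChar continuous_inner hf hg

theorem flipInv {f g : E N → ℂ} (hf : Integrable f) (hg : Integrable g) :
    ∫ ξ, 𝓕⁻ f ξ * g ξ = ∫ x, f x * 𝓕⁻ g x := by
  rw [Real.fourierInv_eq_fourier_comp_neg f, flip hf.comp_neg hg]
  rw [← integral_neg_eq_self]
  refine integral_congr_ae (Eventually.of_forall fun x => ?_)
  simp only [neg_neg]
  rw [Real.fourierInv_eq_fourier_neg]

theorem cont_inv {h : E N → ℂ} (hi : Integrable h) : Continuous (𝓕⁻ h) := by
  have h1 : Continuous (𝓕 h) := VectorFourier.fourierIntegral_continuous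
    Real.continuous_fourierChar (L := innerₗ (E N)) continuous_inner hi
  have h2 : 𝓕⁻ h = fun x => 𝓕 h (-x) := funext fun x => Real.fourierInv_eq_fourier_neg h x
  rw [h2]
  exact h1.comp continuous_neg

theorem lemA (H : L2 N) (h : E N → ℂ) (hi : Integrable h) (hH : (H : E N → ℂ) =ᵐ[volume] h) :
    ((Lp.fourierTransformₗᵢ (E N) ℂ).symm H : E N → ℂ) =ᵐ[volume] 𝓕⁻ h := by
  have hdef : (Lp.fourierTransformₗᵢ (E N) ℂ).symm H = (𝓕⁻ H : L2 N) := rfl
  rw [hdef]
  refine ae_eq_of_integral_contDiff_smul_eq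
    ((Lp.memLp (𝓕⁻ H : L2 N)).locallyIntegrable (by norm_num)) (cont_inv hi).locallyIntegrable ?_
  intro g g_smooth g_cpt
  have hg₁ : HasCompactSupport (Complex.ofRealCLM ∘ g) := g_cpt.comp_left rfl
  have hg₂ : ContDiff ℝ ∞ (Complex.ofRealCLM ∘ g) := by fun_prop
  set χ : 𝓢(E N, ℂ) := hg₁.toSchwartzMap hg₂ with hχ
  have hχx : ∀ x, χ x = ((g x : ℝ) : ℂ) := fun x => rfl
  have e1 : ∫ x, g x • ((𝓕⁻ H : L2 N) : E N → ℂ) x = ∫ x, χ x • ((𝓕⁻ H : L2 N) : E N → ℂ) x := by
    refine integral_congr_ae (Eventually.of_forall fun x => ?_)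
    simp only [hχx, Complex.real_smul, smul_eq_mul]
  rw [e1, ← Lp.toTemperedDistribution_apply, ← Lp.fourierInv_toTemperedDistribution_eq,
    TemperedDistribution.fourierInv_apply, Lp.toTemperedDistribution_apply]
  have e2 : ∫ ξ, (𝓕⁻ χ : 𝓢(E N, ℂ)) ξ • (H : E N → ℂ) ξ = ∫ ξ, 𝓕⁻ (χ : E N → ℂ) ξ * h ξ := by
    refine integral_congr_ae ?_
    filter_upwards [hH] with ξ hξ
    rw [hξ, SchwartzMap.fourierInv_coe, smul_eq_mul]
  rw [e2, flipInv χ.integrable hi]
  refine integral_congr_ae (Eventually.of_forall fun x => ?_)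
  simp only [hχx, Complex.real_smul]

/-- the Fourier transform of a real Schwartz function -/
theorem conj_fourier {χ : E N → ℂ} (hr : ∀ x, (starRingEnd ℂ) (χ x) = χ x) (v : E N) :
    (starRingEnd ℂ) (𝓕 χ v) = 𝓕⁻ χ v := by
  rw [Real.fourier_eq, Real.fourierInv_eq, ← integral_conj]
  refine integral_congr_ae (Eventually.of_forall fun x => ?_)
  simp only [Circle.smul_def, smul_eq_mul, map_mul, hr]
  rw [← Circle.coe_inv_eq_conj, ← AddChar.map_neg_eq_inv, neg_neg]

theorem conjW {K : E N → ℂ} (hK : Integrable K) (χ : 𝓢(E N, ℂ))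
    (hr : ∀ x, (starRingEnd ℂ) (χ x) = χ x) (x : E N) :
    (starRingEnd ℂ) (𝓕⁻ (fun ξ => (starRingEnd ℂ) (𝓕 K ξ) * 𝓕 (χ : E N → ℂ) ξ) x) =
      ∫ y, K y * χ (x + y) := by
  rw [Real.fourierInv_eq, ← integral_conj]
  set f : E N → ℂ := fun v => (𝐞 (-⟪v, x⟫_ℝ) : ℂ) * (𝓕⁻ χ : 𝓢(E N, ℂ)) v with hf
  have hfi : Integrable f := by
    refine Integrable.bdd_mul (c := 1) (𝓕⁻ χ : 𝓢(E N, ℂ)).integrable ?_ ?_
    · refine Continuous.aestronglyMeasurable ?_
      exact continuous_subtype_val.comp (Real.continuous_fourierChar.comp (by fun_prop))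
    · exact Eventually.of_forall fun v => by simp
  have e1 : ∫ v, (starRingEnd ℂ) (𝐞 ⟪v, x⟫_ℝ •
      ((starRingEnd ℂ) (𝓕 K v) * 𝓕 (χ : E N → ℂ) v)) = ∫ v, 𝓕 K v * f v := by
    refine integral_congr_ae (Eventually.of_forall fun v => ?_)
    simp only [Circle.smul_def, smul_eq_mul, map_mul, Complex.conj_conj, hf]
    rw [conj_fourier hr, ← Circle.coe_inv_eq_conj, ← AddChar.map_neg_eq_inv,
      SchwartzMap.fourierInv_coe]
    ring
  rw [e1, flip hK hfi]
  refine integral_congr_ae (Eventually.of_forall fun y => ?_)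
  simp only
  have e2 : 𝓕 f y = χ (x + y) := by
    rw [Real.fourier_eq]
    have e3 : χ (x + y) = 𝓕 ((𝓕⁻ χ : 𝓢(E N, ℂ)) : E N → ℂ) (x + y) := by
      rw [← SchwartzMap.fourier_coe, FourierTransform.fourier_fourierInv_eq]
    rw [e3, Real.fourier_eq]
    refine integral_congr_ae (Eventually.of_forall fun v => ?_)
    simp only [Circle.smul_def, smul_eq_mul, hf]
    rw [← mul_assoc, ← Circle.coe_mul, ← AddChar.map_add_eq_mul, inner_add_right, neg_add_rev]
  rw [e2]

/-- Fubini -/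
theorem fubini {K : E N → ℂ} (hK : Integrable K) {g a : E N → ℂ} (hg : Integrable g)
    (ha : Continuous a) {C : ℝ} (hC : ∀ x, ‖a x‖ ≤ C) :
    ∫ x, (∫ y, K y * g (x + y)) * a x = ∫ z, g z * ∫ x, K (z - x) * a x := by
  have e1 : ∀ x, ∫ y, K y * g (x + y) = ∫ z, K (z - x) * g z := by
    intro x
    rw [← integral_add_right_eq_self (fun z => K (z - x) * g z) x]
    refine integral_congr_ae (Eventually.of_forall fun y => ?_)
    simp only [add_sub_cancel_right]
    rw [add_comm]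
  have hint : Integrable (fun p : E N × E N => (K (p.2 - p.1) * g p.2) * a p.1)
      (volume.prod volume) := by
    have h1 : Integrable (fun p : E N × E N =>
        ContinuousLinearMap.mul ℂ ℂ (g p.2) ((fun w => K (-w)) (p.1 - p.2)))
        (volume.prod volume) :=
      Integrable.convolution_integrand _ hg hK.comp_neg
    have h2 := h1.bdd_mul (c := C) (f := fun p : E N × E N => a p.1)
      ((ha.comp continuous_fst).aestronglyMeasurable) (Eventually.of_forall fun p => hC p.1)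
    refine h2.congr (Eventually.of_forall fun p => ?_)
    simp only [ContinuousLinearMap.mul_apply', neg_sub]
    ring
  calc ∫ x, (∫ y, K y * g (x + y)) * a x
      = ∫ x, ∫ z, (K (z - x) * g z) * a x := by
        refine integral_congr_ae (Eventually.of_forall fun x => ?_)
        simp only
        rw [e1, integral_mul_const]
    _ = ∫ z, ∫ x, (K (z - x) * g z) * a x := integral_integral_swap hint
    _ = ∫ z, g z * ∫ x, K (z - x) * a x := by
        refine integral_congr_ae (Eventually.of_forall fun z => ?_)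
        simp only
        rw [← integral_const_mul]
        refine integral_congr_ae (Eventually.of_forall fun x => ?_)
        simp only
        ring

theorem conv_cont {K : E N → ℂ} (hK : Integrable K) (a : C₀(E N, ℂ)) :
    Continuous fun x => ∫ y, K (x - y) * a y := by
  have e1 : (fun x => ∫ y, K (x - y) * a y) = fun x => ∫ y, K y * a (x - y) := by
    funext x
    rw [← integral_sub_left_eq_self (fun y => K y * a (x - y)) volume x]
    refine integral_congr_ae (Eventually.of_forall fun y => ?_)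
    simp only [sub_sub_cancel]
  rw [e1]
  refine continuous_of_dominated (bound := fun y => ‖K y‖ * ‖a‖) ?_ ?_ (hK.norm.mul_const _) ?_
  · intro x
    exact hK.aestronglyMeasurable.mul
      ((a.continuous.comp (by fun_prop : Continuous fun y : E N => x - y)).aestronglyMeasurable)
  · intro x
    refine Eventually.of_forall fun y => ?_
    rw [norm_mul]
    exact mul_le_mul_of_nonneg_left (a.toBCF.norm_coe_le_norm _) (norm_nonneg _)
  · refine Eventually.of_forall fun y => ?_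
    exact continuous_const.mul (a.continuous.comp (by fun_prop))

theorem norm_aS {θ t : ℝ} (h0 : 0 ≤ θ) (h1 : θ < π / 2) (ht : 0 < t) (ξ : E N) :
    ‖aS θ t ξ‖ ≤ 1 := by
  unfold aS ei
  rw [Complex.norm_exp]
  refine Real.exp_le_one_iff.2 ?_
  have hc : 0 ≤ Real.cos θ := Real.cos_nonneg_of_neg_pi_div_two_le_of_le (by linarith [Real.pi_pos])
    h1.le
  have e : (-(((4 * π ^ 2 * t * ‖ξ‖ ^ 2 : ℝ)) : ℂ) * Complex.exp ((θ : ℂ) * Complex.I)).re
      = -(4 * π ^ 2 * t * ‖ξ‖ ^ 2 * Real.cos θ) := by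
    rw [← Complex.ofReal_neg, Complex.re_ofReal_mul, Complex.exp_ofReal_mul_I_re]
    ring
  rw [e]
  have : 0 ≤ 4 * π ^ 2 * t * ‖ξ‖ ^ 2 * Real.cos θ := by positivity
  linarith

theorem meas_aS {θ t : ℝ} : Measurable (aS θ t : E N → ℂ) := by
  refine Continuous.measurable ?_
  unfold aS
  fun_prop

end Pool.Agent.Q73.GL.LINK

namespace Pool.Agent.Q73.GL

open MeasureTheory Set Filter Topology FourierTransform Real
open scoped InnerProductSpace SchwartzMap ContDiff ZeroAtInfty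

theorem t_LINK (hk : S_KER) : S_LINK := by
  intro N θ h0 h1 t a b ht hab
  obtain ⟨hKc, hKi, -, -, hKF⟩ := hk N θ h0 h1 t ht
  have hm : Measurable (aS θ t : E N → ℂ) := LINK.meas_aS
  have hC : ∀ ξ : E N, ‖aS θ t ξ‖ ≤ 1 := LINK.norm_aS h0 h1 ht
  have hm' : Measurable fun ξ : E N => (starRingEnd ℂ) (aS θ t ξ) :=
    Complex.continuous_conj.measurable.comp hm
  have hC' : ∀ ξ : E N, ‖(starRingEnd ℂ) (aS θ t ξ)‖ ≤ 1 := fun ξ => by
    rw [RCLike.norm_conj]; exact hC ξ
  refine ae_eq_of_integral_contDiff_smul_eq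
    ((Lp.memLp (FM (aS θ t) b)).locallyIntegrable (by norm_num))
    (LINK.conv_cont hKi a).locallyIntegrable ?_
  intro g g_smooth g_cpt
  have hg₁ : HasCompactSupport (Complex.ofRealCLM ∘ g) := g_cpt.comp_left rfl
  have hg₂ : ContDiff ℝ ∞ (Complex.ofRealCLM ∘ g) := by fun_prop
  set χ : 𝓢(E N, ℂ) := hg₁.toSchwartzMap hg₂ with hχ
  have hχx : ∀ x, χ x = ((g x : ℝ) : ℂ) := fun x => rfl
  have hr : ∀ x, (starRingEnd ℂ) (χ x) = χ x := fun x => by rw [hχx, Complex.conj_ofReal]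
  -- the inner product with `χ`
  have e1 : ∫ x, g x • (FM (aS θ t) b : E N → ℂ) x = ⟪χ.toLp 2, FM (aS θ t) b⟫_ℂ := by
    rw [L2.inner_def]
    refine integral_congr_ae ?_
    filter_upwards [χ.coeFn_toLp 2 volume] with x hx
    rw [hx, RCLike.inner_apply, hr, hχx, Complex.real_smul, mul_comm]
  have e2 : ⟪χ.toLp 2, FM (aS θ t) b⟫_ℂ =
      ⟪FM (fun ξ : E N => (starRingEnd ℂ) (aS θ t ξ)) (χ.toLp 2), b⟫_ℂ := by
    have h := (t_FM N).2.2.2.2.2.1 (fun ξ : E N => (starRingEnd ℂ) (aS θ t ξ)) 1 hm' hC'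
      (χ.toLp 2) b
    rw [h]
    simp only [Complex.conj_conj]
  -- the function `h`
  set h : E N → ℂ := fun ξ => (starRingEnd ℂ) (𝓕 (G N θ t) ξ) * 𝓕 (χ : E N → ℂ) ξ with hh
  have hhi : Integrable h := by
    have e : h = fun ξ => (starRingEnd ℂ) (aS θ t ξ) * (𝓕 χ : 𝓢(E N, ℂ)) ξ := by
      funext ξ
      simp only [hh]
      rw [hKF, SchwartzMap.fourier_coe]
    rw [e]
    exact Integrable.bdd_mul (c := 1) (𝓕 χ : 𝓢(E N, ℂ)).integrable hm'.aestronglyMeasurable
      (Eventually.of_forall hC')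
  have e3 : (FM (fun ξ : E N => (starRingEnd ℂ) (aS θ t ξ)) (χ.toLp 2) : E N → ℂ)
      =ᵐ[volume] 𝓕⁻ h := by
    rw [FM.FM_apply]
    refine LINK.lemA _ h hhi ?_
    have h2 : (Lp.fourierTransformₗᵢ (E N) ℂ) (χ.toLp 2) = (𝓕 χ : 𝓢(E N, ℂ)).toLp 2 :=
      SchwartzMap.toLp_fourier_eq χ
    rw [h2]
    filter_upwards [FM.mulL_coe hm' hC' ((𝓕 χ : 𝓢(E N, ℂ)).toLp 2),
      (𝓕 χ : 𝓢(E N, ℂ)).coeFn_toLp 2 volume] with ξ h3 h4
    rw [h3, h4]
    simp only [hh]
    rw [hKF, SchwartzMap.fourier_coe]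
  rw [e1, e2, L2.inner_def]
  have e4 : ∫ x, ⟪(FM (fun ξ : E N => (starRingEnd ℂ) (aS θ t ξ)) (χ.toLp 2) : E N → ℂ) x,
      (b : E N → ℂ) x⟫_ℂ = ∫ x, (∫ y, G N θ t y * χ (x + y)) * a x := by
    refine integral_congr_ae ?_
    filter_upwards [e3, hab] with x h3 h4
    rw [h3, h4, RCLike.inner_apply, LINK.conjW hKi χ hr x, mul_comm]
  rw [e4, LINK.fubini hKi χ.integrable (a := fun x => a x) (map_continuous a) (C := ‖a‖)
    (fun x => a.toBCF.norm_coe_le_norm x)]
  refine integral_congr_ae (Eventually.of_forall fun z => ?_)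
  simp only [hχx, Complex.real_smul]

end Pool.Agent.Q73.GL
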