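import Pool.Agent.Q73.GL.Stm

set_option autoImplicit false

/-!
Project GL, job MX: multiplication by bounded continuous functions.
-/

namespace Pool.Agent.Q73.GL

open Set Filter Topology MeasureTheory
open scoped ZeroAtInfty BoundedContinuousFunction

namespace MX

theorem norm_le {N : ℕ} (a : C₀(E N, ℂ)) (x : E N) : ‖a x‖ ≤ ‖a‖ := by
  rw [← ZeroAtInftyContinuousMap.norm_toBCF_eq_norm]
  exact BoundedContinuousFunction.norm_coe_le_norm a.toBCF x

/-- the product of a bounded continuous function and a function in `C_0` -/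
noncomputable def mulC {N : ℕ} (β : E N →ᵇ ℂ) (a : C₀(E N, ℂ)) : C₀(E N, ℂ) where
  toFun := fun x => β x * a x
  continuous_toFun := β.continuous.mul (map_continuous a)
  zero_at_infty' := by
    have h1 : Tendsto (fun x => ‖β‖ * ‖a x‖) (cocompact (E N)) (𝓝 0) := by
      have h2 : Tendsto (fun x => ‖a x‖) (cocompact (E N)) (𝓝 0) :=
        tendsto_zero_iff_norm_tendsto_zero.1 (zero_at_infty a)
      simpa using h2.const_mul ‖β‖
    refine squeeze_zero_norm (fun x => ?_) h1
    rw [norm_mul]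
    exact mul_le_mul_of_nonneg_right (β.norm_coe_le_norm x) (norm_nonneg _)

theorem mulC_apply {N : ℕ} (β : E N →ᵇ ℂ) (a : C₀(E N, ℂ)) (x : E N) :
    mulC β a x = β x * a x := rfl

theorem mulC_norm {N : ℕ} (β : E N →ᵇ ℂ) (a : C₀(E N, ℂ)) : ‖mulC β a‖ ≤ ‖β‖ * ‖a‖ := by
  rw [← ZeroAtInftyContinuousMap.norm_toBCF_eq_norm]
  rw [BoundedContinuousFunction.norm_le (by positivity)]
  intro x
  have : (mulC β a).toBCF x = β x * a x := rfl
  rw [this, norm_mul]
  exact mul_le_mul (β.norm_coe_le_norm x) (norm_le a x) (norm_nonneg _) (norm_nonneg _)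

theorem meas {N : ℕ} (β : E N →ᵇ ℂ) : Measurable (β : E N → ℂ) := β.continuous.measurable

/-- the product on `C_0 ∩ L^2` -/
noncomputable def mulX {N : ℕ} (β : E N →ᵇ ℂ) (p : XT N) : XT N :=
  XT.mk (mulC β p.c) (mulFun β p.l) (by
    filter_upwards [mulFun_coe (meas β) (fun x => β.norm_coe_le_norm x) p.l, p.ae] with x h1 h2
    rw [h1, h2]
    rfl)

theorem mulX_c {N : ℕ} (β : E N →ᵇ ℂ) (p : XT N) : (mulX β p).c = mulC β p.c := rfl

theorem mulX_norm {N : ℕ} (β : E N →ᵇ ℂ) (p : XT N) : ‖mulX β p‖ ≤ ‖β‖ * ‖p‖ := by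
  have e1 : ‖mulX β p‖ = max ‖mulC β p.c‖ ‖mulFun β p.l‖ := rfl
  rw [e1, XT.norm_eq]
  refine max_le ?_ ?_
  · exact (mulC_norm β p.c).trans (mul_le_mul_of_nonneg_left (le_max_left _ _) (norm_nonneg _))
  · exact (mulFun_norm (meas β) (norm_nonneg _) (fun x => β.norm_coe_le_norm x) p.l).trans
      (mul_le_mul_of_nonneg_left (le_max_right _ _) (norm_nonneg _))

theorem ext_C {N : ℕ} {a b : C₀(E N, ℂ)} (h : ∀ x, a x = b x) : a = b :=
  ZeroAtInftyContinuousMap.ext h

end MX

/-- JOB MX -/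
theorem t_MX : S_MX := by
  intro N
  constructor
  · refine ⟨LinearMap.mkContinuous₂ (LinearMap.mk₂ ℂ MX.mulC ?_ ?_ ?_ ?_) 1 ?_, ?_⟩
    · intro β β' a
      refine MX.ext_C fun x => ?_
      rw [ZeroAtInftyContinuousMap.add_apply, MX.mulC_apply, MX.mulC_apply, MX.mulC_apply,
        BoundedContinuousFunction.add_apply]
      ring
    · intro c β a
      refine MX.ext_C fun x => ?_
      rw [ZeroAtInftyContinuousMap.smul_apply, MX.mulC_apply, MX.mulC_apply,
        BoundedContinuousFunction.smul_apply, smul_eq_mul, smul_eq_mul]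
      ring
    · intro β a a'
      refine MX.ext_C fun x => ?_
      rw [ZeroAtInftyContinuousMap.add_apply, MX.mulC_apply, MX.mulC_apply, MX.mulC_apply,
        ZeroAtInftyContinuousMap.add_apply]
      ring
    · intro c β a
      refine MX.ext_C fun x => ?_
      rw [ZeroAtInftyContinuousMap.smul_apply, MX.mulC_apply, MX.mulC_apply,
        ZeroAtInftyContinuousMap.smul_apply, smul_eq_mul, smul_eq_mul]
      ring
    · intro β a
      rw [one_mul]
      exact MX.mulC_norm β a
    · intro β a x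
      rfl
  · refine ⟨LinearMap.mkContinuous₂ (LinearMap.mk₂ ℂ MX.mulX ?_ ?_ ?_ ?_) 1 ?_, ?_⟩
    · intro β β' p
      refine XT.ext' (MX.ext_C fun x => ?_)
      rw [XT.c_add, ZeroAtInftyContinuousMap.add_apply, MX.mulX_c, MX.mulX_c, MX.mulX_c,
        MX.mulC_apply, MX.mulC_apply, MX.mulC_apply, BoundedContinuousFunction.add_apply]
      ring
    · intro c β p
      refine XT.ext' (MX.ext_C fun x => ?_)
      rw [XT.c_smul, ZeroAtInftyContinuousMap.smul_apply, MX.mulX_c, MX.mulX_c, MX.mulC_apply,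
        MX.mulC_apply, BoundedContinuousFunction.smul_apply, smul_eq_mul, smul_eq_mul]
      ring
    · intro β p p'
      refine XT.ext' (MX.ext_C fun x => ?_)
      rw [XT.c_add, ZeroAtInftyContinuousMap.add_apply, MX.mulX_c, MX.mulX_c, MX.mulX_c,
        MX.mulC_apply, MX.mulC_apply, MX.mulC_apply, XT.c_add,
        ZeroAtInftyContinuousMap.add_apply]
      ring
    · intro c β p
      refine XT.ext' (MX.ext_C fun x => ?_)
      rw [XT.c_smul, ZeroAtInftyContinuousMap.smul_apply, MX.mulX_c, MX.mulX_c, MX.mulC_apply,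
        MX.mulC_apply, XT.c_smul, ZeroAtInftyContinuousMap.smul_apply, smul_eq_mul, smul_eq_mul]
      ring
    · intro β p
      rw [one_mul]
      exact MX.mulX_norm β p
    · intro β p x
      rfl

end Pool.Agent.Q73.GL
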