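import Pool.Agent.Q73.GL.Stm

set_option autoImplicit false

/-!
Project GL (helper73), job PER: persistence. A mild solution in `C_0` with initial value in
`C_0 ∩ L^2` is a mild solution in `C_0 ∩ L^2`.
-/

namespace Pool.Agent.Q73.GL

open MeasureTheory Set Filter Topology FourierTransform
open scoped ZeroAtInfty InnerProductSpace Real BoundedContinuousFunction SchwartzMap

namespace PER

/-- evaluation at a point -/
noncomputable def ev {N : ℕ} (x : E N) : C₀(E N, ℂ) →L[ℂ] ℂ :=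
  LinearMap.mkContinuous
    { toFun := fun a => a x, map_add' := fun _ _ => rfl, map_smul' := fun _ _ => rfl } 1
    (fun a => by
      rw [one_mul]
      exact (BoundedContinuousFunction.norm_coe_le_norm a.toBCF x))

theorem ev_apply {N : ℕ} (x : E N) (a : C₀(E N, ℂ)) : ev x a = a x := rfl

/-- the linear operator `a ↦ e^{iθ} β a + γ a` -/
noncomputable def qC {N : ℕ} (θ γ : ℝ)
    (MC : (E N →ᵇ ℂ) →L[ℂ] (C₀(E N, ℂ) →L[ℂ] C₀(E N, ℂ))) (β : ℝ → (E N →ᵇ ℂ)) (s : ℝ) :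
    C₀(E N, ℂ) →L[ℂ] C₀(E N, ℂ) :=
  ei θ • MC (β s) + (γ : ℂ) • ContinuousLinearMap.id ℂ _

/-- the linear operator `p ↦ e^{iθ} β p + γ p` -/
noncomputable def qX {N : ℕ} (θ γ : ℝ)
    (MX : (E N →ᵇ ℂ) →L[ℂ] (XT N →L[ℂ] XT N)) (β : ℝ → (E N →ᵇ ℂ)) (s : ℝ) :
    XT N →L[ℂ] XT N :=
  ei θ • MX (β s) + (γ : ℂ) • ContinuousLinearMap.id ℂ _

theorem cont_gen {X : Type} [NormedAddCommGroup X] [NormedSpace ℂ X] (L : ℝ → X →L[ℂ] X)
    (S : Set ℝ) (h : ContinuousOn L S) (a c : ℂ) :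
    ContinuousOn (fun s => a • L s + c • ContinuousLinearMap.id ℂ X) S := by
  have h2 : ContinuousOn (fun s => a • L s) S :=
    (continuous_const_smul a).comp_continuousOn h
  exact h2.add continuousOn_const

theorem qC_cont {N : ℕ} (θ γ T : ℝ)
    (MC : (E N →ᵇ ℂ) →L[ℂ] (C₀(E N, ℂ) →L[ℂ] C₀(E N, ℂ))) (β : ℝ → (E N →ᵇ ℂ))
    (hβ : ContinuousOn β (Icc 0 T)) : ContinuousOn (qC θ γ MC β) (Icc 0 T) := by
  have h1 : ContinuousOn (fun s => MC (β s)) (Icc 0 T) := MC.continuous.comp_continuousOn hβ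
  exact cont_gen (X := C₀(E N, ℂ)) _ _ h1 (ei θ) (γ : ℂ)

theorem qX_cont {N : ℕ} (θ γ T : ℝ)
    (MX : (E N →ᵇ ℂ) →L[ℂ] (XT N →L[ℂ] XT N)) (β : ℝ → (E N →ᵇ ℂ))
    (hβ : ContinuousOn β (Icc 0 T)) : ContinuousOn (qX θ γ MX β) (Icc 0 T) := by
  have h1 : ContinuousOn (fun s => MX (β s)) (Icc 0 T) := MX.continuous.comp_continuousOn hβ
  exact cont_gen (X := XT N) _ _ h1 (ei θ) (γ : ℂ)

/-- the Bochner form of Duhamel's formula in `C_0` -/
theorem mildC (hv1 : S_V1) {N : ℕ} {θ M : ℝ}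
    {TC : ℝ → C₀(E N, ℂ) →L[ℂ] C₀(E N, ℂ)} {TX : ℝ → XT N →L[ℂ] XT N} (hS : Sem N θ M TC TX)
    {α γ T : ℝ} (hT : 0 < T) {u0 : C₀(E N, ℂ)} {u : ℝ → C₀(E N, ℂ)} (hu : IsMild θ α γ T u0 u)
    (MC : (E N →ᵇ ℂ) →L[ℂ] (C₀(E N, ℂ) →L[ℂ] C₀(E N, ℂ)))
    (hMC : ∀ β a x, MC β a x = β x * a x) (β : ℝ → (E N →ᵇ ℂ)) (hβ : ContinuousOn β (Icc 0 T))
    (hβ' : ∀ s x, β s x = ((‖u s x‖ ^ α : ℝ) : ℂ)) :
    ∀ t ∈ Icc 0 T, u t = TC t u0 + ∫ s in (0 : ℝ)..t, TC (t - s) (qC θ γ MC β s (u s)) := by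
  intro t ht
  rcases ht.1.lt_or_eq with htpos | h0
  swap
  · rw [← h0, hu.init, hS.sgC.zero, intervalIntegral.integral_same, add_zero]
    rfl
  have hφ : ContinuousOn (fun s => qC θ γ MC β s (u s)) (Icc 0 T) :=
    (qC_cont θ γ T MC β hβ).clm_apply hu.cont
  have hcont := (hv1 _ M TC T _ hS.sgC hT.le hφ).1 t ht
  have hint : IntervalIntegrable (fun s => TC (t - s) (qC θ γ MC β s (u s))) volume 0 t := by
    apply ContinuousOn.intervalIntegrable
    rw [uIcc_of_le ht.1]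
    exact hcont
  ext x
  have e1 : ev x (TC t u0 + ∫ s in (0 : ℝ)..t, TC (t - s) (qC θ γ MC β s (u s))) =
      ev x (TC t u0) + ∫ s in (0 : ℝ)..t, ev x (TC (t - s) (qC θ γ MC β s (u s))) := by
    rw [map_add, ContinuousLinearMap.intervalIntegral_comp_comm _ hint]
  have e0 : (TC t u0 + ∫ s in (0 : ℝ)..t, TC (t - s) (qC θ γ MC β s (u s))) x =
      (∫ y, G N θ t (x - y) * u0 y) +
        ∫ s in (0 : ℝ)..t, ev x (TC (t - s) (qC θ γ MC β s (u s))) := by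
    rw [← ev_apply x (TC t u0 + _), e1, ev_apply x (TC t u0), hS.conv t u0 x htpos]
  rw [e0, hu.duhamel t htpos ht.2 x]
  congr 1
  rw [intervalIntegral.integral_of_le ht.1, intervalIntegral.integral_of_le ht.1,
    integral_Ioc_eq_integral_Ioo, integral_Ioc_eq_integral_Ioo]
  apply setIntegral_congr_fun measurableSet_Ioo
  intro s hs
  show _ = ev x (TC (t - s) (qC θ γ MC β s (u s)))
  rw [ev_apply, hS.conv _ _ x (sub_pos.2 hs.2)]
  show (∫ y, G N θ (t - s) (x - y) * nl θ α γ (u s y)) =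
    ∫ y, G N θ (t - s) (x - y) * (qC θ γ MC β s (u s)) y
  apply integral_congr_ae
  filter_upwards with y
  congr 1
  show nl θ α γ (u s y) = ei θ * (MC (β s) (u s) y) + (γ : ℂ) * (u s y)
  rw [hMC, hβ']
  rfl

end PER

open PER in
theorem t_PER (v1 : S_V1) (v2 : S_V2) (v3 : S_V3) (v4 : S_V4) (hx : S_XC) (hm : S_MX)
    (hp : S_PW) : S_PER := by
  intro N θ M TC TX hθ hθ' hS α γ T x0 u hα hT hu
  have := hx N
  obtain ⟨⟨MC, hMC⟩, ⟨MX, hMX⟩⟩ := hm N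
  obtain ⟨β, hβ, hβ'⟩ := hp N α T u hα hu.cont
  have huC := mildC v1 hS hT hu MC hMC β hβ hβ'
  obtain ⟨w, hw, hw'⟩ := v2 (XT N) M TX T (qX θ γ MX β) x0 hS.sgX hT.le (qX_cont θ γ T MX β hβ)
  have hcomm : ∀ s (p : XT N), (qX θ γ MX β s p).c = qC θ γ MC β s p.c := by
    intro s p
    ext x
    show ei θ * ((MX (β s) p).c x) + (γ : ℂ) * (p.c x) =
      ei θ * (MC (β s) p.c x) + (γ : ℂ) * (p.c x)
    rw [hMC, hMX]
  have hφ : ContinuousOn (fun s => qX θ γ MX β s (w s)) (Icc 0 T) :=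
    (qX_cont θ γ T MX β hβ).clm_apply hw
  have hwC : ∀ t ∈ Icc 0 T, (w t).c = TC t x0.c +
      ∫ s in (0 : ℝ)..t, TC (t - s) (qC θ γ MC β s (w s).c) := by
    intro t ht
    have hcont := (v1 (XT N) M TX T _ hS.sgX hT.le hφ).1 t ht
    have hint : IntervalIntegrable (fun s => TX (t - s) (qX θ γ MX β s (w s))) volume 0 t := by
      apply ContinuousOn.intervalIntegrable
      rw [uIcc_of_le ht.1]
      exact hcont
    have e1 : cL N (w t) = cL N (TX t x0) +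
        ∫ s in (0 : ℝ)..t, cL N (TX (t - s) (qX θ γ MX β s (w s))) := by
      rw [hw' t ht, map_add, ContinuousLinearMap.intervalIntegral_comp_comm _ hint]
    rw [cL_apply, cL_apply, hS.fst t x0 ht.1] at e1
    rw [e1]
    congr 1
    apply intervalIntegral.integral_congr
    intro s hs
    rw [uIcc_of_le ht.1] at hs
    show cL N (TX (t - s) (qX θ γ MX β s (w s))) = TC (t - s) (qC θ γ MC β s (w s).c)
    rw [cL_apply, hS.fst _ _ (sub_nonneg.2 hs.2), hcomm]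
  have hwc : ContinuousOn (fun t => (w t).c) (Icc 0 T) :=
    (cL N).continuous.comp_continuousOn hw
  have hwu : ∀ t ∈ Icc 0 T, (w t).c = u t :=
    v3 _ M TC T (qC θ γ MC β) x0.c (fun t => (w t).c) u hS.sgC hT.le (qC_cont θ γ T MC β hβ)
      hwc hu.cont hwC huC
  have hh : ContinuousOn (fun s => ei θ • MX (β s) (w s)) (Icc 0 T) := by
    have h1 : ContinuousOn (fun s => MX (β s)) (Icc 0 T) := MX.continuous.comp_continuousOn hβ
    exact (continuous_const_smul (ei θ)).comp_continuousOn (h1.clm_apply hw)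
  have h4 := v4 (XT N) M TX T γ (fun s => ei θ • MX (β s) (w s)) w x0 hS.sgX hS.add hT.le hh hw
    (by
      intro t ht
      exact hw' t ht)
  refine ⟨fun t => ((Real.exp (-(γ * t)) : ℝ) : ℂ) • w t,
    fun t => ((Real.exp (-(γ * t)) : ℝ) : ℂ) • MX (β t) (w t), ?_⟩
  have hexp : ContinuousOn (fun t : ℝ => ((Real.exp (-(γ * t)) : ℝ) : ℂ)) (Icc 0 T) := by
    apply Continuous.continuousOn
    fun_prop
  refine ⟨hexp.smul hw, ?_, ?_, ?_, ?_⟩
  · have h1 : ContinuousOn (fun s => MX (β s)) (Icc 0 T) := MX.continuous.comp_continuousOn hβ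
    exact hexp.smul (h1.clm_apply hw)
  · show ((Real.exp (-(γ * 0)) : ℝ) : ℂ) • w 0 = x0
    rw [mul_zero, neg_zero, Real.exp_zero, Complex.ofReal_one, one_smul,
      hw' 0 ⟨le_rfl, hT.le⟩, hS.sgX.zero, intervalIntegral.integral_same, add_zero]
    rfl
  · intro t ht x
    show ((Real.exp (-(γ * t)) : ℝ) : ℂ) * ((MX (β t) (w t)).c x) =
      ((Real.exp (α * γ * t) * ‖((Real.exp (-(γ * t)) : ℝ) : ℂ) * ((w t).c x)‖ ^ α : ℝ) : ℂ) *
        (((Real.exp (-(γ * t)) : ℝ) : ℂ) * ((w t).c x))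
    rw [hMX, hβ', hwu t ht, norm_mul, Complex.norm_real, Real.norm_of_nonneg (Real.exp_pos _).le,
      Real.mul_rpow (Real.exp_pos _).le (norm_nonneg _), ← Real.exp_mul, ← mul_assoc (Real.exp _),
      ← Real.exp_add, show α * γ * t + -(γ * t) * α = 0 by ring, Real.exp_zero, one_mul]
    ring
  · intro t ht
    show ((Real.exp (-(γ * t)) : ℝ) : ℂ) • w t = _
    rw [h4 t ht]
    congr 1
    apply intervalIntegral.integral_congr
    intro s _
    show TX (t - s) (((Real.exp (-(γ * s)) : ℝ) : ℂ) • (ei θ • MX (β s) (w s))) =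
      TX (t - s) (ei θ • (((Real.exp (-(γ * s)) : ℝ) : ℂ) • MX (β s) (w s)))
    rw [smul_comm]

end Pool.Agent.Q73.GL
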