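import Pool.Agent.Q73.GL.Stm

set_option autoImplicit false

namespace Pool.Agent.Q73.GL

open MeasureTheory Set Filter Topology FourierTransform
open scoped ZeroAtInfty InnerProductSpace Real BoundedContinuousFunction SchwartzMap

namespace POT

theorem rpow_add_one_mul {a r : ℝ} (ha : 0 ≤ a) (hr : 0 < r) : a ^ r * a = a ^ (r + 1) := by
  rcases eq_or_lt_of_le ha with h | h
  · rw [← h, mul_zero, Real.zero_rpow (by linarith)]
  · rw [Real.rpow_add_one h.ne']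

theorem young {α a b : ℝ} (hα : 0 < α) (ha : 0 ≤ a) (hb : 0 ≤ b) :
    a ^ (α + 1) * b ≤ (α + 1) / (α + 2) * a ^ (α + 2) + b ^ (α + 2) / (α + 2) := by
  have h1 : (α + 1) ≠ 0 := by positivity
  have h2 : (α + 2) ≠ 0 := by positivity
  have hpq : ((α + 2) / (α + 1)).HolderConjugate (α + 2) := by
    rw [Real.holderConjugate_iff]
    constructor
    · rw [lt_div_iff₀ (by positivity)]
      linarith
    · field_simp
      ring
  have h := Real.young_inequality_of_nonneg (Real.rpow_nonneg ha (α + 1)) hb hpq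
  rw [← Real.rpow_mul ha] at h
  have h3 : (α + 1) * ((α + 2) / (α + 1)) = α + 2 := by field_simp
  rw [h3] at h
  refine h.trans (le_of_eq ?_)
  congr 1
  field_simp

theorem inner_self_smul (r : ℝ) (z : ℂ) :
    ⟪((r : ℝ) : ℂ) * z, z⟫_ℂ = ((r * ‖z‖ ^ 2 : ℝ) : ℂ) := by
  rw [← smul_eq_mul, inner_smul_left, inner_self_eq_norm_sq_to_K]
  simp

theorem norm_smul' {α : ℝ} (hα : 0 < α) (z : ℂ) :
    ‖((‖z‖ ^ α : ℝ) : ℂ) * z‖ = ‖z‖ ^ (α + 1) := by
  rw [norm_mul, Complex.norm_real, Real.norm_of_nonneg (Real.rpow_nonneg (norm_nonneg _) _),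
    rpow_add_one_mul (norm_nonneg _) hα]

theorem rpow_mul_sq {α : ℝ} (hα : 0 < α) (z : ℂ) : ‖z‖ ^ α * ‖z‖ ^ 2 = ‖z‖ ^ (α + 2) := by
  rw [pow_two, ← mul_assoc, rpow_add_one_mul (norm_nonneg _) hα,
    rpow_add_one_mul (norm_nonneg _) (by linarith)]
  congr 1
  ring

theorem convex {α : ℝ} (hα : 0 < α) (z w : ℂ) :
    (⟪((‖z‖ ^ α : ℝ) : ℂ) * z, w - z⟫_ℂ).re ≤
      ‖w‖ ^ (α + 2) / (α + 2) - ‖z‖ ^ (α + 2) / (α + 2) := by
  rw [inner_sub_right, Complex.sub_re, inner_self_smul, Complex.ofReal_re, rpow_mul_sq hα]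
  have h1 : (⟪((‖z‖ ^ α : ℝ) : ℂ) * z, w⟫_ℂ).re ≤ ‖z‖ ^ (α + 1) * ‖w‖ := by
    rw [← norm_smul' hα]
    exact (Complex.re_le_norm _).trans (norm_inner_le_norm _ _)
  have h2 := young hα (norm_nonneg z) (norm_nonneg w)
  have h3 : (α + 2) ≠ 0 := by positivity
  have h4 : (α + 1) / (α + 2) * ‖z‖ ^ (α + 2) = ‖z‖ ^ (α + 2) - ‖z‖ ^ (α + 2) / (α + 2) := by
    field_simp
    ring
  linarith

theorem diff_le {α : ℝ} (hα : 0 < α) (z w : ℂ) :
    |‖w‖ ^ (α + 2) / (α + 2) - ‖z‖ ^ (α + 2) / (α + 2)| ≤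
      (max ‖z‖ ‖w‖) ^ α * ((‖z‖ + ‖w‖) * ‖z - w‖) := by
  have key : ∀ a b : ℂ, ‖a‖ ^ (α + 2) / (α + 2) - ‖b‖ ^ (α + 2) / (α + 2) ≤
      (max ‖a‖ ‖b‖) ^ α * ((‖a‖ + ‖b‖) * ‖a - b‖) := by
    intro a b
    have h1 := convex hα a b
    have h2 : -(‖a‖ ^ (α + 1) * ‖b - a‖) ≤ (⟪((‖a‖ ^ α : ℝ) : ℂ) * a, b - a⟫_ℂ).re := by
      rw [← norm_smul' hα]
      have h3 := (Complex.abs_re_le_norm (⟪((‖a‖ ^ α : ℝ) : ℂ) * a, b - a⟫_ℂ)).trans
        (norm_inner_le_norm _ _)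
      exact (abs_le.1 h3).1
    have h4 : ‖a‖ ^ (α + 1) * ‖b - a‖ ≤ (max ‖a‖ ‖b‖) ^ α * ((‖a‖ + ‖b‖) * ‖a - b‖) := by
      rw [← rpow_add_one_mul (norm_nonneg _) hα, norm_sub_rev b a, ← mul_assoc]
      apply mul_le_mul_of_nonneg_right _ (norm_nonneg _)
      apply mul_le_mul
      · exact Real.rpow_le_rpow (norm_nonneg _) (le_max_left _ _) hα.le
      · linarith [norm_nonneg b]
      · exact norm_nonneg _
      · exact Real.rpow_nonneg ((norm_nonneg a).trans (le_max_left _ _)) _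
    linarith
  rw [abs_le]
  constructor
  · have := key z w
    linarith
  · have := key w z
    rw [max_comm, add_comm ‖w‖, norm_sub_rev w z] at this
    exact this

variable {N : ℕ}

theorem sq_int (f : L2 N) : Integrable (fun x => ‖f x‖ ^ 2) :=
  (Lp.memLp f).integrable_norm_pow (by norm_num)

theorem norm_sq (f : L2 N) : ‖f‖ ^ 2 = ∫ x, ‖f x‖ ^ 2 := by
  have h := L2.inner_def (𝕜 := ℂ) f f
  have h1 : (fun x => ⟪f x, f x⟫_ℂ) = fun x => (((‖f x‖ ^ 2 : ℝ)) : ℂ) := by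
    funext x
    rw [inner_self_eq_norm_sq_to_K]
    simp
  rw [h1, inner_self_eq_norm_sq_to_K] at h
  have h2 := integral_ofReal (μ := (volume : Measure (E N))) (𝕜 := ℂ) (f := fun x => ‖f x‖ ^ 2)
  have h3 : ((‖f‖ ^ 2 : ℝ) : ℂ) = ((∫ x, ‖f x‖ ^ 2 : ℝ) : ℂ) := by
    refine Eq.trans ?_ (h.trans h2)
    push_cast
    rfl
  exact_mod_cast h3

theorem int_pow {α : ℝ} (hα : 0 < α) (p : XT N) : Integrable (fun x => ‖p.c x‖ ^ (α + 2)) := by
  have h1 : Integrable (fun x => ‖p.c‖ ^ α * ‖p.c x‖ ^ 2) := by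
    apply Integrable.const_mul
    refine (sq_int p.l).congr ?_
    filter_upwards [p.ae] with x hx
    rw [hx]
  refine h1.mono' ?_ ?_
  · refine Continuous.aestronglyMeasurable ?_
    exact (p.c.continuous.norm).rpow_const (fun x => Or.inr (by linarith))
  · filter_upwards with x
    rw [Real.norm_of_nonneg (Real.rpow_nonneg (norm_nonneg _) _), ← rpow_mul_sq hα]
    apply mul_le_mul_of_nonneg_right _ (by positivity)
    apply Real.rpow_le_rpow (norm_nonneg _) _ hα.le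
    exact p.c.toBCF.norm_coe_le_norm x

theorem pot_nonneg {α : ℝ} (hα : 0 < α) (p : XT N) : 0 ≤ pot α p := by
  unfold pot
  apply div_nonneg _ (by linarith)
  exact integral_nonneg (fun x => Real.rpow_nonneg (norm_nonneg _) _)

theorem pot_eq {α : ℝ} (p : XT N) : pot α p = ∫ x, ‖p.c x‖ ^ (α + 2) / (α + 2) := by
  unfold pot
  rw [integral_div]

theorem pot_conv {α : ℝ} (hα : 0 < α) (p p' h : XT N)
    (hh : ∀ x, h.c x = ((‖p.c x‖ ^ α : ℝ) : ℂ) * p.c x) :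
    (⟪h.l, p'.l - p.l⟫_ℂ).re ≤ pot α p' - pot α p := by
  rw [L2.inner_def]
  have hint := L2.integrable_inner (𝕜 := ℂ) h.l (p'.l - p.l)
  have h1 : (∫ x, ⟪(h.l) x, (p'.l - p.l) x⟫_ℂ).re = ∫ x, (⟪(h.l) x, (p'.l - p.l) x⟫_ℂ).re :=
    (integral_re hint).symm
  rw [h1, pot_eq, pot_eq, ← integral_sub]
  · apply integral_mono_ae
    · exact hint.re
    · exact ((int_pow hα p').div_const _).sub ((int_pow hα p).div_const _)
    · filter_upwards [h.ae, (p' - p).ae] with x h2 h3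
      have h4 : (p'.l - p.l) x = p'.c x - p.c x := h3
      rw [h2, h4, hh]
      exact convex hα _ _
  · exact (int_pow hα p').div_const _
  · exact (int_pow hα p).div_const _

theorem pot_hom {α : ℝ} (hα : 0 < α) (p h : XT N)
    (hh : ∀ x, h.c x = ((‖p.c x‖ ^ α : ℝ) : ℂ) * p.c x) :
    ⟪h.l, p.l⟫_ℂ = (((α + 2) * pot α p : ℝ) : ℂ) := by
  rw [L2.inner_def]
  have h1 : ∫ x, ⟪(h.l) x, (p.l) x⟫_ℂ = ∫ x, ((‖p.c x‖ ^ (α + 2) : ℝ) : ℂ) := by
    apply integral_congr_ae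
    filter_upwards [h.ae, p.ae] with x h2 h3
    rw [h2, h3, hh, inner_self_smul, rpow_mul_sq hα]
  rw [h1]
  have h2 := integral_ofReal (μ := (volume : Measure (E N))) (𝕜 := ℂ)
    (f := fun x => ‖p.c x‖ ^ (α + 2))
  have h3 : ∫ x, ((‖p.c x‖ ^ (α + 2) : ℝ) : ℂ) = ((∫ x, ‖p.c x‖ ^ (α + 2) : ℝ) : ℂ) := h2
  rw [h3]
  congr 1
  unfold pot
  have : (α + 2) ≠ 0 := by positivity
  field_simp

theorem cs (f g : L2 N) : ∫ x, ‖f x‖ * ‖g x‖ ≤ ‖f‖ * ‖g‖ := by
  have hpq : (2 : ℝ).HolderConjugate 2 := by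
    rw [Real.holderConjugate_iff]
    norm_num
  have h2 : ENNReal.ofReal 2 = 2 := by norm_num
  have h := integral_mul_le_Lp_mul_Lq_of_nonneg (μ := (volume : Measure (E N))) hpq
    (f := fun x => ‖f x‖) (g := fun x => ‖g x‖)
    (Filter.Eventually.of_forall (fun x => norm_nonneg _))
    (Filter.Eventually.of_forall (fun x => norm_nonneg _))
    (by rw [h2]; exact (Lp.memLp f).norm) (by rw [h2]; exact (Lp.memLp g).norm)
  have h3 : ∀ f : L2 N, (∫ x, ‖f x‖ ^ (2 : ℝ)) ^ ((1 : ℝ) / 2) = ‖f‖ := by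
    intro f
    have h4 : (fun x => ‖f x‖ ^ (2 : ℝ)) = fun x => ‖f x‖ ^ 2 := by
      funext x
      exact Real.rpow_two _
    rw [h4, ← norm_sq, ← Real.sqrt_eq_rpow, Real.sqrt_sq (norm_nonneg _)]
  rw [h3, h3] at h
  exact h

theorem pot_diff {α : ℝ} (hα : 0 < α) (p p' : XT N) :
    |pot α p' - pot α p| ≤ (max ‖p‖ ‖p'‖) ^ α * ((‖p‖ + ‖p'‖) * ‖p - p'‖) := by
  have hC : ∀ q : XT N, ‖q.c‖ ≤ ‖q‖ := fun q => by rw [XT.norm_eq]; exact le_max_left _ _
  have hL : ∀ q : XT N, ‖q.l‖ ≤ ‖q‖ := fun q => by rw [XT.norm_eq]; exact le_max_right _ _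
  rw [pot_eq, pot_eq, ← integral_sub ((int_pow hα p').div_const _) ((int_pow hα p).div_const _)]
  refine (abs_integral_le_integral_abs).trans ?_
  have hR : 0 ≤ (max ‖p‖ ‖p'‖) ^ α :=
    Real.rpow_nonneg ((norm_nonneg p).trans (le_max_left _ _)) _
  have hi : ∀ f g : L2 N, Integrable (fun x => ‖f x‖ * ‖g x‖) := by
    intro f g
    have h1 := ((sq_int f).add (sq_int g))
    refine h1.mono' ?_ ?_
    · exact ((Lp.aestronglyMeasurable f).norm).mul ((Lp.aestronglyMeasurable g).norm)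
    · filter_upwards with x
      rw [Real.norm_of_nonneg (by positivity)]
      simp only [Pi.add_apply]
      nlinarith [sq_nonneg (‖f x‖ - ‖g x‖), sq_nonneg (‖f x‖), sq_nonneg (‖g x‖)]
  have hbd : ∫ x, |‖p'.c x‖ ^ (α + 2) / (α + 2) - ‖p.c x‖ ^ (α + 2) / (α + 2)| ≤
      ∫ x, (max ‖p‖ ‖p'‖) ^ α * (‖p.l x‖ * ‖(p - p').l x‖ + ‖p'.l x‖ * ‖(p - p').l x‖) := by
    apply integral_mono_ae
    · exact (((int_pow hα p').div_const _).sub ((int_pow hα p).div_const _)).abs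
    · exact ((hi _ _).add (hi _ _)).const_mul _
    · filter_upwards [p.ae, p'.ae, (p - p').ae] with x h1 h2 h3
      rw [h1, h2, h3]
      refine (diff_le hα _ _).trans ?_
      rw [← add_mul]
      apply mul_le_mul_of_nonneg_right _ (by positivity)
      apply Real.rpow_le_rpow ((norm_nonneg _).trans (le_max_left _ _)) _ hα.le
      apply max_le_max
      · exact (p.c.toBCF.norm_coe_le_norm x).trans (hC p)
      · exact (p'.c.toBCF.norm_coe_le_norm x).trans (hC p')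
  refine hbd.trans ?_
  rw [integral_const_mul, integral_add (hi _ _) (hi _ _)]
  apply mul_le_mul_of_nonneg_left _ hR
  rw [add_mul]
  apply add_le_add
  · exact (cs _ _).trans (mul_le_mul (hL _) (hL _) (norm_nonneg _) (norm_nonneg _))
  · exact (cs _ _).trans (mul_le_mul (hL _) (hL _) (norm_nonneg _) (norm_nonneg _))

theorem pot_cont {α : ℝ} (hα : 0 < α) : Continuous fun p : XT N => pot α p := by
  rw [continuous_iff_continuousAt]
  intro p
  rw [ContinuousAt, tendsto_iff_dist_tendsto_zero]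
  have h1 : Tendsto (fun p' : XT N => (max ‖p‖ ‖p'‖) ^ α * ((‖p‖ + ‖p'‖) * ‖p - p'‖))
      (𝓝 p) (𝓝 0) := by
    have hc : Continuous (fun p' : XT N => (max ‖p‖ ‖p'‖) ^ α * ((‖p‖ + ‖p'‖) * ‖p - p'‖)) := by
      apply Continuous.mul
      · apply Continuous.rpow_const
        · fun_prop
        · intro x
          exact Or.inr hα.le
      · fun_prop
    have h2 := hc.tendsto p
    simp only [sub_self, norm_zero, mul_zero] at h2
    exact h2
  refine squeeze_zero (fun _ => dist_nonneg) (fun p' => ?_) h1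
  rw [Real.dist_eq]
  exact pot_diff hα p p'

theorem pot_pos {α : ℝ} (hα : 0 < α) (x0 : XT N) (hx : x0 ≠ 0) : 0 < pot α x0 := by
  unfold pot
  apply div_pos _ (by linarith)
  rw [integral_pos_iff_support_of_nonneg (fun x => Real.rpow_nonneg (norm_nonneg _) _)
    (int_pow hα x0)]
  have hc : Continuous (fun x => ‖x0.c x‖ ^ (α + 2)) :=
    (x0.c.continuous.norm).rpow_const (fun x => Or.inr (by linarith))
  apply hc.isOpen_support.measure_pos volume
  by_contra hne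
  rw [Set.not_nonempty_iff_eq_empty, Function.support_eq_empty_iff] at hne
  apply hx
  apply XT.ext'
  ext x
  have h1 := congrFun hne x
  simp only [Pi.zero_apply] at h1
  rw [Real.rpow_eq_zero (norm_nonneg _) (by linarith), norm_eq_zero] at h1
  rw [h1, XT.c_zero]
  rfl

end POT

theorem t_POT : S_POT := by
  intro N α hα
  refine ⟨fun p => ⟨POT.pot_nonneg hα p, POT.int_pow hα p⟩, ?_, POT.pot_cont hα, ?_⟩
  · intro p p' h hh
    exact ⟨POT.pot_conv hα p p' h hh, POT.pot_hom hα p h hh⟩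
  · intro x0 hx
    exact POT.pot_pos hα x0 hx

end Pool.Agent.Q73.GL
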