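import Pool.Agent.Q73.GL.Stm

set_option autoImplicit false

/-!
Project GL, job PW: the potential `|u|^α` is a continuous path of bounded continuous functions.
-/

namespace Pool.Agent.Q73.GL

open Set Filter Topology
open scoped ZeroAtInfty BoundedContinuousFunction

namespace PW

theorem norm_le {N : ℕ} (a : C₀(E N, ℂ)) (x : E N) : ‖a x‖ ≤ ‖a‖ := by
  rw [← ZeroAtInftyContinuousMap.norm_toBCF_eq_norm]
  exact BoundedContinuousFunction.norm_coe_le_norm a.toBCF x

end PW

/-- JOB PW -/
theorem t_PW : S_PW := by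
  intro N α T u hα hu
  refine ⟨fun s => BoundedContinuousFunction.ofNormedAddCommGroup
    (fun x => ((‖u s x‖ ^ α : ℝ) : ℂ))
    (Complex.continuous_ofReal.comp (((map_continuous (u s)).norm).rpow_const
      (fun _ => Or.inr hα.le))) (‖u s‖ ^ α) ?_, ?_, ?_⟩
  · intro x
    rw [Complex.norm_real, Real.norm_of_nonneg (Real.rpow_nonneg (norm_nonneg _) _)]
    exact Real.rpow_le_rpow (norm_nonneg _) (PW.norm_le (u s) x) hα.le
  · intro s0 hs0
    have hcont := hu s0 hs0
    rw [Metric.continuousWithinAt_iff] at hcont ⊢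
    intro ε hε
    have huc := (isCompact_Icc (a := (0:ℝ)) (b := ‖u s0‖ + 1)).uniformContinuousOn_of_continuous
      (f := fun r : ℝ => r ^ α)
      ((Real.continuous_rpow_const hα.le).continuousOn)
    rw [Metric.uniformContinuousOn_iff] at huc
    obtain ⟨η, hη, hη'⟩ := huc (ε / 2) (by positivity)
    obtain ⟨δ, hδ, hδ'⟩ := hcont (min η 1) (lt_min hη one_pos)
    refine ⟨δ, hδ, fun s hs hsd => ?_⟩
    have h1 := hδ' hs hsd
    rw [dist_eq_norm] at h1
    refine lt_of_le_of_lt ?_ (half_lt_self hε)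
    rw [BoundedContinuousFunction.dist_le (by positivity)]
    intro x
    have h2 : ‖u s x - u s0 x‖ ≤ ‖u s - u s0‖ := by
      have := PW.norm_le (u s - u s0) x
      rwa [ZeroAtInftyContinuousMap.sub_apply] at this
    have h3 : ‖u s x‖ ≤ ‖u s0‖ + 1 := by
      have h4 : ‖u s x‖ ≤ ‖u s0 x‖ + ‖u s x - u s0 x‖ := by
        have := norm_add_le (u s0 x) (u s x - u s0 x)
        rwa [add_sub_cancel] at this
      have h5 := PW.norm_le (u s0) x
      have h6 := lt_of_lt_of_le h1 (min_le_right _ _)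
      linarith
    have h7 : ‖u s0 x‖ ≤ ‖u s0‖ + 1 := by
      have h5 := PW.norm_le (u s0) x
      linarith
    have h8 : dist ‖u s x‖ ‖u s0 x‖ < η := by
      rw [Real.dist_eq]
      refine lt_of_le_of_lt ((abs_norm_sub_norm_le _ _).trans h2) ?_
      exact lt_of_lt_of_le h1 (min_le_left _ _)
    have h9 := hη' _ ⟨norm_nonneg _, h3⟩ _ ⟨norm_nonneg _, h7⟩ h8
    simp only [BoundedContinuousFunction.coe_ofNormedAddCommGroup]
    rw [dist_eq_norm, ← Complex.ofReal_sub, Complex.norm_real]
    rw [dist_eq_norm] at h9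
    exact h9.le
  · intro s x
    rfl

end Pool.Agent.Q73.GL
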