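import Pool.Agent.Q73.GL.Stm

set_option autoImplicit false

/-!
Project GL, job RL: the ordinary differential inequality. The function `f / h` decreases at the
rate `c1 (κ - 1)`.
-/

namespace Pool.Agent.Q73.GL

open Set Filter Topology

namespace RL

theorem local_step {κ c1 ε A C p r d : ℝ} (hκ : 1 < κ) (_hc1 : 0 < c1) (hε : 0 < ε) (hε1 : ε < 1)
    (hA : 0 < A) (hAC : A ≤ C) (hp : 0 < p) (hpr : p ≤ r) (_hd : 0 ≤ d)
    (h2 : c1 * p * d ≤ C - A) (h3 : κ * p * (C - A) ≤ C * (r - p))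
    (h4 : κ ^ 2 * (C - A) ≤ (κ - 1) * ε * C) :
    c1 * (κ - 1) * (1 - ε) * d ≤ A / p - C / r := by
  have hC : 0 < C := lt_of_lt_of_le hA hAC
  have hr : 0 < r := lt_of_lt_of_le hp hpr
  have hu : 0 ≤ C - A := sub_nonneg.2 hAC
  have hQ : 0 < C + κ * (C - A) := by positivity
  -- bound of `C / r`
  have h5 : C / r ≤ C ^ 2 / (p * (C + κ * (C - A))) := by
    rw [div_le_div_iff₀ hr (by positivity)]
    have : p * (C + κ * (C - A)) ≤ C * r := by linarith
    nlinarith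
  have h6 : A / p - C ^ 2 / (p * (C + κ * (C - A))) =
      ((C - A) / p) * ((κ * A - C) / (C + κ * (C - A))) := by
    field_simp
    ring
  have h7 : (κ - 1) * (1 - ε) ≤ (κ * A - C) / (C + κ * (C - A)) := by
    rw [le_div_iff₀ hQ]
    have : 0 ≤ (κ - 1) * ε * (κ * (C - A)) :=
      mul_nonneg (mul_nonneg (by linarith) hε.le) (mul_nonneg (by linarith) hu)
    nlinarith
  have h8 : c1 * d ≤ (C - A) / p := by
    rw [le_div_iff₀ hp]
    linarith
  have h9 : 0 ≤ (κ - 1) * (1 - ε) := mul_nonneg (by linarith) (by linarith)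
  have h10 : (c1 * d) * ((κ - 1) * (1 - ε)) ≤
      ((C - A) / p) * ((κ * A - C) / (C + κ * (C - A))) :=
    mul_le_mul h8 h7 h9 (by positivity)
  calc c1 * (κ - 1) * (1 - ε) * d = (c1 * d) * ((κ - 1) * (1 - ε)) := by ring
    _ ≤ A / p - C ^ 2 / (p * (C + κ * (C - A))) := by rw [h6]; exact h10
    _ ≤ A / p - C / r := by linarith

theorem chain {t1 t2 η k : ℝ} {W : ℝ → ℝ} (hη : 0 < η)
    (h : ∀ a c, t1 ≤ a → a ≤ c → c ≤ t2 → c - a < η → k * (c - a) ≤ W a - W c) :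
    ∀ n : ℕ, ∀ a c, t1 ≤ a → a ≤ c → c ≤ t2 → c - a ≤ n * (η / 2) →
      k * (c - a) ≤ W a - W c := by
  intro n
  induction n with
  | zero =>
    intro a c h1 h2 h3 h4
    refine h a c h1 h2 h3 ?_
    push_cast at h4
    linarith
  | succ n ih =>
    intro a c h1 h2 h3 h4
    push_cast at h4
    by_cases h5 : c - a ≤ n * (η / 2)
    · exact ih a c h1 h2 h3 h5
    · push Not at h5
      have h6 : 0 ≤ (n : ℝ) * (η / 2) := by positivity
      obtain ⟨m, hm⟩ : ∃ m, m = a + n * (η / 2) := ⟨_, rfl⟩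
      have h7 := ih a m h1 (by rw [hm]; linarith) (by rw [hm]; linarith) (by rw [hm]; linarith)
      have h8 := h m c (by rw [hm]; linarith) (by rw [hm]; linarith) h3 (by rw [hm]; linarith)
      have h9 : k * (c - a) = k * (m - a) + k * (c - m) := by ring
      linarith

end RL

/-- JOB RL -/
theorem t_RL : S_RL := by
  intro κ c1 t1 t2 f h hκ hc1 ht hf hf1 hh1 hmono h2 h3
  have hhpos : ∀ a, t1 ≤ a → a ≤ t2 → 0 < h a := fun a h1 h2 =>
    lt_of_lt_of_le hh1 (hmono t1 a le_rfl h1 h2)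
  have hfmono : ∀ a c, t1 ≤ a → a ≤ c → c ≤ t2 → f a ≤ f c := by
    intro a c h1 h4 h5
    have h6 := h2 a c h1 h4 h5
    have h7 : 0 ≤ c1 * h a * (c - a) :=
      mul_nonneg (mul_nonneg hc1.le (hhpos a h1 (h4.trans h5)).le) (by linarith)
    linarith
  have hfpos : ∀ a, t1 ≤ a → a ≤ t2 → f t1 ≤ f a := fun a h1 h2 => hfmono t1 a le_rfl h1 h2
  -- for every `ε`
  have main : ∀ ε : ℝ, 0 < ε → ε < 1 → c1 * (κ - 1) * (1 - ε) * (t2 - t1) ≤ f t1 / h t1 := by
    intro ε hε hε1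
    have huc := isCompact_Icc.uniformContinuousOn_of_continuous hf
    rw [Metric.uniformContinuousOn_iff] at huc
    obtain ⟨ω, hω⟩ : ∃ ω, ω = (κ - 1) * ε * f t1 / κ ^ 2 := ⟨_, rfl⟩
    have hω0 : 0 < ω := by
      rw [hω]
      exact div_pos (mul_pos (mul_pos (by linarith) hε) hf1) (by positivity)
    obtain ⟨η, hη, hη'⟩ := huc ω hω0
    have hstep : ∀ a c, t1 ≤ a → a ≤ c → c ≤ t2 → c - a < η →
        c1 * (κ - 1) * (1 - ε) * (c - a) ≤ f a / h a - f c / h c := by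
      intro a c h4 h5 h6 h7
      have h8 := hη' a ⟨h4, h5.trans h6⟩ c ⟨h4.trans h5, h6⟩ (by
        rw [Real.dist_eq, abs_sub_comm, abs_of_nonneg (by linarith)]
        exact h7)
      rw [Real.dist_eq, abs_sub_comm, abs_of_nonneg (by linarith [hfmono a c h4 h5 h6])] at h8
      refine RL.local_step hκ hc1 hε hε1 (lt_of_lt_of_le hf1 (hfpos a h4 (h5.trans h6)))
        (hfmono a c h4 h5 h6) (hhpos a h4 (h5.trans h6)) (hmono a c h4 h5 h6) (by linarith)
        (h2 a c h4 h5 h6) (h3 a c h4 h5 h6) ?_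
      have h9 : κ ^ 2 * ω = (κ - 1) * ε * f t1 := by
        rw [hω]
        field_simp
      have h10 : (κ - 1) * ε * f t1 ≤ (κ - 1) * ε * f c :=
        mul_le_mul_of_nonneg_left (hfpos c (h4.trans h5) h6)
          (mul_nonneg (by linarith) hε.le)
      have h11 : κ ^ 2 * (f c - f a) ≤ κ ^ 2 * ω :=
        mul_le_mul_of_nonneg_left h8.le (by positivity)
      linarith
    obtain ⟨n, hn⟩ := exists_nat_ge ((t2 - t1) / (η / 2))
    have h4 := RL.chain (W := fun t => f t / h t) hη hstep n t1 t2 le_rfl ht.le le_rfl (by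
      rw [div_le_iff₀ (by positivity)] at hn
      exact hn)
    have h5 : 0 ≤ f t2 / h t2 :=
      div_nonneg (hf1.le.trans (hfpos t2 ht.le le_rfl)) (hhpos t2 ht.le le_rfl).le
    linarith
  have hlim : Tendsto (fun ε : ℝ => c1 * (κ - 1) * (1 - ε) * (t2 - t1)) (𝓝[>] 0)
      (𝓝 (c1 * (κ - 1) * (1 - 0) * (t2 - t1))) := by
    refine Tendsto.mono_left (Continuous.tendsto (by fun_prop) 0) nhdsWithin_le_nhds
  have hle : c1 * (κ - 1) * (1 - 0) * (t2 - t1) ≤ f t1 / h t1 := by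
    refine le_of_tendsto hlim ?_
    filter_upwards [Ioo_mem_nhdsGT (show (0:ℝ) < 1 by norm_num)] with ε hε
    exact main ε hε.1 hε.2
  have hk : 0 < c1 * (κ - 1) := mul_pos hc1 (by linarith)
  rw [le_div_iff₀ (mul_pos hk hh1)]
  rw [le_div_iff₀ hh1] at hle
  linarith

end Pool.Agent.Q73.GL
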