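import Pool.Agent.Q73.GL.Stm

set_option autoImplicit false

/-!
Project GL (helper73), job SM (helper123): small times and large `γ`.
-/

namespace Pool.Agent.Q73.GL.SM

open MeasureTheory Set Filter Topology
open scoped ZeroAtInfty InnerProductSpace Real BoundedContinuousFunction

theorem norm_c_le {N : ℕ} (p : XT N) (x : E N) : ‖p.c x‖ ≤ ‖p.c‖ := by
  rw [← ZeroAtInftyContinuousMap.norm_toBCF_eq_norm]
  exact BoundedContinuousFunction.norm_coe_le_norm p.c.toBCF x

theorem norm_c_le_norm {N : ℕ} (p : XT N) (x : E N) : ‖p.c x‖ ≤ ‖p‖ :=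
  (norm_c_le p x).trans (by rw [XT.norm_eq]; exact le_max_left _ _)

/-- the norm of the nonlinearity -/
theorem norm_g_le {N : ℕ} {α c : ℝ} (hα : 0 < α) (hc : 0 ≤ c) (p h : XT N)
    (hh : ∀ x, h.c x = ((c * ‖p.c x‖ ^ α : ℝ) : ℂ) * p.c x) :
    ‖h‖ ≤ c * ‖p‖ ^ α * ‖p‖ := by
  have hC : 0 ≤ c * ‖p‖ ^ α := mul_nonneg hc (Real.rpow_nonneg (norm_nonneg _) _)
  have h1 : ∀ x, ‖h.c x‖ ≤ c * ‖p‖ ^ α * ‖p.c x‖ := by
    intro x
    rw [hh, norm_mul, Complex.norm_real, Real.norm_of_nonneg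
      (mul_nonneg hc (Real.rpow_nonneg (norm_nonneg _) _))]
    exact mul_le_mul_of_nonneg_right (mul_le_mul_of_nonneg_left
      (Real.rpow_le_rpow (norm_nonneg _) (norm_c_le_norm p x) hα.le) hc) (norm_nonneg _)
  rw [XT.norm_eq h]
  refine max_le ?_ ?_
  · rw [← ZeroAtInftyContinuousMap.norm_toBCF_eq_norm]
    refine (BoundedContinuousFunction.norm_le (mul_nonneg hC (norm_nonneg _))).2 fun x => ?_
    exact (h1 x).trans (mul_le_mul_of_nonneg_left (norm_c_le_norm p x) hC)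
  · have h2 : ‖h.l‖ ≤ c * ‖p‖ ^ α * ‖p.l‖ := by
      refine Lp.norm_le_mul_norm_of_ae_le_mul ?_
      filter_upwards [h.ae, p.ae] with x h3 h4
      rw [h3, h4]
      exact h1 x
    exact h2.trans (mul_le_mul_of_nonneg_left (by rw [XT.norm_eq]; exact le_max_right _ _) hC)

theorem norm_ei (θ : ℝ) : ‖ei θ‖ = 1 := by
  unfold ei
  exact Complex.norm_exp_ofReal_mul_I θ

/-- a first exit time argument -/
theorem stay {b η : ℝ} {f : ℝ → ℝ} (hf : ContinuousOn f (Icc 0 b)) (h0 : f 0 < η)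
    (h : ∀ t ∈ Icc 0 b, (∀ s ∈ Icc 0 t, f s ≤ η) → f t < η) : ∀ t ∈ Icc 0 b, f t ≤ η := by
  by_contra hcon
  push Not at hcon
  obtain ⟨t, ht, hlt⟩ := hcon
  have hK : IsCompact (Icc 0 b ∩ f ⁻¹' Ici η) :=
    isCompact_Icc.of_isClosed_subset (hf.preimage_isClosed_of_isClosed isClosed_Icc isClosed_Ici)
      inter_subset_left
  obtain ⟨m, ⟨hm1, hm2⟩, hm3⟩ := hK.exists_isLeast ⟨t, ht, hlt.le⟩
  have hm2' : η ≤ f m := hm2
  have hsub : Icc 0 m ⊆ Icc 0 b := Icc_subset_Icc_right hm1.2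
  have h1 : ∀ s ∈ Icc 0 m, f s ≤ η := by
    intro s hs
    rcases lt_or_ge (f s) η with h2 | h2
    · exact h2.le
    · -- then `s = m`
      have h3 : m ≤ s := hm3 ⟨hsub hs, h2⟩
      have h4 : s = m := le_antisymm hs.2 h3
      subst h4
      obtain ⟨c, hc1, hc2⟩ := intermediate_value_Icc hs.1 (hf.mono hsub) ⟨h0.le, h2⟩
      have h5 : s ≤ c := hm3 ⟨hsub hc1, (le_of_eq hc2.symm : η ≤ f c)⟩
      have h6 : c = s := le_antisymm hc1.2 h5
      rw [← h6, hc2]
  exact absurd (h m hm1 h1) (not_lt.2 hm2')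

end Pool.Agent.Q73.GL.SM

namespace Pool.Agent.Q73.GL

open MeasureTheory Set Filter Topology
open scoped ZeroAtInfty InnerProductSpace Real BoundedContinuousFunction

theorem t_SM' (hpot : S_POT) : S_SM := by
  intro N θ M TX hSG α x0 hα hx0
  obtain ⟨-, -, hpc, hpp⟩ := hpot N α hα
  have hM1 : 1 ≤ M := hSG.one_le
  have hM0 : 0 < M := by linarith
  have hn0 : 0 < ‖x0‖ := norm_pos_iff.2 hx0
  set R : ℝ := 2 * M * ‖x0‖ with hR
  have hR2 : 2 * ‖x0‖ ≤ R := by
    rw [hR]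
    nlinarith
  have hR0 : 0 < R := by linarith
  refine ⟨R ^ 2 + 1, by positivity, fun B τ hτ => ?_⟩
  set P : ℝ := pot α x0 with hP
  have hP0 : 0 < P := hpp x0 hx0
  set Q : ℝ := 2 + 2 * |B| / P with hQ
  have hQ1 : 1 < Q := by
    have : 0 ≤ 2 * |B| / P := by positivity
    rw [hQ]
    linarith
  set L : ℝ := Real.log Q / α with hL
  have hL0 : 0 < L := div_pos (Real.log_pos hQ1) hα
  have hLQ : Real.exp (α * L) = Q := by
    rw [hL, mul_div_cancel₀ _ hα.ne', Real.exp_log (by linarith)]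
  have hQB : B ≤ P / 2 * (Q - 1) := by
    have h1 : P / 2 * (Q - 1) = P / 2 + |B| := by
      rw [hQ]
      field_simp
      ring
    rw [h1]
    have := le_abs_self B
    linarith
  -- the neighbourhood
  obtain ⟨δ, hδ0, hδ⟩ : ∃ δ : ℝ, 0 < δ ∧ ∀ y : XT N, ‖y - x0‖ < δ → P / 2 ≤ pot α y := by
    have h1 : ∀ᶠ y in 𝓝 x0, P / 2 < pot α y :=
      (hpc.tendsto x0).eventually_const_lt (by linarith)
    obtain ⟨δ, hδ0, hδ⟩ := Metric.eventually_nhds_iff.1 h1
    exact ⟨δ, hδ0, fun y hy => (hδ (by rw [dist_eq_norm]; exact hy)).le⟩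
  set η : ℝ := min (δ / 2) (‖x0‖ / 4) with hη
  have hη0 : 0 < η := lt_min (by linarith) (by linarith)
  have hηδ : η < δ := (min_le_left _ _).trans_lt (by linarith)
  have hηx : η ≤ ‖x0‖ / 4 := min_le_right _ _
  obtain ⟨τ', hτ0, hτ'⟩ : ∃ τ' : ℝ, 0 < τ' ∧ ∀ t, 0 ≤ t → t < τ' → ‖TX t x0 - x0‖ < η / 2 := by
    have h1 : ContinuousWithinAt (fun t => TX t x0) (Ici 0) 0 := hSG.cont x0 0 self_mem_Ici
    obtain ⟨r, hr0, hr⟩ := Metric.continuousWithinAt_iff.1 h1 (η / 2) (by linarith)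
    refine ⟨r, hr0, fun t ht0 ht => ?_⟩
    have h2 := hr (x := t) ht0 (by rw [Real.dist_eq, sub_zero, abs_of_nonneg ht0]; exact ht)
    rw [dist_eq_norm, hSG.zero] at h2
    exact h2
  set D : ℝ := M * (Q * R ^ α * R) with hD
  have hD0 : 0 ≤ D := by
    have : 0 ≤ R ^ α := Real.rpow_nonneg hR0.le _
    positivity
  set κ : ℝ := min (min τ (τ' / 2)) (η / (4 * (D + 1))) with hκ
  have hκ0 : 0 < κ := lt_min (lt_min hτ (by linarith)) (by positivity)
  refine ⟨L / κ, div_pos hL0 hκ0, fun γ hγ => ?_⟩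
  have hγ0 : 0 < γ := (div_pos hL0 hκ0).trans hγ
  have hLγ : L / γ < κ := by
    rw [div_lt_iff₀ hγ0]
    rw [div_lt_iff₀ hκ0] at hγ
    linarith
  have ht0 : 0 < L / γ := div_pos hL0 hγ0
  set t1 : ℝ := L / γ with ht1
  have htγ : α * γ * t1 = α * L := by
    rw [ht1]
    field_simp
  have hκτ : κ ≤ τ := (min_le_left _ _).trans (min_le_left _ _)
  have hκτ' : κ ≤ τ' / 2 := (min_le_left _ _).trans (min_le_right _ _)
  have hκD : κ * D ≤ η / 4 := by
    have h1 : κ ≤ η / (4 * (D + 1)) := min_le_right _ _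
    have h2 : κ * (4 * (D + 1)) ≤ η := by
      rwa [le_div_iff₀ (by positivity)] at h1
    nlinarith
  refine ⟨t1, ht0, (hLγ.le.trans hκτ), fun T V g hT hs => ?_⟩
  have hsub : Icc 0 t1 ⊆ Icc 0 T := Icc_subset_Icc_right hT
  have hV : ContinuousOn V (Icc 0 t1) := hs.contV.mono hsub
  have hexp : ∀ s ≤ t1, Real.exp (α * γ * s) ≤ Q := by
    intro s hs'
    rw [← hLQ, ← htγ]
    exact Real.exp_le_exp.2 (mul_le_mul_of_nonneg_left hs' (mul_pos hα hγ0).le)
  -- the solution stays near the initial value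
  have hstay : ∀ t ∈ Icc 0 t1, ‖V t - x0‖ ≤ η := by
    refine SM.stay (hV.sub continuousOn_const).norm ?_ ?_
    · rw [hs.init, sub_self, norm_zero]
      exact hη0
    · intro t ht hle
      have h1 : ∀ s ∈ uIoc 0 t, ‖TX (t - s) (ei θ • g s)‖ ≤ D := by
        intro s hs'
        rw [uIoc_of_le ht.1] at hs'
        have hs0 : 0 ≤ s := hs'.1.le
        have h2 : ‖V s - x0‖ ≤ η := hle s ⟨hs0, hs'.2⟩
        have h3 : ‖V s‖ ≤ R := by
          have h4 : ‖V s‖ ≤ ‖V s - x0‖ + ‖x0‖ := by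
            have := norm_add_le (V s - x0) x0
            rwa [sub_add_cancel] at this
          linarith
        have h5 : ‖g s‖ ≤ Real.exp (α * γ * s) * ‖V s‖ ^ α * ‖V s‖ :=
          SM.norm_g_le hα (Real.exp_pos _).le (V s) (g s)
            (hs.g_eq s (hsub ⟨hs0, hs'.2.trans ht.2⟩))
        have h6 : ‖g s‖ ≤ Q * R ^ α * R := by
          refine h5.trans ?_
          refine mul_le_mul (mul_le_mul (hexp s (hs'.2.trans ht.2))
            (Real.rpow_le_rpow (norm_nonneg _) h3 hα.le) (Real.rpow_nonneg (norm_nonneg _) _)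
            (by linarith)) h3 (norm_nonneg _) ?_
          exact mul_nonneg (by linarith) (Real.rpow_nonneg hR0.le _)
        calc ‖TX (t - s) (ei θ • g s)‖ ≤ ‖TX (t - s)‖ * ‖ei θ • g s‖ :=
              ContinuousLinearMap.le_opNorm _ _
          _ ≤ M * (Q * R ^ α * R) := by
              refine mul_le_mul (hSG.bd _ (by linarith [hs'.2])) ?_ (norm_nonneg _) hM0.le
              rw [norm_smul, SM.norm_ei, one_mul]
              exact h6
      have h7 := intervalIntegral.norm_integral_le_of_norm_le_const h1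
      rw [sub_zero, abs_of_nonneg ht.1] at h7
      have h8 : ‖TX t x0 - x0‖ < η / 2 :=
        hτ' t ht.1 (by linarith [ht.2])
      have h9 : V t - x0 = (TX t x0 - x0) + ∫ s in (0 : ℝ)..t, TX (t - s) (ei θ • g s) := by
        rw [hs.eq t (hsub ht)]
        abel
      have h10 : D * t ≤ κ * D := by
        rw [mul_comm]
        exact mul_le_mul_of_nonneg_right (ht.2.trans hLγ.le) hD0
      rw [h9]
      refine (norm_add_le _ _).trans_lt ?_
      linarith
  constructor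
  · have h1 : ∀ s ∈ Icc 0 t1, α * γ * Real.exp (α * γ * s) * (P / 2) ≤
        α * γ * Real.exp (α * γ * s) * pot α (V s) := by
      intro s hs'
      refine mul_le_mul_of_nonneg_left (hδ _ ((hstay s hs').trans_lt hηδ)) ?_
      have := (Real.exp_pos (α * γ * s)).le
      positivity
    have h2 : ∫ s in (0 : ℝ)..t1, α * γ * Real.exp (α * γ * s) * (P / 2) = P / 2 * (Q - 1) := by
      have h3 : ∀ s ∈ uIcc 0 t1, HasDerivAt (fun s : ℝ => P / 2 * Real.exp (α * γ * s))
          (α * γ * Real.exp (α * γ * s) * (P / 2)) s := by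
        intro s _
        have h4 : HasDerivAt (fun s : ℝ => α * γ * s) (α * γ) s := by
          simpa using (hasDerivAt_id s).const_mul (α * γ)
        have h5 := (h4.exp).const_mul (P / 2)
        refine h5.congr_deriv ?_
        ring
      have hint : IntervalIntegrable (fun s : ℝ => α * γ * Real.exp (α * γ * s) * (P / 2)) volume 0 t1 :=
        Continuous.intervalIntegrable (by fun_prop) _ _
      rw [intervalIntegral.integral_eq_sub_of_hasDerivAt h3 hint]
      simp only [mul_zero, Real.exp_zero, htγ, hLQ]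
      ring
    refine hQB.trans ?_
    rw [← h2]
    refine intervalIntegral.integral_mono_on ht0.le ?_ ?_ h1
    · exact Continuous.intervalIntegrable (by fun_prop) _ _
    · refine ContinuousOn.intervalIntegrable ?_
      rw [uIcc_of_le ht0.le]
      refine ContinuousOn.mul (by fun_prop) ?_
      exact hpc.comp_continuousOn hV
  · have h1 : ‖(V t1).l‖ ≤ R := by
      have h2 : ‖(V t1).l‖ ≤ ‖V t1‖ := by
        rw [XT.norm_eq]
        exact le_max_right _ _
      have h3 : ‖V t1 - x0‖ ≤ η := hstay t1 ⟨ht0.le, le_rfl⟩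
      have h4 : ‖V t1‖ ≤ ‖V t1 - x0‖ + ‖x0‖ := by
        have := norm_add_le (V t1 - x0) x0
        rwa [sub_add_cancel] at this
      linarith
    have h5 : ‖(V t1).l‖ ^ 2 ≤ R ^ 2 := pow_le_pow_left₀ (norm_nonneg _) h1 2
    linarith

theorem t_SM (_v1 : S_V1) (hpot : S_POT) : S_SM := t_SM' hpot

end Pool.Agent.Q73.GL
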