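import Mathlib

set_option autoImplicit false

/-!
Project GL (helper73): full answer of MP_b98ad5_an.
Blow-up for large `γ` of the complex Ginzburg-Landau equation
`u_t = e^{iθ} [Δ u + |u|^α u] + γ u` on `R^N`, for every nonzero initial value in `C_0 ∩ H^1`.

Idea: `v = e^{-γ t} u` solves `v_t = e^{iθ} [Δ v + e^{αγt} |v|^α v]`; the energy
`K(v) - e^{αγt} ∫ |v|^(α+2) / (α+2)` decreases, and on the time interval `[0, log A / γ]` it decreases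
by about `(A^α - 1) ∫ |u_0|^(α+2) / (α+2)`, so it becomes negative; then the convexity argument
(`f = ‖v‖₂²`) gives blow-up.
-/

namespace Pool.Agent.Q73.GL

open MeasureTheory Set Filter Topology FourierTransform
open scoped ZeroAtInfty InnerProductSpace Real BoundedContinuousFunction SchwartzMap

/-! ### Objects -/

/-- `R^N` -/
abbrev E (N : ℕ) : Type := EuclideanSpace ℝ (Fin N)

/-- `L^2(R^N)` -/
abbrev L2 (N : ℕ) : Type := Lp ℂ 2 (volume : Measure (E N))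

/-- `e^{iθ}` -/
noncomputable def ei (θ : ℝ) : ℂ := Complex.exp ((θ : ℂ) * Complex.I)

/-- The kernel of `exp (t e^{iθ} Δ)`, `t > 0`. -/
noncomputable def G (N : ℕ) (θ t : ℝ) (x : E N) : ℂ :=
  (4 * (π : ℂ) * (t : ℂ) * ei θ) ^ (-(N : ℂ) / 2) *
    Complex.exp (-((‖x‖ : ℂ) ^ 2) / (4 * (t : ℂ) * ei θ))

/-- `e^{iθ} |z|^α z + γ z` -/
noncomputable def nl (θ α γ : ℝ) (z : ℂ) : ℂ := ei θ * (((‖z‖ ^ α : ℝ) : ℂ) * z) + (γ : ℂ) * z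

/-- `u` is a mild solution on `[0, T]`, in `C([0,T], C_0)`, with initial value `u0`. -/
structure IsMild {N : ℕ} (θ α γ T : ℝ) (u0 : C₀(E N, ℂ)) (u : ℝ → C₀(E N, ℂ)) : Prop where
  /-- continuity in the sup norm -/
  cont : ContinuousOn u (Icc 0 T)
  /-- the initial value -/
  init : u 0 = u0
  /-- Duhamel's formula -/
  duhamel : ∀ t : ℝ, 0 < t → t ≤ T → ∀ x : E N,
    u t x = (∫ y, G N θ t (x - y) * u0 y) +
      ∫ s in (0 : ℝ)..t, ∫ y, G N θ (t - s) (x - y) * nl θ α γ (u s y)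

/-- membership of a function in `H^1` -/
def InH1 {N : ℕ} (b : L2 N) : Prop :=
  TemperedDistribution.MemSobolev 1 2 (b : 𝓢'(E N, ℂ))

/-! ### Fourier multipliers on `L^2` -/

theorem memLp_mul {N : ℕ} {m : E N → ℂ} (hm : Measurable m) {C : ℝ} (hC : ∀ ξ, ‖m ξ‖ ≤ C)
    (f : L2 N) : MemLp (fun ξ => m ξ * f ξ) 2 volume := by
  refine MemLp.of_le_mul (c := C) (Lp.memLp f) (hm.aestronglyMeasurable.mul
    (Lp.aestronglyMeasurable f)) ?_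
  filter_upwards with ξ
  rw [norm_mul]
  exact mul_le_mul_of_nonneg_right (hC ξ) (norm_nonneg _)

open Classical in
/-- multiplication by a bounded measurable function, as a map -/
noncomputable def mulFun {N : ℕ} (m : E N → ℂ) (f : L2 N) : L2 N :=
  if h : Measurable m ∧ ∃ C : ℝ, ∀ ξ, ‖m ξ‖ ≤ C then
    (memLp_mul h.1 h.2.choose_spec f).toLp _ else 0

theorem mulFun_coe {N : ℕ} {m : E N → ℂ} (hm : Measurable m) {C : ℝ} (hC : ∀ ξ, ‖m ξ‖ ≤ C)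
    (f : L2 N) : (mulFun m f : E N → ℂ) =ᵐ[volume] fun ξ => m ξ * f ξ := by
  have h : Measurable m ∧ ∃ C : ℝ, ∀ ξ, ‖m ξ‖ ≤ C := ⟨hm, C, hC⟩
  unfold mulFun
  rw [dif_pos h]
  exact MemLp.coeFn_toLp _

theorem mulFun_norm {N : ℕ} {m : E N → ℂ} (hm : Measurable m) {C : ℝ} (hC0 : 0 ≤ C)
    (hC : ∀ ξ, ‖m ξ‖ ≤ C) (f : L2 N) : ‖mulFun m f‖ ≤ C * ‖f‖ := by
  refine Lp.norm_le_mul_norm_of_ae_le_mul ?_
  filter_upwards [mulFun_coe hm hC f] with ξ h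
  rw [h, norm_mul]
  exact mul_le_mul_of_nonneg_right (hC ξ) (norm_nonneg _)

open Classical in
/-- multiplication by a bounded measurable function, as an operator -/
noncomputable def mulL {N : ℕ} (m : E N → ℂ) : L2 N →L[ℂ] L2 N :=
  if h : Measurable m ∧ ∃ C : ℝ, ∀ ξ, ‖m ξ‖ ≤ C then
    LinearMap.mkContinuous
      { toFun := mulFun m
        map_add' := by
          intro f g
          refine Lp.ext ?_
          filter_upwards [mulFun_coe h.1 h.2.choose_spec (f + g), mulFun_coe h.1 h.2.choose_spec f,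
            mulFun_coe h.1 h.2.choose_spec g, Lp.coeFn_add f g,
            Lp.coeFn_add (mulFun m f) (mulFun m g)] with ξ h1 h2 h3 h4 h5
          rw [h1, h5, Pi.add_apply, h2, h3, h4, Pi.add_apply]
          ring
        map_smul' := by
          intro c f
          refine Lp.ext ?_
          filter_upwards [mulFun_coe h.1 h.2.choose_spec (c • f), mulFun_coe h.1 h.2.choose_spec f,
            Lp.coeFn_smul c f, Lp.coeFn_smul c (mulFun m f)] with ξ h1 h2 h4 h5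
          simp only [RingHom.id_apply]
          rw [h1, h5, Pi.smul_apply, h2, h4, Pi.smul_apply, smul_eq_mul, smul_eq_mul]
          ring }
      (max h.2.choose 0)
      (fun f => mulFun_norm h.1 (le_max_right _ _)
        (fun ξ => (h.2.choose_spec ξ).trans (le_max_left _ _)) f)
  else 0

/-- the Fourier multiplier with the bounded measurable symbol `m` -/
noncomputable def FM {N : ℕ} (m : E N → ℂ) : L2 N →L[ℂ] L2 N :=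
  ((Lp.fourierTransformₗᵢ (E N) ℂ).symm.toContinuousLinearEquiv : L2 N →L[ℂ] L2 N) ∘L mulL m ∘L
    ((Lp.fourierTransformₗᵢ (E N) ℂ).toContinuousLinearEquiv : L2 N →L[ℂ] L2 N)

/-- symbol of `exp (t e^{iθ} Δ)` -/
noncomputable def aS {N : ℕ} (θ t : ℝ) (ξ : E N) : ℂ :=
  Complex.exp (-((4 * π ^ 2 * t * ‖ξ‖ ^ 2 : ℝ) : ℂ) * ei θ)

/-- symbol of the truncation to frequencies at most `n` -/
noncomputable def aP {N : ℕ} (n : ℕ) (ξ : E N) : ℂ := if ‖ξ‖ ≤ n then 1 else 0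

/-- symbol of the truncated Laplacian -/
noncomputable def aA {N : ℕ} (n : ℕ) (ξ : E N) : ℂ :=
  if ‖ξ‖ ≤ n then -((4 * π ^ 2 * ‖ξ‖ ^ 2 : ℝ) : ℂ) else 0

/-- symbol of `exp (t e^{iθ} Δ_n)`, all real `t` -/
noncomputable def aR {N : ℕ} (θ : ℝ) (n : ℕ) (t : ℝ) (ξ : E N) : ℂ :=
  Complex.exp ((t : ℂ) * ei θ * aA n ξ)

/-! ### Abstract part: a Hilbert space with a negative self-adjoint operator and its truncations -/

/-- `P n` spectral projections, `A n` truncations of a negative self-adjoint operator `A`,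
`R n t = exp (t e^{iθ} A_n)` for real `t`, `S t = exp (t e^{iθ} A)` for `t ≥ 0`. -/
structure Tr (H : Type) [NormedAddCommGroup H] [InnerProductSpace ℂ H] (θ : ℝ) where
  P : ℕ → H →L[ℂ] H
  A : ℕ → H →L[ℂ] H
  R : ℕ → ℝ → H →L[ℂ] H
  S : ℝ → H →L[ℂ] H
  P_sa : ∀ n x y, ⟪P n x, y⟫_ℂ = ⟪x, P n y⟫_ℂ
  P_P : ∀ n x, P n (P n x) = P n x
  P_bd : ∀ n x, ‖P n x‖ ≤ ‖x‖
  P_lim : ∀ x, Tendsto (fun n => P n x) atTop (𝓝 x)
  A_sa : ∀ n x y, ⟪A n x, y⟫_ℂ = ⟪x, A n y⟫_ℂ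
  A_P : ∀ n x, A n (P n x) = A n x
  P_A : ∀ n x, P n (A n x) = A n x
  A_neg : ∀ n x, (⟪A n x, x⟫_ℂ).re ≤ 0
  A_anti : ∀ n x, (⟪A (n + 1) x, x⟫_ℂ).re ≤ (⟪A n x, x⟫_ℂ).re
  R_zero : ∀ n, R n 0 = ContinuousLinearMap.id ℂ H
  R_add : ∀ n s t, R n (s + t) = (R n s) ∘L (R n t)
  R_deriv : ∀ n t, HasDerivAt (R n) (ei θ • ((A n) ∘L (R n t))) t
  R_A : ∀ n t x, A n (R n t x) = R n t (A n x)
  R_P : ∀ n t x, P n (R n t x) = R n t (P n x)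
  S_P : ∀ n t x, 0 ≤ t → P n (S t x) = R n t (P n x)
  S_zero : S 0 = ContinuousLinearMap.id ℂ H
  S_add : ∀ s t x, 0 ≤ s → 0 ≤ t → S (s + t) x = S s (S t x)
  S_bd : ∀ t x, 0 ≤ t → ‖S t x‖ ≤ ‖x‖
  S_cont : ∀ x, ContinuousOn (fun t => S t x) (Ici 0)

/-- the derivative of `P n (V t)` -/
noncomputable def dv {H : Type} [NormedAddCommGroup H] [InnerProductSpace ℂ H] {θ : ℝ}
    (D : Tr H θ) (V g : ℝ → H) (n : ℕ) (s : ℝ) : H := ei θ • (D.A n (V s) + D.P n (g s))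

/-- truncated kinetic energy -/
noncomputable def Kn {H : Type} [NormedAddCommGroup H] [InnerProductSpace ℂ H] {θ : ℝ}
    (D : Tr H θ) (V : ℝ → H) (n : ℕ) (s : ℝ) : ℝ := -(1 / 2) * (⟪D.A n (V s), V s⟫_ℂ).re

/-- `V` solves `V' = e^{iθ} (A V + g)` on `[0, b]` in the mild sense -/
structure MildH {H : Type} [NormedAddCommGroup H] [InnerProductSpace ℂ H] {θ : ℝ}
    (D : Tr H θ) (b : ℝ) (V g : ℝ → H) : Prop where
  contV : ContinuousOn V (Icc 0 b)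
  contg : ContinuousOn g (Icc 0 b)
  eq : ∀ t ∈ Icc 0 b, V t = D.S t (V 0) + ∫ s in (0 : ℝ)..t, D.S (t - s) (ei θ • g s)

/-- JOB H1: the truncated equation. -/
def S_H1 : Prop := ∀ (H : Type) [NormedAddCommGroup H] [InnerProductSpace ℂ H] [CompleteSpace H]
  (θ : ℝ) (D : Tr H θ) (b : ℝ) (V g : ℝ → H), 0 ≤ b → MildH D b V g →
  ∀ n, ContinuousOn (dv D V g n) (Icc 0 b) ∧
    ∀ t ∈ Icc 0 b, D.P n (V t) = D.P n (V 0) + ∫ s in (0 : ℝ)..t, dv D V g n s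

/-- JOB H2: the two identities of the truncated equation. -/
def S_H2 : Prop := ∀ (H : Type) [NormedAddCommGroup H] [InnerProductSpace ℂ H] [CompleteSpace H]
  (θ : ℝ) (D : Tr H θ) (b : ℝ) (V g : ℝ → H), 0 ≤ b → MildH D b V g → ∀ n,
  (∀ a c, 0 ≤ a → a ≤ c → c ≤ b →
    Kn D V n c - Kn D V n a + Real.cos θ * ∫ s in a..c, ‖dv D V g n s‖ ^ 2 =
      ∫ s in a..c, (⟪g s, dv D V g n s⟫_ℂ).re) ∧
  (∀ a c, 0 ≤ a → a ≤ c → c ≤ b →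
    ‖D.P n (V c)‖ ^ 2 - ‖D.P n (V a)‖ ^ 2 =
      ∫ s in a..c, 2 * (Real.cos θ * (-2 * Kn D V n s + (⟪g s, D.P n (V s)⟫_ℂ).re) +
        Real.sin θ * (⟪g s, D.P n (V s)⟫_ℂ).im)) ∧
  (∀ s, -2 * Kn D V n s + (⟪g s, D.P n (V s)⟫_ℂ).re ≤ ‖dv D V g n s‖ * ‖D.P n (V s)‖)

/-- the hypotheses on the potential: `p t` is the value of a convex functional at `V t`, whose
derivative at `V t` is `exp (-lam t) • g t`; homogeneous of degree `be` -/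
structure PotH {H : Type} [NormedAddCommGroup H] [InnerProductSpace ℂ H]
    (b lam be : ℝ) (V g : ℝ → H) (p : ℝ → ℝ) : Prop where
  cont : ContinuousOn p (Icc 0 b)
  nonneg : ∀ t ∈ Icc 0 b, 0 ≤ p t
  conv : ∀ s ∈ Icc 0 b, ∀ t ∈ Icc 0 b,
    (⟪g s, V t - V s⟫_ℂ).re ≤ Real.exp (lam * s) * (p t - p s)
  homog : ∀ t ∈ Icc 0 b, ⟪g t, V t⟫_ℂ = ((be * Real.exp (lam * t) * p t : ℝ) : ℂ)

/-- JOB H3: uniform bound of the dissipation, limit of the work of `g`. -/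
def S_H3 : Prop := ∀ (H : Type) [NormedAddCommGroup H] [InnerProductSpace ℂ H] [CompleteSpace H]
  (θ : ℝ) (D : Tr H θ) (b lam be K0 : ℝ) (V g : ℝ → H) (p : ℝ → ℝ), 0 ≤ θ → θ < π / 2 →
  0 < b → 0 ≤ lam → MildH D b V g → PotH b lam be V g p → (∀ n, Kn D V n 0 ≤ K0) →
  (∃ C : ℝ, ∀ n, ∫ s in (0 : ℝ)..b, ‖dv D V g n s‖ ^ 2 ≤ C) ∧
  ∀ a c, 0 ≤ a → a ≤ c → c ≤ b → ∀ ε : ℝ, 0 < ε → ∀ᶠ n in atTop,
    ∫ s in a..c, (⟪g s, dv D V g n s⟫_ℂ).re ≤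
      Real.exp (lam * c) * p c - Real.exp (lam * a) * p a -
        (∫ s in a..c, lam * Real.exp (lam * s) * p s) + ε

/-- JOB H4: the energy lemma. -/
def S_H4 : Prop := ∀ (H : Type) [NormedAddCommGroup H] [InnerProductSpace ℂ H] [CompleteSpace H]
  (θ : ℝ) (D : Tr H θ) (b lam be K0 : ℝ) (V g : ℝ → H) (p : ℝ → ℝ), 0 ≤ θ → θ < π / 2 →
  0 < b → 0 ≤ lam → 2 < be → MildH D b V g → PotH b lam be V g p → (∀ n, Kn D V n 0 ≤ K0) →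
  ∃ En : ℝ → ℝ, En 0 ≤ K0 - p 0 ∧ (∀ t ∈ Icc 0 b, -(Real.exp (lam * t) * p t) ≤ En t) ∧
    (∀ a c, 0 ≤ a → a ≤ c → c ≤ b →
      En c + (∫ s in a..c, lam * Real.exp (lam * s) * p s) ≤ En a) ∧
    (∀ a c, 0 ≤ a → a ≤ c → c ≤ b →
      2 * be * Real.cos θ * (-En a) * (c - a) ≤ ‖V c‖ ^ 2 - ‖V a‖ ^ 2) ∧
    (∀ a c, 0 ≤ a → a ≤ c → c ≤ b → En a ≤ 0 →
      (‖V c‖ ^ 2 - ‖V a‖ ^ 2) ^ 2 ≤ 4 * Real.cos θ * ‖V c‖ ^ 2 * (c - a) * (En a - En c))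

/-- JOB RL: the ordinary differential inequality. -/
def S_RL : Prop := ∀ (κ c1 t1 t2 : ℝ) (f h : ℝ → ℝ), 1 < κ → 0 < c1 → t1 < t2 →
  ContinuousOn f (Icc t1 t2) → 0 < f t1 → 0 < h t1 →
  (∀ a c, t1 ≤ a → a ≤ c → c ≤ t2 → h a ≤ h c) →
  (∀ a c, t1 ≤ a → a ≤ c → c ≤ t2 → c1 * h a * (c - a) ≤ f c - f a) →
  (∀ a c, t1 ≤ a → a ≤ c → c ≤ t2 → κ * h a * (f c - f a) ≤ f c * (h c - h a)) →
  t2 - t1 ≤ f t1 / (c1 * (κ - 1) * h t1)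

/-! ### Abstract part: linear Volterra equations in Banach spaces -/

/-- a bounded strongly continuous family of operators, `T 0 = 1` -/
structure SG {X : Type} [NormedAddCommGroup X] [NormedSpace ℂ X] (M : ℝ) (T : ℝ → X →L[ℂ] X) :
    Prop where
  one_le : 1 ≤ M
  zero : T 0 = ContinuousLinearMap.id ℂ X
  bd : ∀ t, 0 ≤ t → ‖T t‖ ≤ M
  cont : ∀ x, ContinuousOn (fun t => T t x) (Ici 0)

/-- JOB V1 -/
def S_V1 : Prop := ∀ (X : Type) [NormedAddCommGroup X] [NormedSpace ℂ X] [CompleteSpace X]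
  (M : ℝ) (T : ℝ → X →L[ℂ] X) (b : ℝ) (φ : ℝ → X), SG M T → 0 ≤ b → ContinuousOn φ (Icc 0 b) →
  (∀ t ∈ Icc 0 b, ContinuousOn (fun s => T (t - s) (φ s)) (Icc 0 t)) ∧
  ContinuousOn (fun t => ∫ s in (0 : ℝ)..t, T (t - s) (φ s)) (Icc 0 b) ∧
  (∀ t ∈ Icc 0 b, ‖∫ s in (0 : ℝ)..t, T (t - s) (φ s)‖ ≤ M * ∫ s in (0 : ℝ)..t, ‖φ s‖)

/-- JOB V2: existence -/
def S_V2 : Prop := ∀ (X : Type) [NormedAddCommGroup X] [NormedSpace ℂ X] [CompleteSpace X]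
  (M : ℝ) (T : ℝ → X →L[ℂ] X) (b : ℝ) (q : ℝ → X →L[ℂ] X) (x0 : X), SG M T → 0 ≤ b →
  ContinuousOn q (Icc 0 b) →
  ∃ w : ℝ → X, ContinuousOn w (Icc 0 b) ∧
    ∀ t ∈ Icc 0 b, w t = T t x0 + ∫ s in (0 : ℝ)..t, T (t - s) (q s (w s))

/-- JOB V3: uniqueness -/
def S_V3 : Prop := ∀ (X : Type) [NormedAddCommGroup X] [NormedSpace ℂ X] [CompleteSpace X]
  (M : ℝ) (T : ℝ → X →L[ℂ] X) (b : ℝ) (q : ℝ → X →L[ℂ] X) (x0 : X) (w w' : ℝ → X), SG M T →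
  0 ≤ b → ContinuousOn q (Icc 0 b) → ContinuousOn w (Icc 0 b) → ContinuousOn w' (Icc 0 b) →
  (∀ t ∈ Icc 0 b, w t = T t x0 + ∫ s in (0 : ℝ)..t, T (t - s) (q s (w s))) →
  (∀ t ∈ Icc 0 b, w' t = T t x0 + ∫ s in (0 : ℝ)..t, T (t - s) (q s (w' s))) →
  ∀ t ∈ Icc 0 b, w t = w' t

/-- JOB V4: removing a multiple of the identity -/
def S_V4 : Prop := ∀ (X : Type) [NormedAddCommGroup X] [NormedSpace ℂ X] [CompleteSpace X]
  (M : ℝ) (T : ℝ → X →L[ℂ] X) (b γ : ℝ) (h w : ℝ → X) (x0 : X), SG M T →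
  (∀ s t x, 0 ≤ s → 0 ≤ t → T (s + t) x = T s (T t x)) → 0 ≤ b →
  ContinuousOn h (Icc 0 b) → ContinuousOn w (Icc 0 b) →
  (∀ t ∈ Icc 0 b, w t = T t x0 + ∫ s in (0 : ℝ)..t, T (t - s) (h s + (γ : ℂ) • w s)) →
  ∀ t ∈ Icc 0 b, ((Real.exp (-(γ * t)) : ℝ) : ℂ) • w t =
    T t x0 + ∫ s in (0 : ℝ)..t, T (t - s) (((Real.exp (-(γ * s)) : ℝ) : ℂ) • h s)

/-! ### Concrete part -/

/-- JOB KER: the kernel. -/
def S_KER : Prop := ∀ (N : ℕ) (θ : ℝ), 0 ≤ θ → θ < π / 2 → ∀ t : ℝ, 0 < t →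
  Continuous (G N θ t) ∧ Integrable (G N θ t) ∧
  (∫ x, ‖G N θ t x‖ = Real.cos θ ^ (-(N : ℝ) / 2)) ∧ (∫ x, G N θ t x = 1) ∧
  (∀ ξ : E N, 𝓕 (G N θ t) ξ = aS θ t ξ)

/-- JOB TC: the semigroup on `C_0`. -/
def S_TC : Prop := ∀ (N : ℕ) (θ : ℝ), 0 ≤ θ → θ < π / 2 →
  ∃ (M : ℝ) (TC : ℝ → C₀(E N, ℂ) →L[ℂ] C₀(E N, ℂ)), SG M TC ∧
    ∀ (t : ℝ) (a : C₀(E N, ℂ)) (x : E N), 0 < t → TC t a x = ∫ y, G N θ t (x - y) * a y

/-- JOB LINK: on `C_0 ∩ L^2` the convolution is the Fourier multiplier. -/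
def S_LINK : Prop := ∀ (N : ℕ) (θ : ℝ), 0 ≤ θ → θ < π / 2 →
  ∀ (t : ℝ) (a : C₀(E N, ℂ)) (b : L2 N), 0 < t → (b : E N → ℂ) =ᵐ[volume] a →
    (FM (aS θ t) b : E N → ℂ) =ᵐ[volume] fun x => ∫ y, G N θ t (x - y) * a y

/-- JOB FM: algebra of Fourier multipliers. -/
def S_FM : Prop := ∀ (N : ℕ),
  (∀ (m : E N → ℂ) (C : ℝ), Measurable m → 0 ≤ C → (∀ ξ, ‖m ξ‖ ≤ C) → ‖FM m‖ ≤ C) ∧
  (∀ (m m' : E N → ℂ) (C C' : ℝ), Measurable m → Measurable m' → (∀ ξ, ‖m ξ‖ ≤ C) →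
    (∀ ξ, ‖m' ξ‖ ≤ C') → ∀ f, FM m (FM m' f) = FM (fun ξ => m ξ * m' ξ) f) ∧
  (∀ (m m' : E N → ℂ) (C C' : ℝ), Measurable m → Measurable m' → (∀ ξ, ‖m ξ‖ ≤ C) →
    (∀ ξ, ‖m' ξ‖ ≤ C') → FM (fun ξ => m ξ + m' ξ) = FM m + FM m') ∧
  (∀ (m : E N → ℂ) (c : ℂ) (C : ℝ), Measurable m → (∀ ξ, ‖m ξ‖ ≤ C) →
    FM (fun ξ => c * m ξ) = c • FM m) ∧
  (FM (fun _ : E N => (1 : ℂ)) = ContinuousLinearMap.id ℂ (L2 N)) ∧
  (∀ (m : E N → ℂ) (C : ℝ), Measurable m → (∀ ξ, ‖m ξ‖ ≤ C) → ∀ f g : L2 N,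
    ⟪FM m f, g⟫_ℂ = ⟪f, FM (fun ξ => (starRingEnd ℂ) (m ξ)) g⟫_ℂ) ∧
  (∀ (m : E N → ℂ) (C : ℝ), Measurable m → (∀ ξ, ‖m ξ‖ ≤ C) → ∀ f g : L2 N,
    ⟪FM m f, g⟫_ℂ = ∫ ξ, (starRingEnd ℂ) (m ξ) *
      ((starRingEnd ℂ) ((𝓕 f : L2 N) ξ) * (𝓕 g : L2 N) ξ)) ∧
  (∀ (ι : Type) (l : Filter ι) [l.IsCountablyGenerated] (m : ι → E N → ℂ) (m0 : E N → ℂ) (C : ℝ),
    (∀ i, Measurable (m i)) → Measurable m0 → (∀ i ξ, ‖m i ξ‖ ≤ C) →
    (∀ ξ, Tendsto (fun i => m i ξ) l (𝓝 (m0 ξ))) → ∀ f,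
      Tendsto (fun i => FM (m i) f) l (𝓝 (FM m0 f)))

/-- JOB TR: the truncation structure on `L^2`. -/
def S_TR : Prop := ∀ (N : ℕ) (θ : ℝ), 0 ≤ θ → θ < π / 2 →
  ∃ D : Tr (L2 N) θ, (∀ n, D.P n = FM (aP n)) ∧ (∀ n, D.A n = FM (aA n)) ∧
    (∀ t, 0 ≤ t → D.S t = FM (aS θ t))

/-- JOB HH: functions in `H^1` have finite kinetic energy. -/
def S_HH : Prop := ∀ (N : ℕ) (b : L2 N), InH1 b →
  ∃ C : ℝ, ∀ n : ℕ, -(1 / 2) * (⟪FM (aA n) b, b⟫_ℂ).re ≤ C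

/-- the space `C_0 ∩ L^2` with the norm `max (sup norm, L^2 norm)` -/
def XS (N : ℕ) : Submodule ℂ (C₀(E N, ℂ) × L2 N) where
  carrier := {p | (p.2 : E N → ℂ) =ᵐ[volume] (p.1 : E N → ℂ)}
  add_mem' := by
    intro p q hp hq
    simp only [mem_ofPred_eq] at hp hq ⊢
    filter_upwards [hp, hq, Lp.coeFn_add p.2 q.2] with x h1 h2 h3
    rw [Prod.snd_add, h3, Pi.add_apply, h1, h2, Prod.fst_add]
    rfl
  zero_mem' := by
    simp only [mem_ofPred_eq]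
    filter_upwards [Lp.coeFn_zero ℂ 2 (volume : Measure (E N))] with x h1
    rw [Prod.snd_zero, h1, Prod.fst_zero]
    rfl
  smul_mem' := by
    intro c p hp
    simp only [mem_ofPred_eq] at hp ⊢
    filter_upwards [hp, Lp.coeFn_smul c p.2] with x h1 h3
    rw [Prod.smul_snd, h3, Pi.smul_apply, h1, Prod.smul_fst]
    rfl

theorem mem_XS {N : ℕ} (p : C₀(E N, ℂ) × L2 N) :
    p ∈ XS N ↔ (p.2 : E N → ℂ) =ᵐ[volume] (p.1 : E N → ℂ) := by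
  rw [← SetLike.mem_coe]
  unfold XS
  simp only [Submodule.coe_set_mk, AddSubmonoid.coe_set_mk, AddSubsemigroup.coe_set_mk,
    mem_ofPred_eq]

/-- the space `C_0 ∩ L^2` as a type (a `def`, so that only the two instances below are found) -/
def XT (N : ℕ) : Type := ↥(XS N)

noncomputable instance (N : ℕ) : NormedAddCommGroup (XT N) :=
  inferInstanceAs (NormedAddCommGroup (XS N))

noncomputable instance (N : ℕ) : NormedSpace ℂ (XT N) :=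
  inferInstanceAs (NormedSpace ℂ (XS N))

/-- the component in `C_0` -/
def XT.c {N : ℕ} (p : XT N) : C₀(E N, ℂ) := p.1.1

/-- the component in `L^2` -/
def XT.l {N : ℕ} (p : XT N) : L2 N := p.1.2

/-- an element of `C_0 ∩ L^2` from its two components -/
def XT.mk {N : ℕ} (a : C₀(E N, ℂ)) (b : L2 N) (h : (b : E N → ℂ) =ᵐ[volume] (a : E N → ℂ)) :
    XT N := ⟨(a, b), (mem_XS _).2 h⟩

theorem XT.ext' {N : ℕ} {p q : XT N} (h : p.c = q.c) : p = q := by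
  refine Subtype.ext (Prod.ext h (Lp.ext ?_))
  have h1 := (mem_XS _).1 p.2
  have h2 := (mem_XS _).1 q.2
  have h3 : p.1.1 = q.1.1 := h
  rw [h3] at h1
  exact h1.trans h2.symm

theorem XT.ae {N : ℕ} (p : XT N) : (p.l : E N → ℂ) =ᵐ[volume] (p.c : E N → ℂ) :=
  (mem_XS _).1 p.2

theorem XT.c_mk {N : ℕ} (a : C₀(E N, ℂ)) (b : L2 N)
    (h : (b : E N → ℂ) =ᵐ[volume] (a : E N → ℂ)) : (XT.mk a b h).c = a := rfl

theorem XT.l_mk {N : ℕ} (a : C₀(E N, ℂ)) (b : L2 N)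
    (h : (b : E N → ℂ) =ᵐ[volume] (a : E N → ℂ)) : (XT.mk a b h).l = b := rfl

theorem XT.c_add {N : ℕ} (p q : XT N) : (p + q).c = p.c + q.c := rfl

theorem XT.l_add {N : ℕ} (p q : XT N) : (p + q).l = p.l + q.l := rfl

theorem XT.c_sub {N : ℕ} (p q : XT N) : (p - q).c = p.c - q.c := rfl

theorem XT.l_sub {N : ℕ} (p q : XT N) : (p - q).l = p.l - q.l := rfl

theorem XT.c_smul {N : ℕ} (a : ℂ) (p : XT N) : (a • p).c = a • p.c := rfl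

theorem XT.l_smul {N : ℕ} (a : ℂ) (p : XT N) : (a • p).l = a • p.l := rfl

theorem XT.c_zero {N : ℕ} : (0 : XT N).c = 0 := rfl

theorem XT.l_zero {N : ℕ} : (0 : XT N).l = 0 := rfl

theorem XT.norm_eq {N : ℕ} (p : XT N) : ‖p‖ = max ‖p.c‖ ‖p.l‖ := rfl

/-- the `C_0` component as a continuous linear map -/
noncomputable def cL (N : ℕ) : XT N →L[ℂ] C₀(E N, ℂ) :=
  LinearMap.mkContinuous
    { toFun := XT.c, map_add' := fun _ _ => rfl, map_smul' := fun _ _ => rfl } 1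
    (fun p => by
      rw [one_mul, XT.norm_eq]
      exact le_max_left _ _)

/-- the `L^2` component as a continuous linear map -/
noncomputable def lL (N : ℕ) : XT N →L[ℂ] L2 N :=
  LinearMap.mkContinuous
    { toFun := XT.l, map_add' := fun _ _ => rfl, map_smul' := fun _ _ => rfl } 1
    (fun p => by
      rw [one_mul, XT.norm_eq]
      exact le_max_right _ _)

theorem cL_apply {N : ℕ} (p : XT N) : cL N p = p.c := rfl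

theorem lL_apply {N : ℕ} (p : XT N) : lL N p = p.l := rfl

/-- JOB XC: `C_0 ∩ L^2` is complete. -/
def S_XC : Prop := ∀ N : ℕ, CompleteSpace (XT N)

/-- `TX` is the semigroup on `C_0 ∩ L^2`, `TC` the one on `C_0`. -/
structure Sem (N : ℕ) (θ M : ℝ) (TC : ℝ → C₀(E N, ℂ) →L[ℂ] C₀(E N, ℂ))
    (TX : ℝ → XT N →L[ℂ] XT N) : Prop where
  sgC : SG M TC
  sgX : SG M TX
  conv : ∀ (t : ℝ) (a : C₀(E N, ℂ)) (x : E N), 0 < t → TC t a x = ∫ y, G N θ t (x - y) * a y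
  add : ∀ s t p, 0 ≤ s → 0 ≤ t → TX (s + t) p = TX s (TX t p)
  fst : ∀ t p, 0 ≤ t → (TX t p).c = TC t p.c
  snd : ∀ t p, 0 ≤ t → (TX t p).l = FM (aS θ t) p.l

/-- JOB TX: both semigroups. -/
def S_TX : Prop := ∀ (N : ℕ) (θ : ℝ), 0 ≤ θ → θ < π / 2 → ∃ M TC TX, Sem N θ M TC TX

/-- JOB MX: multiplication by bounded continuous functions. -/
def S_MX : Prop := ∀ N : ℕ,
  (∃ MC : (E N →ᵇ ℂ) →L[ℂ] (C₀(E N, ℂ) →L[ℂ] C₀(E N, ℂ)), ∀ β a x, MC β a x = β x * a x) ∧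
  (∃ MX : (E N →ᵇ ℂ) →L[ℂ] (XT N →L[ℂ] XT N), ∀ β p x, (MX β p).c x = β x * p.c x)

/-- JOB PW: the potential `|u|^α` is a continuous path of bounded continuous functions. -/
def S_PW : Prop := ∀ (N : ℕ) (α T : ℝ) (u : ℝ → C₀(E N, ℂ)), 0 < α → ContinuousOn u (Icc 0 T) →
  ∃ β : ℝ → (E N →ᵇ ℂ), ContinuousOn β (Icc 0 T) ∧
    ∀ s x, β s x = ((‖u s x‖ ^ α : ℝ) : ℂ)

/-- `V = e^{-γt} u`, `g = e^{αγt} |V|^α V`, mild solution in `C_0 ∩ L^2`. -/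
structure SolX {N : ℕ} (TX : ℝ → XT N →L[ℂ] XT N) (θ α γ T : ℝ) (x0 : XT N) (V g : ℝ → XT N) :
    Prop where
  contV : ContinuousOn V (Icc 0 T)
  contg : ContinuousOn g (Icc 0 T)
  init : V 0 = x0
  g_eq : ∀ t ∈ Icc 0 T, ∀ x, (g t).c x =
    ((Real.exp (α * γ * t) * ‖(V t).c x‖ ^ α : ℝ) : ℂ) * (V t).c x
  eq : ∀ t ∈ Icc 0 T, V t = TX t x0 + ∫ s in (0 : ℝ)..t, TX (t - s) (ei θ • g s)

/-- JOB PER: persistence; a mild solution in `C_0` with initial value in `L^2` is one in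
`C_0 ∩ L^2`. -/
def S_PER : Prop := ∀ (N : ℕ) (θ M : ℝ) (TC : ℝ → C₀(E N, ℂ) →L[ℂ] C₀(E N, ℂ))
  (TX : ℝ → XT N →L[ℂ] XT N), 0 ≤ θ → θ < π / 2 → Sem N θ M TC TX →
  ∀ (α γ T : ℝ) (x0 : XT N) (u : ℝ → C₀(E N, ℂ)), 0 < α → 0 < T →
    IsMild θ α γ T x0.c u → ∃ V g : ℝ → XT N, SolX TX θ α γ T x0 V g

/-- the potential energy -/
noncomputable def pot {N : ℕ} (α : ℝ) (p : XT N) : ℝ := (∫ x, ‖p.c x‖ ^ (α + 2)) / (α + 2)

/-- JOB POT: the potential energy. -/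
def S_POT : Prop := ∀ (N : ℕ) (α : ℝ), 0 < α →
  (∀ p : XT N, 0 ≤ pot α p ∧ Integrable (fun x => ‖p.c x‖ ^ (α + 2))) ∧
  (∀ p p' h : XT N, (∀ x, h.c x = ((‖p.c x‖ ^ α : ℝ) : ℂ) * p.c x) →
    (⟪h.l, p'.l - p.l⟫_ℂ).re ≤ pot α p' - pot α p ∧
    ⟪h.l, p.l⟫_ℂ = (((α + 2) * pot α p : ℝ) : ℂ)) ∧
  (Continuous fun p : XT N => pot α p) ∧
  (∀ x0 : XT N, x0 ≠ 0 → 0 < pot α x0)

/-- JOB SM: small times, large `γ`. -/
def S_SM : Prop := ∀ (N : ℕ) (θ M : ℝ) (TX : ℝ → XT N →L[ℂ] XT N), SG M TX →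
  ∀ (α : ℝ) (x0 : XT N), 0 < α → x0 ≠ 0 → ∃ F1 : ℝ, 0 < F1 ∧ ∀ B τ : ℝ, 0 < τ →
    ∃ γ0 : ℝ, 0 < γ0 ∧ ∀ γ : ℝ, γ0 < γ → ∃ t1 : ℝ, 0 < t1 ∧ t1 ≤ τ ∧
      ∀ (T : ℝ) (V g : ℝ → XT N), t1 ≤ T → SolX TX θ α γ T x0 V g →
        B ≤ (∫ s in (0 : ℝ)..t1, α * γ * Real.exp (α * γ * s) * pot α (V s)) ∧
        ‖(V t1).l‖ ^ 2 ≤ F1

/-- the maximal existence time: the supremum of all `T ≥ 0` such that there is a mild solution
on `[0, T]` -/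
noncomputable def Tmax {N : ℕ} (θ α γ : ℝ) (u0 : C₀(E N, ℂ)) : ENNReal :=
  ⨆ (T : ℝ) (_ : 0 ≤ T ∧ ∃ u : ℝ → C₀(E N, ℂ), IsMild θ α γ T u0 u), ENNReal.ofReal T

end Pool.Agent.Q73.GL
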