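import Pool.Agent.Q73.GL.Stm

set_option autoImplicit false

/-! # The semigroup on `C_0` (job TC) -/

namespace Pool.Agent.Q73.GL

open MeasureTheory Set Filter Topology FourierTransform
open scoped ZeroAtInfty InnerProductSpace Real BoundedContinuousFunction SchwartzMap

namespace TC

/-- the translation as a cocompact map -/
def shift {N : ℕ} (v : E N) : CocompactMap (E N) (E N) where
  toFun := fun x => x - v
  continuous_toFun := continuous_id.sub continuous_const
  cocompact_tendsto' := (Homeomorph.subRight v).isClosedEmbedding.tendsto_cocompact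

/-- the translation on `C_0` -/
noncomputable def tau {N : ℕ} (v : E N) : C₀(E N, ℂ) →ₗ[ℂ] C₀(E N, ℂ) :=
  ZeroAtInftyContinuousMap.compLinearMap (shift v)

theorem tau_apply {N : ℕ} (v : E N) (a : C₀(E N, ℂ)) (x : E N) : tau v a x = a (x - v) := rfl

theorem abs_le {N : ℕ} (a : C₀(E N, ℂ)) (x : E N) : ‖a x‖ ≤ ‖a‖ := by
  rw [← ZeroAtInftyContinuousMap.norm_toBCF_eq_norm]
  exact a.toBCF.norm_coe_le_norm x

theorem norm_le' {N : ℕ} {a : C₀(E N, ℂ)} {C : ℝ} (hC : 0 ≤ C) (h : ∀ x, ‖a x‖ ≤ C) : ‖a‖ ≤ C := by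
  rw [← ZeroAtInftyContinuousMap.norm_toBCF_eq_norm]
  exact (BoundedContinuousFunction.norm_le hC).2 h

theorem tau_norm {N : ℕ} (v : E N) (a : C₀(E N, ℂ)) : ‖tau v a‖ ≤ ‖a‖ :=
  norm_le' (norm_nonneg _) fun x => by rw [tau_apply]; exact abs_le a _

theorem tau_zero {N : ℕ} (a : C₀(E N, ℂ)) : tau 0 a = a := by
  ext x
  rw [tau_apply, sub_zero]

/-- the translations depend continuously on the vector -/
theorem tau_cont {N : ℕ} (a : C₀(E N, ℂ)) : Continuous fun v : E N => tau v a := by
  have hu : UniformContinuous (a : E N → ℂ) := ZeroAtInftyContinuousMap.uniformContinuous a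
  rw [Metric.continuous_iff]
  intro v ε hε
  rw [Metric.uniformContinuous_iff] at hu
  obtain ⟨δ, hδ, h⟩ := hu (ε / 2) (by linarith)
  refine ⟨δ, hδ, fun w hw => ?_⟩
  rw [dist_eq_norm]
  refine lt_of_le_of_lt (norm_le' (C := ε / 2) (by linarith) fun x => ?_) (by linarith)
  rw [ZeroAtInftyContinuousMap.sub_apply, tau_apply, tau_apply, ← dist_eq_norm]
  refine (h ?_).le
  rw [dist_eq_norm] at hw ⊢
  have e : x - w - (x - v) = -(w - v) := by abel
  rw [e, norm_neg]
  exact hw

/-- the evaluation at `x` -/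
noncomputable def ev {N : ℕ} (x : E N) : C₀(E N, ℂ) →L[ℂ] ℂ :=
  LinearMap.mkContinuous
    { toFun := fun a => a x, map_add' := fun _ _ => rfl, map_smul' := fun _ _ => rfl } 1
    (fun a => by rw [one_mul]; exact abs_le a x)

theorem ev_apply {N : ℕ} (x : E N) (a : C₀(E N, ℂ)) : ev x a = a x := rfl

section conv

variable {N : ℕ} (g : E N → ℂ) (hg : Continuous g) (hi : Integrable g)

theorem meas (hg : Continuous g) (r : ℝ) (a : C₀(E N, ℂ)) :
    AEStronglyMeasurable (fun z => g z • tau (r • z) a) volume := by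
  have h1 : Continuous fun z : E N => tau (r • z) a := (tau_cont a).comp (continuous_const_smul r)
  exact (hg.smul h1).aestronglyMeasurable

theorem bound (r : ℝ) (a : C₀(E N, ℂ)) (z : E N) : ‖g z • tau (r • z) a‖ ≤ ‖g z‖ * ‖a‖ := by
  rw [norm_smul]
  exact mul_le_mul_of_nonneg_left (tau_norm _ a) (norm_nonneg _)

theorem integ (hg : Continuous g) (hi : Integrable g) (r : ℝ) (a : C₀(E N, ℂ)) :
    Integrable (fun z => g z • tau (r • z) a) := by
  refine Integrable.mono' (hi.norm.mul_const ‖a‖) (meas g hg r a) ?_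
  exact Eventually.of_forall fun z => bound g r a z

open Classical in
/-- the operator `a ↦ ∫ g z a(· - r z) dz` -/
noncomputable def TL (r : ℝ) : C₀(E N, ℂ) →L[ℂ] C₀(E N, ℂ) :=
  if h : Continuous g ∧ Integrable g then
    LinearMap.mkContinuous
      { toFun := fun a => ∫ z, g z • tau (r • z) a
        map_add' := by
          intro a b
          rw [← integral_add (integ g h.1 h.2 r a) (integ g h.1 h.2 r b)]
          refine integral_congr_ae (Eventually.of_forall fun z => ?_)
          simp only [map_add]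
          exact smul_add (g z) (tau (r • z) a) (tau (r • z) b)
        map_smul' := by
          intro c a
          simp only [RingHom.id_apply]
          rw [← integral_smul]
          refine integral_congr_ae (Eventually.of_forall fun z => ?_)
          simp only [map_smul]
          rw [smul_comm] }
      (∫ z, ‖g z‖)
      (fun a => by
        refine (norm_integral_le_integral_norm _).trans ?_
        rw [← integral_mul_const]
        refine integral_mono_of_nonneg (Eventually.of_forall fun z => norm_nonneg _)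
          (h.2.norm.mul_const _) (Eventually.of_forall fun z => bound g r a z))
  else 0

theorem TL_eq (hg : Continuous g) (hi : Integrable g) (r : ℝ) (a : C₀(E N, ℂ)) :
    TL g r a = ∫ z, g z • tau (r • z) a := by
  unfold TL
  rw [dif_pos ⟨hg, hi⟩]
  rfl

theorem TL_norm (hg : Continuous g) (hi : Integrable g) (r : ℝ) :
    ‖TL g r‖ ≤ ∫ z, ‖g z‖ := by
  unfold TL
  rw [dif_pos ⟨hg, hi⟩]
  exact LinearMap.mkContinuous_norm_le _ (integral_nonneg fun z => norm_nonneg _) _

theorem TL_apply (hg : Continuous g) (hi : Integrable g) (r : ℝ) (a : C₀(E N, ℂ)) (x : E N) :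
    TL g r a x = ∫ z, g z * a (x - r • z) := by
  rw [TL_eq g hg hi, ← ev_apply, ← ContinuousLinearMap.integral_comp_comm _ (integ g hg hi r a)]
  refine integral_congr_ae (Eventually.of_forall fun z => ?_)
  simp only [map_smul, ev_apply, tau_apply, smul_eq_mul]

theorem TL_cont (hg : Continuous g) (hi : Integrable g) (a : C₀(E N, ℂ)) :
    Continuous fun r : ℝ => TL g r a := by
  have e : (fun r : ℝ => TL g r a) = fun r => ∫ z, g z • tau (r • z) a := by
    funext r
    exact TL_eq g hg hi r a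
  rw [e]
  refine continuous_of_dominated (bound := fun z => ‖g z‖ * ‖a‖) (fun r => meas g hg r a)
    (fun r => Eventually.of_forall fun z => bound g r a z) (hi.norm.mul_const _)
    (Eventually.of_forall fun z => ?_)
  have h1 : Continuous fun r : ℝ => tau (r • z) a :=
    (tau_cont a).comp (continuous_id.smul continuous_const)
  exact h1.const_smul (g z)

end conv

/-- the scaling of the kernel -/
theorem G_scale (N : ℕ) (θ : ℝ) {t : ℝ} (ht : 0 < t) (z : E N) :
    ((Real.sqrt t ^ N : ℝ) : ℂ) * G N θ t (Real.sqrt t • z) = G N θ 1 z := by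
  have hs : 0 < Real.sqrt t := Real.sqrt_pos.2 ht
  have hs2 : Real.sqrt t ^ 2 = t := Real.sq_sqrt ht.le
  unfold G
  have hπ : (π : ℂ) ≠ 0 := by exact_mod_cast Real.pi_ne_zero
  have he : ei θ ≠ 0 := Complex.exp_ne_zero _
  have hw : (4 * (π : ℂ) * ((1 : ℝ) : ℂ) * ei θ) ≠ 0 := by
    rw [Complex.ofReal_one, mul_one]
    exact mul_ne_zero (mul_ne_zero (by norm_num) hπ) he
  have htw : 4 * (π : ℂ) * (t : ℂ) * ei θ = (t : ℂ) * (4 * (π : ℂ) * ((1 : ℝ) : ℂ) * ei θ) := by
    push_cast; ring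
  have hexp : -((‖Real.sqrt t • z‖ : ℂ) ^ 2) / (4 * (t : ℂ) * ei θ) =
      -((‖z‖ : ℂ) ^ 2) / (4 * ((1 : ℝ) : ℂ) * ei θ) := by
    have ht' : (t : ℂ) ≠ 0 := by exact_mod_cast ht.ne'
    have h1 : ((‖Real.sqrt t • z‖ : ℝ) : ℂ) ^ 2 = (t : ℂ) * (‖z‖ : ℂ) ^ 2 := by
      rw [norm_smul, Real.norm_eq_abs, abs_of_pos hs]
      have : (Real.sqrt t * ‖z‖) ^ 2 = t * ‖z‖ ^ 2 := by rw [mul_pow, hs2]
      exact_mod_cast this
    rw [h1]
    push_cast
    field_simp
  rw [hexp, htw]
  have hcp : ((t : ℂ) * (4 * (π : ℂ) * ((1 : ℝ) : ℂ) * ei θ)) ^ (-(N : ℂ) / 2) =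
      (t : ℂ) ^ (-(N : ℂ) / 2) * (4 * (π : ℂ) * ((1 : ℝ) : ℂ) * ei θ) ^ (-(N : ℂ) / 2) := by
    have ht' : (t : ℂ) ≠ 0 := by exact_mod_cast ht.ne'
    rw [Complex.cpow_def_of_ne_zero (mul_ne_zero ht' hw), Complex.cpow_def_of_ne_zero ht',
      Complex.cpow_def_of_ne_zero hw, ← Complex.exp_add, Complex.log_ofReal_mul ht hw,
      Complex.ofReal_log ht.le]
    congr 1
    ring
  have hone : ((Real.sqrt t ^ N : ℝ) : ℂ) * (t : ℂ) ^ (-(N : ℂ) / 2) = 1 := by
    have e1 : (-(N : ℂ) / 2) = ((-(N : ℝ) / 2 : ℝ) : ℂ) := by push_cast; ring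
    rw [e1, ← Complex.ofReal_cpow ht.le, ← Complex.ofReal_mul]
    have e2 : Real.sqrt t ^ N = t ^ ((N : ℝ) / 2) := by
      rw [Real.sqrt_eq_rpow, ← Real.rpow_natCast, ← Real.rpow_mul ht.le]
      congr 1
      ring
    rw [e2, ← Real.rpow_add ht]
    have e3 : (N : ℝ) / 2 + -(N : ℝ) / 2 = 0 := by ring
    rw [e3, Real.rpow_zero, Complex.ofReal_one]
  rw [hcp, ← mul_assoc, ← mul_assoc, hone, one_mul]

/-- the change of variables -/
theorem subst (N : ℕ) (θ : ℝ) {t : ℝ} (ht : 0 < t) (a : C₀(E N, ℂ)) (x : E N) :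
    ∫ z, G N θ 1 z * a (x - Real.sqrt t • z) = ∫ y, G N θ t (x - y) * a y := by
  have hs : 0 < Real.sqrt t := Real.sqrt_pos.2 ht
  have h1 : ∫ y, G N θ t (x - y) * a y = ∫ w, G N θ t w * a (x - w) := by
    have h := integral_sub_left_eq_self (fun w : E N => G N θ t w * a (x - w)) volume x
    rw [← h]
    refine integral_congr_ae (Eventually.of_forall fun y => ?_)
    simp only [sub_sub_cancel]
  have h2 := Measure.integral_comp_smul (volume : Measure (E N))
    (fun w : E N => G N θ t w * a (x - w)) (Real.sqrt t)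
  have hfr : Module.finrank ℝ (E N) = N := finrank_euclideanSpace_fin
  rw [hfr, abs_of_pos (by positivity)] at h2
  have h3 : ∫ w, G N θ t w * a (x - w) =
      ((Real.sqrt t ^ N : ℝ) : ℂ) * ∫ z, G N θ t (Real.sqrt t • z) * a (x - Real.sqrt t • z) := by
    rw [h2, Complex.real_smul, ← mul_assoc, ← Complex.ofReal_mul, mul_inv_cancel₀ (by positivity),
      Complex.ofReal_one, one_mul]
  rw [h1, h3, ← integral_const_mul]
  refine integral_congr_ae (Eventually.of_forall fun z => ?_)
  simp only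
  rw [← mul_assoc, G_scale N θ ht z]

end TC

open TC in
theorem t_TC (hk : S_KER) : S_TC := by
  intro N θ h0 h1
  obtain ⟨hc, hi, -, hone, -⟩ := hk N θ h0 h1 1 one_pos
  refine ⟨max 1 (∫ z, ‖G N θ 1 z‖), fun t => TL (G N θ 1) (Real.sqrt t),
    ⟨le_max_left _ _, ?_, ?_, ?_⟩, ?_⟩
  · ext a x
    rw [TL_apply _ hc hi, Real.sqrt_zero]
    simp only [zero_smul, sub_zero, ContinuousLinearMap.coe_id', id_eq]
    rw [integral_mul_const, hone, one_mul]
  · intro t _
    exact (TL_norm _ hc hi _).trans (le_max_right _ _)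
  · intro a
    exact ((TL_cont _ hc hi a).comp Real.continuous_sqrt).continuousOn
  · intro t a x ht
    rw [TL_apply _ hc hi]
    exact subst N θ ht a x

end Pool.Agent.Q73.GL
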