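import Pool.Agent.Q73.GL.Stm

set_option autoImplicit false

namespace Pool.Agent.Q73.GL

open MeasureTheory Set Filter Topology FourierTransform
open scoped ZeroAtInfty InnerProductSpace Real BoundedContinuousFunction SchwartzMap

namespace TR

variable {N : ℕ}

theorem meas_aP (n : ℕ) : Measurable (aP n : E N → ℂ) := by
  unfold aP
  exact Measurable.ite (measurableSet_le measurable_norm measurable_const) measurable_const
    measurable_const

theorem meas_aA (n : ℕ) : Measurable (aA n : E N → ℂ) := by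
  unfold aA
  refine Measurable.ite (measurableSet_le measurable_norm measurable_const) ?_ measurable_const
  fun_prop

theorem meas_aR (θ : ℝ) (n : ℕ) (t : ℝ) : Measurable (aR θ n t : E N → ℂ) := by
  unfold aR
  exact Complex.measurable_exp.comp (measurable_const.mul (meas_aA n))

theorem meas_aS (θ t : ℝ) : Measurable (aS θ t : E N → ℂ) := by
  unfold aS
  fun_prop

theorem norm_aP (n : ℕ) (ξ : E N) : ‖aP n ξ‖ ≤ 1 := by
  unfold aP
  split_ifs <;> simp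

theorem bd_aA (n : ℕ) (ξ : E N) : ‖aA n ξ‖ ≤ 4 * π ^ 2 * (n : ℝ) ^ 2 := by
  unfold aA
  split_ifs with h
  · rw [norm_neg, Complex.norm_real, Real.norm_of_nonneg (by positivity)]
    gcongr
  · rw [norm_zero]
    positivity

theorem norm_ei (θ : ℝ) : ‖ei θ‖ = 1 := Complex.norm_exp_ofReal_mul_I θ

theorem ei_re (θ : ℝ) : (ei θ).re = Real.cos θ := Complex.exp_ofReal_mul_I_re θ

theorem bd_aR (θ : ℝ) (n : ℕ) (t : ℝ) (ξ : E N) :
    ‖aR θ n t ξ‖ ≤ Real.exp (|t| * (4 * π ^ 2 * (n : ℝ) ^ 2)) := by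
  unfold aR
  rw [Complex.norm_exp]
  apply Real.exp_le_exp.2
  refine (Complex.re_le_norm _).trans ?_
  rw [norm_mul, norm_mul, norm_ei, Complex.norm_real, mul_one, Real.norm_eq_abs]
  exact mul_le_mul_of_nonneg_left (bd_aA n ξ) (abs_nonneg _)

theorem bd_aS {θ : ℝ} (h0 : 0 ≤ θ) (h1 : θ < π / 2) {t : ℝ} (ht : 0 ≤ t) (ξ : E N) :
    ‖aS θ t ξ‖ ≤ 1 := by
  unfold aS
  rw [Complex.norm_exp, Real.exp_le_one_iff, ← Complex.ofReal_neg, Complex.re_ofReal_mul, ei_re]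
  have h2 : 0 ≤ Real.cos θ := Real.cos_nonneg_of_mem_Icc ⟨by linarith [Real.pi_pos], h1.le⟩
  have h3 : 0 ≤ 4 * π ^ 2 * t * ‖ξ‖ ^ 2 := by positivity
  nlinarith [mul_nonneg h3 h2]

theorem aP_aP (n : ℕ) (ξ : E N) : aP n ξ * aP n ξ = aP n ξ := by
  unfold aP
  split_ifs <;> simp

theorem aA_aP (n : ℕ) (ξ : E N) : aA n ξ * aP n ξ = aA n ξ := by
  unfold aP aA
  split_ifs <;> simp

theorem aP_aA (n : ℕ) (ξ : E N) : aP n ξ * aA n ξ = aA n ξ := by
  rw [mul_comm, aA_aP]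

theorem aP_aS (θ : ℝ) (n : ℕ) (t : ℝ) (ξ : E N) : aP n ξ * aS θ t ξ = aR θ n t ξ * aP n ξ := by
  unfold aP aS aR aA
  split_ifs
  · rw [one_mul, mul_one]
    congr 1
    push_cast
    ring
  · simp

theorem aR_add (θ : ℝ) (n : ℕ) (s t : ℝ) (ξ : E N) :
    aR θ n (s + t) ξ = aR θ n s ξ * aR θ n t ξ := by
  unfold aR
  rw [← Complex.exp_add]
  congr 1
  push_cast
  ring

theorem aR_zero (θ : ℝ) (n : ℕ) (ξ : E N) : aR θ n 0 ξ = 1 := by
  unfold aR
  simp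

theorem aS_add (θ s t : ℝ) (ξ : E N) : aS θ (s + t) ξ = aS θ s ξ * aS θ t ξ := by
  unfold aS
  rw [← Complex.exp_add]
  congr 1
  push_cast
  ring

theorem aS_zero (θ : ℝ) (ξ : E N) : aS θ 0 ξ = 1 := by
  unfold aS
  simp

theorem conj_aP (n : ℕ) (ξ : E N) : (starRingEnd ℂ) (aP n ξ) = aP n ξ := by
  unfold aP
  split_ifs <;> simp

theorem conj_aA (n : ℕ) (ξ : E N) : (starRingEnd ℂ) (aA n ξ) = aA n ξ := by
  unfold aA
  split_ifs
  · rw [map_neg, Complex.conj_ofReal]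
  · simp

/-- the square of the norm as a product of a complex number and its conjugate -/
theorem conj_mul_self (z : ℂ) : (starRingEnd ℂ) z * z = ((‖z‖ ^ 2 : ℝ) : ℂ) := by
  rw [mul_comm, Complex.mul_conj, Complex.normSq_eq_norm_sq]

theorem aA_ofReal (n : ℕ) (ξ : E N) : aA n ξ = (((aA n ξ).re : ℝ) : ℂ) := by
  have h := conj_aA n ξ
  exact (Complex.conj_eq_iff_re.1 h).symm

theorem aA_re_nonpos (n : ℕ) (ξ : E N) : (aA n ξ).re ≤ 0 := by
  unfold aA
  split_ifs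
  · rw [Complex.neg_re, Complex.ofReal_re, neg_nonpos]
    positivity
  · simp

theorem aA_re_anti (n : ℕ) (ξ : E N) : (aA (n + 1) ξ).re ≤ (aA n ξ).re := by
  by_cases h : ‖ξ‖ ≤ (n : ℝ)
  · have h' : ‖ξ‖ ≤ ((n + 1 : ℕ) : ℝ) := by
      push_cast
      linarith
    unfold aA
    rw [if_pos h, if_pos h']
  · have h2 : (aA n ξ).re = 0 := by
      unfold aA
      rw [if_neg h]
      simp
    rw [h2]
    exact aA_re_nonpos _ _

theorem sq_int (f : L2 N) : Integrable (fun x => ‖f x‖ ^ 2) :=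
  (Lp.memLp f).integrable_norm_pow (by norm_num)

theorem int_aA (n : ℕ) (f : L2 N) : Integrable (fun ξ => (aA n ξ).re * ‖f ξ‖ ^ 2) := by
  have h1 : Integrable (fun ξ => (4 * π ^ 2 * (n : ℝ) ^ 2) * ‖f ξ‖ ^ 2) := (sq_int f).const_mul _
  refine h1.mono' ?_ ?_
  · refine AEStronglyMeasurable.mul ?_ ?_
    · exact (Complex.measurable_re.comp (meas_aA n)).aestronglyMeasurable
    · exact (sq_int f).aestronglyMeasurable
  · filter_upwards with ξ
    rw [norm_mul, Real.norm_eq_abs, Real.norm_of_nonneg (by positivity : 0 ≤ ‖f ξ‖ ^ 2)]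
    apply mul_le_mul_of_nonneg_right _ (by positivity)
    exact (Complex.abs_re_le_norm _).trans (bd_aA n ξ)

theorem form_aA (n : ℕ) (f : L2 N) :
    (∫ ξ, (starRingEnd ℂ) (aA n ξ) * ((starRingEnd ℂ) (f ξ) * f ξ)).re =
      ∫ ξ, (aA n ξ).re * ‖f ξ‖ ^ 2 := by
  have h1 : (fun ξ => (starRingEnd ℂ) (aA n ξ) * ((starRingEnd ℂ) (f ξ) * f ξ)) =
      fun ξ => (((aA n ξ).re * ‖f ξ‖ ^ 2 : ℝ) : ℂ) := by
    funext ξ
    rw [conj_aA, conj_mul_self, aA_ofReal, Complex.ofReal_re]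
    push_cast
    rfl
  rw [h1]
  have h2 := integral_ofReal (μ := (volume : Measure (E N))) (𝕜 := ℂ)
    (f := fun ξ => (aA n ξ).re * ‖f ξ‖ ^ 2)
  have h3 : ∫ ξ, (((aA n ξ).re * ‖f ξ‖ ^ 2 : ℝ) : ℂ) =
      ((∫ ξ, (aA n ξ).re * ‖f ξ‖ ^ 2 : ℝ) : ℂ) := h2
  rw [h3, Complex.ofReal_re]

/-- the remainder of the Taylor expansion of the symbol -/
noncomputable def rem (θ : ℝ) (n : ℕ) (t h : ℝ) (ξ : E N) : ℂ :=
  aR θ n t ξ * (Complex.exp ((h : ℂ) * ei θ * aA n ξ) - 1 - (h : ℂ) * ei θ * aA n ξ)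

theorem meas_rem (θ : ℝ) (n : ℕ) (t h : ℝ) : Measurable (rem θ n t h : E N → ℂ) := by
  unfold rem
  refine (meas_aR θ n t).mul ?_
  have h1 : Measurable (fun ξ : E N => (h : ℂ) * ei θ * aA n ξ) :=
    measurable_const.mul (meas_aA n)
  exact ((Complex.measurable_exp.comp h1).sub measurable_const).sub h1

theorem bd_rem (θ : ℝ) (n : ℕ) (t h : ℝ) (hh : |h| * (4 * π ^ 2 * (n : ℝ) ^ 2) ≤ 1) (ξ : E N) :
    ‖rem θ n t h ξ‖ ≤ Real.exp (|t| * (4 * π ^ 2 * (n : ℝ) ^ 2)) *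
      (4 * π ^ 2 * (n : ℝ) ^ 2) ^ 2 * h ^ 2 := by
  unfold rem
  have h1 : ‖(h : ℂ) * ei θ * aA n ξ‖ ≤ |h| * (4 * π ^ 2 * (n : ℝ) ^ 2) := by
    rw [norm_mul, norm_mul, norm_ei, Complex.norm_real, mul_one, Real.norm_eq_abs]
    exact mul_le_mul_of_nonneg_left (bd_aA n ξ) (abs_nonneg _)
  have h2 := Complex.norm_exp_sub_one_sub_id_le (h1.trans hh)
  rw [norm_mul]
  have h3 : ‖Complex.exp ((h : ℂ) * ei θ * aA n ξ) - 1 - (h : ℂ) * ei θ * aA n ξ‖ ≤
      (4 * π ^ 2 * (n : ℝ) ^ 2) ^ 2 * h ^ 2 := by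
    refine h2.trans ((pow_le_pow_left₀ (norm_nonneg _) h1 2).trans (le_of_eq ?_))
    rw [mul_pow, sq_abs, mul_comm]
  have h4 := mul_le_mul (bd_aR θ n t ξ) h3 (norm_nonneg _) (Real.exp_nonneg _)
  exact h4.trans (le_of_eq (by ring))

theorem aR_taylor (θ : ℝ) (n : ℕ) (t h : ℝ) (ξ : E N) :
    aR θ n (t + h) ξ = aR θ n t ξ + ((h : ℂ) * ei θ * (aA n ξ * aR θ n t ξ) + rem θ n t h ξ) := by
  rw [aR_add]
  unfold rem
  have h1 : aR θ n h ξ = Complex.exp ((h : ℂ) * ei θ * aA n ξ) := rfl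
  rw [h1]
  ring

end TR

theorem t_TR (hf : S_FM) : S_TR := by
  intro N θ h0 h1
  obtain ⟨f1, f2, f3, f4, f5, f6, f7, f8⟩ := hf N
  refine ⟨{
    P := fun n => FM (aP n)
    A := fun n => FM (aA n)
    R := fun n t => FM (aR θ n t)
    S := fun t => FM (aS θ t)
    P_sa := ?_
    P_P := ?_
    P_bd := ?_
    P_lim := ?_
    A_sa := ?_
    A_P := ?_
    P_A := ?_
    A_neg := ?_
    A_anti := ?_
    R_zero := ?_
    R_add := ?_
    R_deriv := ?_
    R_A := ?_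
    R_P := ?_
    S_P := ?_
    S_zero := ?_
    S_add := ?_
    S_bd := ?_
    S_cont := ?_ }, fun _ => rfl, fun _ => rfl, fun _ _ => rfl⟩
  · -- P_sa
    intro n x y
    rw [f6 (aP n) 1 (TR.meas_aP n) (TR.norm_aP n)]
    simp only [TR.conj_aP]
  · intro n x
    rw [f2 (aP n) (aP n) 1 1 (TR.meas_aP n) (TR.meas_aP n) (TR.norm_aP n) (TR.norm_aP n)]
    simp only [TR.aP_aP]
  · intro n x
    have h := f1 (aP n) 1 (TR.meas_aP n) zero_le_one (TR.norm_aP n)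
    exact ((FM (aP n)).le_opNorm x).trans (mul_le_of_le_one_left (norm_nonneg _) h)
  · intro x
    have h := f8 ℕ atTop (fun n => aP n) (fun _ => 1) 1 (fun n => TR.meas_aP n) measurable_const
      (fun n ξ => TR.norm_aP n ξ) (fun ξ => ?_) x
    · rw [f5] at h
      exact h
    · refine tendsto_const_nhds.congr' ?_
      filter_upwards [Filter.eventually_ge_atTop (⌈‖ξ‖⌉₊)] with n hn
      unfold aP
      rw [if_pos (Nat.ceil_le.1 hn)]
  · intro n x y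
    rw [f6 (aA n) _ (TR.meas_aA n) (TR.bd_aA n)]
    simp only [TR.conj_aA]
  · intro n x
    rw [f2 (aA n) (aP n) _ 1 (TR.meas_aA n) (TR.meas_aP n) (TR.bd_aA n) (TR.norm_aP n)]
    simp only [TR.aA_aP]
  · intro n x
    rw [f2 (aP n) (aA n) 1 _ (TR.meas_aP n) (TR.meas_aA n) (TR.norm_aP n) (TR.bd_aA n)]
    simp only [TR.aP_aA]
  · -- A_neg
    intro n x
    rw [f7 (aA n) _ (TR.meas_aA n) (TR.bd_aA n), TR.form_aA]
    exact integral_nonpos (fun ξ => mul_nonpos_of_nonpos_of_nonneg (TR.aA_re_nonpos n ξ)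
      (by positivity))
  · -- A_anti
    intro n x
    rw [f7 (aA n) _ (TR.meas_aA n) (TR.bd_aA n), f7 (aA (n + 1)) _ (TR.meas_aA _) (TR.bd_aA _),
      TR.form_aA, TR.form_aA]
    exact integral_mono (TR.int_aA _ _) (TR.int_aA _ _) (fun ξ =>
      mul_le_mul_of_nonneg_right (TR.aA_re_anti n ξ) (by positivity))
  · intro n
    have h : (aR θ n 0 : E N → ℂ) = fun _ => 1 := funext fun ξ => TR.aR_zero θ n ξ
    rw [h]
    exact f5
  · intro n s t
    refine ContinuousLinearMap.ext fun x => ?_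
    rw [ContinuousLinearMap.comp_apply, f2 (aR θ n s) (aR θ n t) _ _ (TR.meas_aR θ n s)
      (TR.meas_aR θ n t) (TR.bd_aR θ n s) (TR.bd_aR θ n t)]
    simp only [← TR.aR_add]
  · -- R_deriv
    intro n t
    refine hasDerivAt_iff_isLittleO_nhds_zero.2 ?_
    set c : ℝ := 4 * π ^ 2 * (n : ℝ) ^ 2 with hc
    have hc0 : 0 ≤ c := by positivity
    have hexp : ∀ h : ℝ, |h| * c ≤ 1 → FM (aR θ n (t + h) : E N → ℂ) - FM (aR θ n t) -
        h • (ei θ • ((FM (aA n)) ∘L (FM (aR θ n t)))) = FM (TR.rem θ n t h) := by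
      intro h hh
      have e1 : (aR θ n (t + h) : E N → ℂ) = fun ξ => aR θ n t ξ +
          ((h : ℂ) * ei θ * (aA n ξ * aR θ n t ξ) + TR.rem θ n t h ξ) :=
        funext fun ξ => TR.aR_taylor θ n t h ξ
      have m1 : Measurable (fun ξ : E N => aA n ξ * aR θ n t ξ) :=
        (TR.meas_aA n).mul (TR.meas_aR θ n t)
      have b1 : ∀ ξ : E N, ‖aA n ξ * aR θ n t ξ‖ ≤ c * Real.exp (|t| * c) := by
        intro ξ
        rw [norm_mul]
        exact mul_le_mul (TR.bd_aA n ξ) (TR.bd_aR θ n t ξ) (norm_nonneg _) hc0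
      have m2 : Measurable (fun ξ : E N => (h : ℂ) * ei θ * (aA n ξ * aR θ n t ξ)) :=
        measurable_const.mul m1
      have b2 : ∀ ξ : E N, ‖(h : ℂ) * ei θ * (aA n ξ * aR θ n t ξ)‖ ≤
          ‖(h : ℂ) * ei θ‖ * (c * Real.exp (|t| * c)) := by
        intro ξ
        rw [norm_mul]
        exact mul_le_mul_of_nonneg_left (b1 ξ) (norm_nonneg _)
      have m3 := TR.meas_rem (N := N) θ n t h
      have b3 := TR.bd_rem (N := N) θ n t h hh
      have b4 : ∀ ξ : E N, ‖(h : ℂ) * ei θ * (aA n ξ * aR θ n t ξ) + TR.rem θ n t h ξ‖ ≤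
          ‖(h : ℂ) * ei θ‖ * (c * Real.exp (|t| * c)) +
            Real.exp (|t| * (4 * π ^ 2 * (n : ℝ) ^ 2)) * (4 * π ^ 2 * (n : ℝ) ^ 2) ^ 2 * h ^ 2 :=
        fun ξ => (norm_add_le _ _).trans (add_le_add (b2 ξ) (b3 ξ))
      have m4 : Measurable (fun ξ : E N => (h : ℂ) * ei θ * (aA n ξ * aR θ n t ξ) +
          TR.rem θ n t h ξ) := m2.add m3
      rw [e1, f3 _ _ _ _ (TR.meas_aR θ n t) m4 (TR.bd_aR θ n t) b4,
        f3 _ _ _ _ m2 m3 b2 b3, f4 _ _ _ m1 b1]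
      have e2 : (FM (aA n) : L2 N →L[ℂ] L2 N) ∘L FM (aR θ n t) =
          FM (fun ξ => aA n ξ * aR θ n t ξ) := by
        refine ContinuousLinearMap.ext fun x => ?_
        rw [ContinuousLinearMap.comp_apply, f2 (aA n) (aR θ n t) _ _ (TR.meas_aA n)
          (TR.meas_aR θ n t) (TR.bd_aA n) (TR.bd_aR θ n t)]
      have e3 : h • (ei θ • FM (fun ξ : E N => aA n ξ * aR θ n t ξ)) =
          ((h : ℂ) * ei θ) • FM (fun ξ : E N => aA n ξ * aR θ n t ξ) := by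
        rw [mul_smul]
        rfl
      rw [e2, e3]
      abel
    have hbig : (fun h : ℝ => FM (aR θ n (t + h) : E N → ℂ) - FM (aR θ n t) -
        h • (ei θ • ((FM (aA n)) ∘L (FM (aR θ n t))))) =O[𝓝 0] fun h : ℝ => h ^ 2 := by
      refine Asymptotics.IsBigO.of_bound (Real.exp (|t| * c) * c ^ 2) ?_
      have h3 : ∀ᶠ h : ℝ in 𝓝 0, |h| * c < 1 := by
        have h4 : Tendsto (fun h : ℝ => |h| * c) (𝓝 0) (𝓝 (|(0 : ℝ)| * c)) :=
          ((continuous_abs.mul continuous_const).tendsto 0)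
        rw [abs_zero, zero_mul] at h4
        exact h4.eventually (gt_mem_nhds one_pos)
      filter_upwards [h3] with h hh
      rw [hexp h hh.le]
      have h5 := f1 (TR.rem θ n t h) (Real.exp (|t| * c) * c ^ 2 * h ^ 2) (TR.meas_rem θ n t h)
        (by positivity) (TR.bd_rem θ n t h hh.le)
      rw [Real.norm_of_nonneg (by positivity : 0 ≤ h ^ 2)]
      exact h5
    exact hbig.trans_isLittleO (Asymptotics.isLittleO_pow_id one_lt_two)
  · intro n t x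
    rw [f2 (aA n) (aR θ n t) _ _ (TR.meas_aA n) (TR.meas_aR θ n t) (TR.bd_aA n) (TR.bd_aR θ n t),
      f2 (aR θ n t) (aA n) _ _ (TR.meas_aR θ n t) (TR.meas_aA n) (TR.bd_aR θ n t) (TR.bd_aA n)]
    simp only [mul_comm]
  · intro n t x
    rw [f2 (aP n) (aR θ n t) _ _ (TR.meas_aP n) (TR.meas_aR θ n t) (TR.norm_aP n) (TR.bd_aR θ n t),
      f2 (aR θ n t) (aP n) _ _ (TR.meas_aR θ n t) (TR.meas_aP n) (TR.bd_aR θ n t) (TR.norm_aP n)]
    simp only [mul_comm]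
  · intro n t x ht
    rw [f2 (aP n) (aS θ t) _ _ (TR.meas_aP n) (TR.meas_aS θ t) (TR.norm_aP n) (TR.bd_aS h0 h1 ht),
      f2 (aR θ n t) (aP n) _ _ (TR.meas_aR θ n t) (TR.meas_aP n) (TR.bd_aR θ n t) (TR.norm_aP n)]
    simp only [TR.aP_aS]
  · have h : (aS θ 0 : E N → ℂ) = fun _ => 1 := funext fun ξ => TR.aS_zero θ ξ
    rw [h]
    exact f5
  · intro s t x hs ht
    rw [f2 (aS θ s) (aS θ t) _ _ (TR.meas_aS θ s) (TR.meas_aS θ t) (TR.bd_aS h0 h1 hs)
      (TR.bd_aS h0 h1 ht)]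
    simp only [← TR.aS_add]
  · intro t x ht
    have h := f1 (aS θ t) 1 (TR.meas_aS θ t) zero_le_one (TR.bd_aS h0 h1 ht)
    exact ((FM (aS θ t)).le_opNorm x).trans (mul_le_of_le_one_left (norm_nonneg _) h)
  · -- S_cont
    intro x t ht
    have ht0 : (0 : ℝ) ≤ t := ht
    have h := f8 ℝ (𝓝[Ici 0] t) (fun s => aS θ (max s 0)) (aS θ t) 1
      (fun s => TR.meas_aS θ _) (TR.meas_aS θ t)
      (fun s ξ => TR.bd_aS h0 h1 (le_max_right _ _) ξ) (fun ξ => ?_) x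
    · refine Tendsto.congr' ?_ h
      filter_upwards [self_mem_nhdsWithin] with s hs
      have hs0 : (0 : ℝ) ≤ s := hs
      simp only [max_eq_left hs0]
    · have hc : Continuous (fun s : ℝ => aS θ (max s 0) ξ) := by
        unfold aS
        fun_prop
      have h2 := hc.tendsto t
      simp only [max_eq_left ht0] at h2
      exact h2.mono_left nhdsWithin_le_nhds

end Pool.Agent.Q73.GL
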