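import Mathlib
import Pool.Agent.Q73.GL.Stm

set_option autoImplicit false

/-! JOB TX (helper259): the semigroup on `C_0 ∩ L^2`. -/

namespace Pool.Agent.Q73.GL.TX

open MeasureTheory Set Filter Topology FourierTransform
open scoped ZeroAtInfty InnerProductSpace Real BoundedContinuousFunction SchwartzMap

variable {N : ℕ} {θ : ℝ}

theorem re_ei (θ : ℝ) : (ei θ).re = Real.cos θ := by
  unfold ei
  rw [Complex.exp_ofReal_mul_I_re]

theorem aS_norm_le (hθ0 : 0 ≤ θ) (hθ : θ < π / 2) {t : ℝ} (ht : 0 ≤ t) (ξ : E N) :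
    ‖aS θ t ξ‖ ≤ 1 := by
  unfold aS
  rw [Complex.norm_exp]
  refine Real.exp_le_one_iff.2 ?_
  have h1 : (-((4 * π ^ 2 * t * ‖ξ‖ ^ 2 : ℝ) : ℂ) * ei θ).re =
      -((4 * π ^ 2 * t * ‖ξ‖ ^ 2) * Real.cos θ) := by
    rw [neg_mul, Complex.neg_re, Complex.re_ofReal_mul, re_ei]
  rw [h1]
  have hc : 0 ≤ Real.cos θ := Real.cos_nonneg_of_mem_Icc ⟨by linarith [Real.pi_pos], hθ.le⟩
  have h2 : 0 ≤ 4 * π ^ 2 * t * ‖ξ‖ ^ 2 := by positivity
  have h3 := mul_nonneg h2 hc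
  linarith

theorem aS_meas (t : ℝ) : Measurable (aS θ t : E N → ℂ) := by
  unfold aS
  refine Continuous.measurable ?_
  fun_prop

theorem aS_zero : (aS θ 0 : E N → ℂ) = fun _ => 1 := by
  funext ξ
  unfold aS
  simp

theorem aS_add (s t : ℝ) : (aS θ (s + t) : E N → ℂ) = fun ξ => aS θ s ξ * aS θ t ξ := by
  funext ξ
  unfold aS
  rw [← Complex.exp_add]
  congr 1
  push_cast
  ring

theorem aS_cont (ξ : E N) : Continuous (fun t : ℝ => aS θ t ξ) := by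
  unfold aS
  fun_prop

/-- equality of the `L^2` components implies equality -/
theorem ext_l {p q : XT N} (h : p.l = q.l) : p = q := by
  refine XT.ext' ?_
  have h1 := XT.ae p
  have h2 := XT.ae q
  rw [h] at h1
  have h3 : (p.c : E N → ℂ) =ᵐ[volume] (q.c : E N → ℂ) := h1.symm.trans h2
  have h4 : (p.c : E N → ℂ) = (q.c : E N → ℂ) :=
    (Continuous.ae_eq_iff_eq volume (map_continuous p.c) (map_continuous q.c)).1 h3
  exact DFunLike.coe_injective h4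

theorem link (hl : S_LINK) (hf : S_FM) (hθ0 : 0 ≤ θ) (hθ : θ < π / 2)
    {TC : ℝ → C₀(E N, ℂ) →L[ℂ] C₀(E N, ℂ)} {M : ℝ} (hsg : SG M TC)
    (hconv : ∀ (t : ℝ) (a : C₀(E N, ℂ)) (x : E N), 0 < t → TC t a x = ∫ y, G N θ t (x - y) * a y)
    {t : ℝ} (ht : 0 ≤ t) (p : XT N) :
    (FM (aS θ t) p.l : E N → ℂ) =ᵐ[volume] (TC t p.c : E N → ℂ) := by
  rcases ht.eq_or_lt with h0 | h0
  · subst h0
    rw [hsg.zero, aS_zero, (hf N).2.2.2.2.1]
    exact XT.ae p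
  · refine (hl N θ hθ0 hθ t p.c p.l h0 (XT.ae p)).trans ?_
    filter_upwards with x
    exact (hconv t p.c x h0).symm

/-- the operator on `C_0 ∩ L^2` with given components -/
noncomputable def op {M : ℝ} (A : C₀(E N, ℂ) →L[ℂ] C₀(E N, ℂ)) (B : L2 N →L[ℂ] L2 N)
    (hA : ‖A‖ ≤ M) (hB : ‖B‖ ≤ M)
    (h : ∀ p : XT N, (B p.l : E N → ℂ) =ᵐ[volume] (A p.c : E N → ℂ)) : XT N →L[ℂ] XT N :=
  LinearMap.mkContinuous
    { toFun := fun p => XT.mk (A p.c) (B p.l) (h p)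
      map_add' := by
        intro p q
        refine XT.ext' ?_
        change A (p + q).c = A p.c + A q.c
        rw [XT.c_add, map_add]
      map_smul' := by
        intro c p
        refine XT.ext' ?_
        change A (c • p).c = c • A p.c
        rw [XT.c_smul, map_smul] } M
    (fun p => by
      have hM : 0 ≤ M := le_trans (norm_nonneg A) hA
      have h1 : ‖A p.c‖ ≤ M * ‖p‖ := (A.le_opNorm _).trans
        (mul_le_mul hA (by rw [XT.norm_eq]; exact le_max_left _ _) (norm_nonneg _) hM)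
      have h2 : ‖B p.l‖ ≤ M * ‖p‖ := (B.le_opNorm _).trans
        (mul_le_mul hB (by rw [XT.norm_eq]; exact le_max_right _ _) (norm_nonneg _) hM)
      exact max_le h1 h2)

theorem op_c {M : ℝ} (A : C₀(E N, ℂ) →L[ℂ] C₀(E N, ℂ)) (B : L2 N →L[ℂ] L2 N)
    (hA : ‖A‖ ≤ M) (hB : ‖B‖ ≤ M)
    (h : ∀ p : XT N, (B p.l : E N → ℂ) =ᵐ[volume] (A p.c : E N → ℂ)) (p : XT N) :
    (op A B hA hB h p).c = A p.c := rfl

theorem op_l {M : ℝ} (A : C₀(E N, ℂ) →L[ℂ] C₀(E N, ℂ)) (B : L2 N →L[ℂ] L2 N)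
    (hA : ‖A‖ ≤ M) (hB : ‖B‖ ≤ M)
    (h : ∀ p : XT N, (B p.l : E N → ℂ) =ᵐ[volume] (A p.c : E N → ℂ)) (p : XT N) :
    (op A B hA hB h p).l = B p.l := rfl

theorem op_norm {M : ℝ} (A : C₀(E N, ℂ) →L[ℂ] C₀(E N, ℂ)) (B : L2 N →L[ℂ] L2 N)
    (hA : ‖A‖ ≤ M) (hB : ‖B‖ ≤ M)
    (h : ∀ p : XT N, (B p.l : E N → ℂ) =ᵐ[volume] (A p.c : E N → ℂ)) :
    ‖op A B hA hB h‖ ≤ M :=
  LinearMap.mkContinuous_norm_le _ (le_trans (norm_nonneg A) hA) _

end Pool.Agent.Q73.GL.TX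

namespace Pool.Agent.Q73.GL

open MeasureTheory Set Filter Topology FourierTransform
open scoped ZeroAtInfty InnerProductSpace Real BoundedContinuousFunction SchwartzMap

open Classical in
theorem t_TX (hc : S_TC) (hl : S_LINK) (hf : S_FM) : S_TX := by
  intro N θ hθ0 hθ
  obtain ⟨M, TC, hsg, hconv⟩ := hc N θ hθ0 hθ
  have hFM : ∀ t : ℝ, 0 ≤ t → ‖(FM (aS θ t) : L2 N →L[ℂ] L2 N)‖ ≤ M := fun t ht =>
    ((hf N).1 (aS θ t) 1 (TX.aS_meas t) zero_le_one (TX.aS_norm_le hθ0 hθ ht)).trans hsg.one_le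
  have hlink : ∀ t : ℝ, 0 ≤ t → ∀ p : XT N,
      (FM (aS θ t) p.l : E N → ℂ) =ᵐ[volume] (TC t p.c : E N → ℂ) := fun t ht p =>
    TX.link hl hf hθ0 hθ hsg hconv ht p
  let TXf : ℝ → XT N →L[ℂ] XT N := fun t =>
    if ht : 0 ≤ t then TX.op (TC t) (FM (aS θ t)) (hsg.bd t ht) (hFM t ht) (hlink t ht) else 0
  have hfst : ∀ t p, 0 ≤ t → (TXf t p).c = TC t p.c := by
    intro t p ht
    have h1 : TXf t = TX.op (TC t) (FM (aS θ t)) (hsg.bd t ht) (hFM t ht) (hlink t ht) :=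
      dif_pos ht
    rw [h1, TX.op_c]
  have hsnd : ∀ t p, 0 ≤ t → (TXf t p).l = FM (aS θ t) p.l := by
    intro t p ht
    have h1 : TXf t = TX.op (TC t) (FM (aS θ t)) (hsg.bd t ht) (hFM t ht) (hlink t ht) :=
      dif_pos ht
    rw [h1, TX.op_l]
  refine ⟨M, TC, TXf, ⟨hsg, ⟨hsg.one_le, ?_, ?_, ?_⟩, hconv, ?_, hfst, hsnd⟩⟩
  · refine ContinuousLinearMap.ext fun p => XT.ext' ?_
    rw [hfst 0 p le_rfl, hsg.zero]
    rfl
  · intro t ht
    have h1 : TXf t = TX.op (TC t) (FM (aS θ t)) (hsg.bd t ht) (hFM t ht) (hlink t ht) :=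
      dif_pos ht
    rw [h1]
    exact TX.op_norm _ _ _ _ _
  · intro p t0 ht0
    have ht0' : (0 : ℝ) ≤ t0 := ht0
    rw [ContinuousWithinAt, tendsto_iff_norm_sub_tendsto_zero]
    have hC : Tendsto (fun t => ‖TC t p.c - TC t0 p.c‖) (𝓝[Ici 0] t0) (𝓝 0) :=
      tendsto_iff_norm_sub_tendsto_zero.1 (hsg.cont p.c t0 ht0)
    have hL0 : Tendsto (fun t : ℝ => FM (aS θ (max t 0)) p.l) (𝓝[Ici 0] t0)
        (𝓝 (FM (aS θ t0) p.l)) := by
      refine (hf N).2.2.2.2.2.2.2 ℝ (𝓝[Ici 0] t0) (fun t => aS θ (max t 0)) (aS θ t0) 1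
        (fun t => TX.aS_meas _) (TX.aS_meas _)
        (fun t ξ => TX.aS_norm_le hθ0 hθ (le_max_right _ _) ξ) (fun ξ => ?_) p.l
      have h1 : Continuous (fun t : ℝ => aS θ (max t 0) ξ) :=
        (TX.aS_cont ξ).comp (continuous_id.max continuous_const)
      have h2 := (h1.continuousWithinAt (s := Ici 0) (x := t0)).tendsto
      rw [max_eq_left ht0'] at h2
      exact h2
    have hL : Tendsto (fun t => ‖FM (aS θ t) p.l - FM (aS θ t0) p.l‖) (𝓝[Ici 0] t0) (𝓝 0) := by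
      refine (tendsto_iff_norm_sub_tendsto_zero.1 hL0).congr' ?_
      filter_upwards [self_mem_nhdsWithin] with t ht
      rw [max_eq_left ht]
    have hm := hC.max hL
    rw [max_self] at hm
    refine hm.congr' ?_
    filter_upwards [self_mem_nhdsWithin] with t ht
    rw [XT.norm_eq, XT.c_sub, XT.l_sub, hfst t p ht, hfst t0 p ht0', hsnd t p ht, hsnd t0 p ht0']
  · intro s t p hs ht
    refine TX.ext_l ?_
    rw [hsnd (s + t) p (add_nonneg hs ht), hsnd s _ hs, hsnd t p ht,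
      (hf N).2.1 (aS θ s) (aS θ t) 1 1 (TX.aS_meas s) (TX.aS_meas t)
        (TX.aS_norm_le hθ0 hθ hs) (TX.aS_norm_le hθ0 hθ ht), TX.aS_add]

end Pool.Agent.Q73.GL
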