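import Pool.Agent.Q73.GL.Stm

set_option autoImplicit false

namespace Pool.Agent.Q73.GL

open MeasureTheory Set Filter Topology
open scoped Real

namespace V2

variable {X : Type} [NormedAddCommGroup X] [NormedSpace ℂ X]

/-- the exponentially damped family -/
noncomputable def dam (L : ℝ) (T : ℝ → X →L[ℂ] X) (t : ℝ) : X →L[ℂ] X :=
  ((Real.exp (-(L * t)) : ℝ) : ℂ) • T t

theorem norm_cexp (r : ℝ) : ‖((Real.exp r : ℝ) : ℂ)‖ = Real.exp r := by
  rw [Complex.norm_real, Real.norm_of_nonneg (Real.exp_pos r).le]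

theorem dam_apply (L : ℝ) (T : ℝ → X →L[ℂ] X) (t : ℝ) (x : X) :
    dam L T t x = ((Real.exp (-(L * t)) : ℝ) : ℂ) • T t x := rfl

theorem cont_cexp (L : ℝ) : Continuous fun t : ℝ => ((Real.exp (-(L * t)) : ℝ) : ℂ) :=
  Complex.continuous_ofReal.comp (Real.continuous_exp.comp (continuous_const.mul continuous_id).neg)

theorem dam_SG {M L : ℝ} {T : ℝ → X →L[ℂ] X} (hL : 0 ≤ L) (h : SG M T) : SG M (dam L T) where
  one_le := h.one_le
  zero := by
    unfold dam
    rw [mul_zero, neg_zero, Real.exp_zero, Complex.ofReal_one, one_smul, h.zero]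
  bd := by
    intro t ht
    unfold dam
    rw [norm_smul, norm_cexp]
    have h1 : Real.exp (-(L * t)) ≤ 1 := by
      rw [Real.exp_le_one_iff]
      have := mul_nonneg hL ht
      linarith
    calc Real.exp (-(L * t)) * ‖T t‖ ≤ 1 * M :=
          mul_le_mul h1 (h.bd t ht) (norm_nonneg _) zero_le_one
      _ = M := one_mul M
  cont := by
    intro x
    exact (cont_cexp L).continuousOn.smul (h.cont x)

theorem dam_norm {M L : ℝ} {T : ℝ → X →L[ℂ] X} (h : SG M T) (t : ℝ) (ht : 0 ≤ t) (x : X) :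
    ‖dam L T t x‖ ≤ Real.exp (-(L * t)) * (M * ‖x‖) := by
  rw [dam_apply, norm_smul, norm_cexp]
  refine mul_le_mul_of_nonneg_left ?_ (Real.exp_pos _).le
  exact ((T t).le_opNorm x).trans (mul_le_mul_of_nonneg_right (h.bd t ht) (norm_nonneg _))

theorem int_exp {L : ℝ} (hL : 0 < L) (t : ℝ) :
    ∫ s in (0 : ℝ)..t, Real.exp (-(L * (t - s))) = (1 - Real.exp (-(L * t))) / L := by
  have h1 : ∀ s ∈ uIcc (0 : ℝ) t, HasDerivAt (fun s => Real.exp (-(L * (t - s))) / L)
      (Real.exp (-(L * (t - s)))) s := by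
    intro s _
    have h2 : HasDerivAt (fun s : ℝ => -(L * (t - s))) L s := by
      have h3 := (((hasDerivAt_id s).const_sub t).const_mul L).neg
      simp only [id, mul_neg, mul_one, neg_neg] at h3
      exact h3
    have h4 := h2.exp.div_const L
    rw [mul_div_assoc, div_self hL.ne', mul_one] at h4
    exact h4
  rw [intervalIntegral.integral_eq_sub_of_hasDerivAt h1]
  · rw [sub_self, mul_zero, neg_zero, Real.exp_zero, sub_zero]
    ring
  · exact (Real.continuous_exp.comp (continuous_const.mul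
      (continuous_const.sub continuous_id)).neg).intervalIntegrable _ _

end V2

theorem t_V2 (v1 : S_V1) : S_V2 := by
  intro X _ _ _ M T b q x0 hT hb hq
  obtain ⟨Q, hQ⟩ := isCompact_Icc.exists_bound_of_continuousOn hq
  have hQ0 : 0 ≤ Q := (norm_nonneg _).trans (hQ 0 ⟨le_rfl, hb⟩)
  have hM0 : 0 ≤ M := zero_le_one.trans hT.one_le
  obtain ⟨L, hLdef⟩ : ∃ L : ℝ, L = 2 * (M * Q) + 1 := ⟨_, rfl⟩
  have hL : 0 < L := by
    rw [hLdef]
    have := mul_nonneg hM0 hQ0
    linarith
  have hS : SG M (V2.dam L T) := V2.dam_SG hL.le hT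
  -- the right-hand side, continuity
  have hφ : ∀ z : C(Icc (0 : ℝ) b, X), ContinuousOn (fun s => q s (IccExtend hb z s)) (Icc 0 b) := by
    intro z
    exact hq.clm_apply (z.continuous.Icc_extend' ).continuousOn
  have hc : ∀ z : C(Icc (0 : ℝ) b, X), Continuous fun t : Icc (0 : ℝ) b =>
      V2.dam L T t x0 + ∫ s in (0 : ℝ)..t, V2.dam L T (t - s) (q s (IccExtend hb z s)) := by
    intro z
    have h1 := (v1 X M (V2.dam L T) b _ hS hb (hφ z)).2.1
    have h2 : ContinuousOn (fun t => V2.dam L T t x0) (Icc 0 b) :=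
      (hS.cont x0).mono (fun t ht => ht.1)
    exact continuousOn_iff_continuous_domRestrict.1 (h2.add h1)
  obtain ⟨Φ, hΦ⟩ : ∃ Φ : C(Icc (0 : ℝ) b, X) → C(Icc (0 : ℝ) b, X), ∀ z t, Φ z t =
      V2.dam L T t x0 + ∫ s in (0 : ℝ)..t, V2.dam L T (t - s) (q s (IccExtend hb z s)) :=
    ⟨fun z => ⟨_, hc z⟩, fun _ _ => rfl⟩
  have hcon : ContractingWith (1 / 2 : NNReal) Φ := by
    refine ⟨by norm_num, LipschitzWith.of_dist_le_mul ?_⟩
    intro z z'
    have : Nonempty (Icc (0 : ℝ) b) := ⟨⟨0, le_rfl, hb⟩⟩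
    rw [ContinuousMap.dist_le_iff_of_nonempty]
    intro t
    have ht := t.2
    have hi : ∀ z : C(Icc (0 : ℝ) b, X), IntervalIntegrable
        (fun s => V2.dam L T (t - s) (q s (IccExtend hb z s))) volume 0 t := by
      intro z
      refine ContinuousOn.intervalIntegrable ?_
      rw [uIcc_of_le ht.1]
      exact (v1 X M (V2.dam L T) b _ hS hb (hφ z)).1 t ht
    rw [hΦ, hΦ, dist_add_left, dist_eq_norm, ← intervalIntegral.integral_sub (hi z) (hi z')]
    have hb1 : ∀ s ∈ Ioc (0 : ℝ) t, ‖V2.dam L T (t - s) (q s (IccExtend hb z s)) -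
        V2.dam L T (t - s) (q s (IccExtend hb z' s))‖ ≤
        Real.exp (-(L * (t - s))) * (M * (Q * dist z z')) := by
      intro s hs
      rw [← map_sub, ← map_sub]
      refine (V2.dam_norm hT _ (sub_nonneg.2 hs.2) _).trans ?_
      refine mul_le_mul_of_nonneg_left ?_ (Real.exp_pos _).le
      refine mul_le_mul_of_nonneg_left ?_ hM0
      refine ((q s).le_opNorm _).trans ?_
      have hs' : s ∈ Icc (0 : ℝ) b := ⟨hs.1.le, hs.2.trans ht.2⟩
      refine mul_le_mul (hQ s hs') ?_ (norm_nonneg _) hQ0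
      rw [← dist_eq_norm]
      exact ContinuousMap.dist_apply_le_dist _
    have hgi : IntervalIntegrable (fun s : ℝ => Real.exp (-(L * ((t : ℝ) - s))) *
        (M * (Q * dist z z'))) volume 0 t :=
      ((Real.continuous_exp.comp (continuous_const.mul
      (continuous_const.sub continuous_id)).neg).mul continuous_const).intervalIntegrable _ _
    have h2 := intervalIntegral.norm_integral_le_of_norm_le ht.1 (ae_of_all _ hb1) hgi
    refine h2.trans ?_
    rw [intervalIntegral.integral_mul_const, V2.int_exp hL]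
    have hd : 0 ≤ dist z z' := dist_nonneg
    have he : 0 < Real.exp (-(L * t)) := Real.exp_pos _
    have h3 : (1 - Real.exp (-(L * t))) / L ≤ 1 / L :=
      div_le_div_of_nonneg_right (by linarith) hL.le
    have h4 : 0 ≤ M * (Q * dist z z') := mul_nonneg hM0 (mul_nonneg hQ0 hd)
    refine (mul_le_mul_of_nonneg_right h3 h4).trans ?_
    have h5 : 1 / L * (M * (Q * dist z z')) = (M * Q) / L * dist z z' := by ring
    rw [h5]
    refine mul_le_mul_of_nonneg_right ?_ hd
    rw [div_le_iff₀ hL, hLdef]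
    have h6 : ((1 / 2 : NNReal) : ℝ) = 1 / 2 := by norm_num
    rw [h6]
    linarith
  obtain ⟨z, hz, -⟩ := hcon.exists_fixedPoint 0 (edist_ne_top _ _)
  have hzf : ∀ t : Icc (0 : ℝ) b, z t =
      V2.dam L T t x0 + ∫ s in (0 : ℝ)..t, V2.dam L T (t - s) (q s (IccExtend hb z s)) := by
    intro t
    rw [← hΦ, hz.eq]
  refine ⟨fun t => ((Real.exp (L * t) : ℝ) : ℂ) • IccExtend hb z t, ?_, ?_⟩
  · refine ContinuousOn.smul ?_ (z.continuous.Icc_extend').continuousOn
    exact (Complex.continuous_ofReal.comp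
      (Real.continuous_exp.comp (continuous_const.mul continuous_id))).continuousOn
  · intro t ht
    have h1 : IccExtend hb z t = z ⟨t, ht⟩ := IccExtend_of_mem hb z ht
    show ((Real.exp (L * t) : ℝ) : ℂ) • IccExtend hb z t = _
    rw [h1, hzf, smul_add, V2.dam_apply, smul_smul]
    have h2 : ((Real.exp (L * t) : ℝ) : ℂ) * ((Real.exp (-(L * t)) : ℝ) : ℂ) = 1 := by
      rw [← Complex.ofReal_mul, ← Real.exp_add, add_neg_cancel, Real.exp_zero, Complex.ofReal_one]
    show (((Real.exp (L * t) : ℝ) : ℂ) * ((Real.exp (-(L * t)) : ℝ) : ℂ)) • T t x0 + _ = _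
    rw [h2, one_smul, ← intervalIntegral.integral_smul]
    refine congrArg (fun y => T t x0 + y) (intervalIntegral.integral_congr ?_)
    intro s _
    show ((Real.exp (L * t) : ℝ) : ℂ) • V2.dam L T (t - s) (q s (IccExtend hb z s)) =
      T (t - s) (q s (((Real.exp (L * s) : ℝ) : ℂ) • IccExtend hb z s))
    rw [V2.dam_apply, smul_smul, map_smul, map_smul, ← Complex.ofReal_mul, ← Real.exp_add]
    have h3 : L * t + -(L * (t - s)) = L * s := by ring
    rw [h3]

end Pool.Agent.Q73.GL
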