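import Pool.Agent.Q73.GL.Stm

set_option autoImplicit false

/-!
Project GL (helper73), job V3: uniqueness for linear Volterra equations.
-/

namespace Pool.Agent.Q73.GL

open MeasureTheory Set Filter Topology

namespace V3

theorem gron (b K : ℝ) (hK : 0 ≤ K) (hb : 0 ≤ b) (f : ℝ → ℝ) (hf : ContinuousOn f (Icc 0 b))
    (hf0 : ∀ t ∈ Icc 0 b, 0 ≤ f t)
    (h : ∀ t ∈ Icc 0 b, f t ≤ K * ∫ s in (0 : ℝ)..t, f s) : ∀ t ∈ Icc 0 b, f t = 0 := by
  obtain ⟨L, hL⟩ : ∃ L : ℝ, L = 2 * K + 1 := ⟨_, rfl⟩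
  have hLpos : 0 < L := by rw [hL]; positivity
  have hcont : ContinuousOn (fun t => Real.exp (-(L * t)) * f t) (Icc 0 b) := by
    refine ContinuousOn.mul ?_ hf
    exact Continuous.continuousOn (by fun_prop)
  obtain ⟨t0, ht0, hmax⟩ := isCompact_Icc.exists_isMaxOn (nonempty_Icc.2 hb) hcont
  obtain ⟨m, hm⟩ : ∃ m : ℝ, m = Real.exp (-(L * t0)) * f t0 := ⟨_, rfl⟩
  have hm0 : 0 ≤ m := by
    rw [hm]
    exact mul_nonneg (Real.exp_pos _).le (hf0 t0 ht0)
  have hfs : ∀ s ∈ Icc 0 b, f s ≤ Real.exp (L * s) * m := by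
    intro s hs
    have h1 : Real.exp (-(L * s)) * f s ≤ m := by
      rw [hm]
      exact hmax hs
    have h2 : f s = Real.exp (L * s) * (Real.exp (-(L * s)) * f s) := by
      rw [← mul_assoc, ← Real.exp_add, add_neg_cancel, Real.exp_zero, one_mul]
    rw [h2]
    exact mul_le_mul_of_nonneg_left h1 (Real.exp_pos _).le
  have hint : ∫ s in (0 : ℝ)..t0, f s ≤ ∫ s in (0 : ℝ)..t0, Real.exp (L * s) * m := by
    refine intervalIntegral.integral_mono_on ht0.1 ?_ ?_ ?_
    · exact (hf.mono (Icc_subset_Icc_right ht0.2)).intervalIntegrable_of_Icc ht0.1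
    · exact Continuous.intervalIntegrable (by fun_prop) _ _
    · intro s hs
      exact hfs s ⟨hs.1, hs.2.trans ht0.2⟩
  have hexp : ∫ s in (0 : ℝ)..t0, Real.exp (L * s) * m = (Real.exp (L * t0) - 1) / L * m := by
    rw [intervalIntegral.integral_mul_const,
      intervalIntegral.integral_comp_mul_left (fun x => Real.exp x) hLpos.ne', integral_exp,
      mul_zero, Real.exp_zero, smul_eq_mul]
    ring
  have h3 : f t0 ≤ K * ((Real.exp (L * t0) - 1) / L * m) := by
    refine (h t0 ht0).trans (mul_le_mul_of_nonneg_left ?_ hK)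
    rw [← hexp]
    exact hint
  have h4 : m ≤ m / 2 := by
    have e1 : Real.exp (-(L * t0)) * Real.exp (L * t0) = 1 := by
      rw [← Real.exp_add, neg_add_cancel, Real.exp_zero]
    have e2 : m ≤ Real.exp (-(L * t0)) * (K * ((Real.exp (L * t0) - 1) / L * m)) := by
      nth_rewrite 1 [hm]
      exact mul_le_mul_of_nonneg_left h3 (Real.exp_pos _).le
    have e3 : Real.exp (-(L * t0)) * (K * ((Real.exp (L * t0) - 1) / L * m)) =
        K / L * m * (Real.exp (-(L * t0)) * Real.exp (L * t0) - Real.exp (-(L * t0))) := by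
      ring
    rw [e3, e1] at e2
    have e4 : K / L ≤ 1 / 2 := by
      rw [div_le_div_iff₀ hLpos (by norm_num)]
      linarith
    have e5 : 0 ≤ K / L := div_nonneg hK hLpos.le
    have e6 : 0 < Real.exp (-(L * t0)) := Real.exp_pos _
    have e7 : K / L * m * (1 - Real.exp (-(L * t0))) ≤ K / L * m * 1 :=
      mul_le_mul_of_nonneg_left (by linarith) (mul_nonneg e5 hm0)
    have e8 : K / L * m ≤ 1 / 2 * m := mul_le_mul_of_nonneg_right e4 hm0
    linarith
  have h5 : m = 0 := by linarith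
  intro t ht
  have h6 := hfs t ht
  rw [h5, mul_zero] at h6
  exact le_antisymm h6 (hf0 t ht)

end V3

theorem t_V3 (v1 : S_V1) : S_V3 := by
  intro X _ _ _ M T b q x0 w w' hT hb hq hw hw' h1 h2
  have hM : 0 ≤ M := by linarith [hT.one_le]
  obtain ⟨Q, hQ⟩ := (isCompact_Icc (a := (0 : ℝ)) (b := b)).exists_bound_of_continuousOn hq
  obtain ⟨Q', hQ'⟩ : ∃ Q' : ℝ, Q' = max Q 0 := ⟨_, rfl⟩
  have hQ0 : 0 ≤ Q' := by rw [hQ']; exact le_max_right _ _
  have hQb : ∀ s ∈ Icc 0 b, ‖q s‖ ≤ Q' := fun s hs => by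
    rw [hQ']
    exact (hQ s hs).trans (le_max_left _ _)
  have hd : ContinuousOn (fun s => w s - w' s) (Icc 0 b) := hw.sub hw'
  have hqd : ContinuousOn (fun s => q s (w s - w' s)) (Icc 0 b) := hq.clm_apply hd
  obtain ⟨c1, -, c3⟩ := v1 X M T b (fun s => q s (w s - w' s)) hT hb hqd
  obtain ⟨a1, -, -⟩ := v1 X M T b (fun s => q s (w s)) hT hb (hq.clm_apply hw)
  obtain ⟨b1, -, -⟩ := v1 X M T b (fun s => q s (w' s)) hT hb (hq.clm_apply hw')
  have hdn : ContinuousOn (fun s => ‖w s - w' s‖) (Icc 0 b) := hd.norm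
  have key := V3.gron b (M * Q') (mul_nonneg hM hQ0) hb (fun s => ‖w s - w' s‖) hdn
    (fun t _ => norm_nonneg _) (by
      intro t ht
      have e1 : w t - w' t = ∫ s in (0 : ℝ)..t, T (t - s) (q s (w s - w' s)) := by
        rw [h1 t ht, h2 t ht, add_sub_add_left_eq_sub, ← intervalIntegral.integral_sub
          ((a1 t ht).intervalIntegrable_of_Icc ht.1) ((b1 t ht).intervalIntegrable_of_Icc ht.1)]
        refine intervalIntegral.integral_congr fun s _ => ?_
        simp only [map_sub]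
      have e2 := c3 t ht
      rw [← e1] at e2
      refine e2.trans ?_
      rw [mul_assoc]
      refine mul_le_mul_of_nonneg_left ?_ hM
      rw [← intervalIntegral.integral_const_mul]
      refine intervalIntegral.integral_mono_on ht.1 ?_ ?_ ?_
      · exact ((hqd.norm).mono (Icc_subset_Icc_right ht.2)).intervalIntegrable_of_Icc ht.1
      · exact ((continuousOn_const.mul hdn).mono
          (Icc_subset_Icc_right ht.2)).intervalIntegrable_of_Icc ht.1
      · intro s hs
        refine ((q s).le_opNorm _).trans ?_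
        exact mul_le_mul_of_nonneg_right (hQb s ⟨hs.1, hs.2.trans ht.2⟩) (norm_nonneg _))
  intro t ht
  have h3 := key t ht
  exact sub_eq_zero.1 (norm_eq_zero.1 h3)

end Pool.Agent.Q73.GL
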