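import Pool.Agent.Q73.GL.Stm

set_option autoImplicit false

/-!
# Project GL: removing a multiple of the identity (job V4)
-/

namespace Pool.Agent.Q73.GL.V4

open MeasureTheory Set Filter Topology

theorem exp_hasDerivAt (γ s : ℝ) :
    HasDerivAt (fun s : ℝ => ((Real.exp (γ * s) : ℝ) : ℂ)) ((Real.exp (γ * s) * γ : ℝ) : ℂ) s := by
  have h1 : HasDerivAt (fun s : ℝ => γ * s) γ s := by
    simpa using (hasDerivAt_id s).const_mul γ
  exact (h1.exp).ofReal_comp

theorem exp_cont (γ : ℝ) : Continuous (fun s : ℝ => ((Real.exp (γ * s) : ℝ) : ℂ)) :=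
  Complex.continuous_ofReal.comp (Real.continuous_exp.comp (continuous_const.mul continuous_id))

theorem claim (v1 : S_V1) {X : Type} [NormedAddCommGroup X] [NormedSpace ℂ X] [CompleteSpace X]
    {M : ℝ} {T : ℝ → X →L[ℂ] X} {b γ : ℝ} {h z : ℝ → X} {x0 : X} (hT : SG M T)
    (hadd : ∀ s t x, 0 ≤ s → 0 ≤ t → T (s + t) x = T s (T t x)) (hb : 0 ≤ b)
    (hh : ContinuousOn h (Icc 0 b))
    (hz : ∀ t ∈ Icc 0 b, z t = T t x0 + ∫ s in (0 : ℝ)..t, T (t - s) (h s))
    {t : ℝ} (ht : t ∈ Icc 0 b) :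
    (∫ s in (0 : ℝ)..t, T (t - s) (((Real.exp (γ * s) : ℝ) : ℂ) • h s +
      (γ : ℂ) • (((Real.exp (γ * s) : ℝ) : ℂ) • z s))) =
      ((Real.exp (γ * t) : ℝ) : ℂ) • z t - T t x0 := by
  have hbt : Icc 0 t ⊆ Icc 0 b := Icc_subset_Icc_right ht.2
  obtain ⟨c1, -, -⟩ := v1 X M T b h hT hb hh
  have cg : ContinuousOn (fun s => T (t - s) (h s)) (Icc 0 t) := c1 t ht
  obtain ⟨F, hF⟩ : ∃ F : ℝ → X, F = fun s => ∫ r in (0 : ℝ)..s, T (t - r) (h r) := ⟨_, rfl⟩
  have hFint : IntegrableOn (fun s => T (t - s) (h s)) (Icc 0 t) := cg.integrableOn_Icc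
  have hFc : ContinuousOn F (Icc 0 t) := by
    have h1 := intervalIntegral.continuousOn_primitive_interval (a := 0) (b := t)
      (f := fun s => T (t - s) (h s)) (μ := volume) (by rwa [uIcc_of_le ht.1])
    rw [uIcc_of_le ht.1] at h1
    rw [hF]
    exact h1
  have hTz : ∀ s ∈ Icc 0 t, T (t - s) (z s) = T t x0 + F s := by
    intro s hs
    have hcs : ContinuousOn (fun r => T (s - r) (h r)) (Icc 0 s) := c1 s (hbt hs)
    have hi : IntervalIntegrable (fun r => T (s - r) (h r)) volume 0 s := by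
      apply ContinuousOn.intervalIntegrable
      rwa [uIcc_of_le hs.1]
    rw [hz s (hbt hs), map_add, ← hadd (t - s) s x0 (by linarith [hs.2]) hs.1, sub_add_cancel,
      ← ContinuousLinearMap.intervalIntegral_comp_comm _ hi, hF]
    congr 1
    apply intervalIntegral.integral_congr
    intro r hr
    rw [uIcc_of_le hs.1] at hr
    simp only
    rw [← hadd (t - s) (s - r) (h r) (by linarith [hs.2]) (by linarith [hr.2]),
      sub_add_sub_cancel]
  have hgc : ContinuousOn (fun s : ℝ => ((Real.exp (γ * s) : ℝ) : ℂ) • T (t - s) (h s) +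
      ((Real.exp (γ * s) * γ : ℝ) : ℂ) • (T t x0 + F s)) (Icc 0 t) := by
    refine ((exp_cont γ).continuousOn.smul cg).add (ContinuousOn.smul ?_ (continuousOn_const.add hFc))
    exact (Complex.continuous_ofReal.comp ((Real.continuous_exp.comp
      (continuous_const.mul continuous_id)).mul continuous_const)).continuousOn
  have key : ∫ s in (0 : ℝ)..t, (((Real.exp (γ * s) : ℝ) : ℂ) • T (t - s) (h s) +
      ((Real.exp (γ * s) * γ : ℝ) : ℂ) • (T t x0 + F s)) =
      ((Real.exp (γ * t) : ℝ) : ℂ) • (T t x0 + F t) -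
        ((Real.exp (γ * 0) : ℝ) : ℂ) • (T t x0 + F 0) := by
    refine intervalIntegral.integral_eq_sub_of_hasDerivAt_of_le ht.1
      (f := fun s : ℝ => ((Real.exp (γ * s) : ℝ) : ℂ) • (T t x0 + F s))
      ((exp_cont γ).continuousOn.smul (continuousOn_const.add hFc)) ?_ ?_
    · intro s hs
      have hF' : HasDerivAt F (T (t - s) (h s)) s := by
        rw [hF]
        refine intervalIntegral.integral_hasDerivAt_right
          (f := fun r => T (t - r) (h r)) ?_ ?_ ?_
        · apply ContinuousOn.intervalIntegrable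
          rw [uIcc_of_le hs.1.le]
          exact cg.mono (Icc_subset_Icc_right hs.2.le)
        · exact ContinuousOn.stronglyMeasurableAtFilter isOpen_Ioo (cg.mono Ioo_subset_Icc_self) s hs
        · exact cg.continuousAt (Icc_mem_nhds hs.1 hs.2)
      exact (exp_hasDerivAt γ s).smul (hF'.const_add (T t x0))
    · apply ContinuousOn.intervalIntegrable
      rwa [uIcc_of_le ht.1]
  have h0 : F 0 = 0 := by rw [hF]; simp
  have hzt : z t = T t x0 + F t := by rw [hz t ht, hF]
  rw [h0, mul_zero, Real.exp_zero, Complex.ofReal_one, one_smul, add_zero, ← hzt] at key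
  rw [← key]
  apply intervalIntegral.integral_congr
  intro s hs
  rw [uIcc_of_le ht.1] at hs
  simp only
  rw [map_add, map_smul, map_smul, map_smul, hTz s hs, smul_smul]
  congr 2
  push_cast
  ring

end Pool.Agent.Q73.GL.V4

namespace Pool.Agent.Q73.GL

open MeasureTheory Set Filter Topology V4

theorem t_V4 (v1 : S_V1) (v3 : S_V3) : S_V4 := by
  intro X _ _ _ M T b γ h w x0 hT hadd hb hh hw heq t ht
  have hhc : ContinuousOn (fun s : ℝ => ((Real.exp (-(γ * s)) : ℝ) : ℂ) • h s) (Icc 0 b) := by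
    refine ContinuousOn.smul ?_ hh
    exact (Complex.continuous_ofReal.comp (Real.continuous_exp.comp
      (continuous_const.mul continuous_id).neg)).continuousOn
  obtain ⟨a1, a2, -⟩ := v1 X M T b _ hT hb hhc
  obtain ⟨z, hz⟩ : ∃ z : ℝ → X, z = fun t => T t x0 + ∫ s in (0 : ℝ)..t,
    T (t - s) (((Real.exp (-(γ * s)) : ℝ) : ℂ) • h s) := ⟨_, rfl⟩
  have hzc : ContinuousOn z (Icc 0 b) := by
    rw [hz]
    exact ((hT.cont x0).mono Icc_subset_Ici_self).add a2
  have hee : ∀ s : ℝ, ((Real.exp (γ * s) : ℝ) : ℂ) * ((Real.exp (-(γ * s)) : ℝ) : ℂ) = 1 := by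
    intro s
    rw [← Complex.ofReal_mul, ← Real.exp_add, add_neg_cancel, Real.exp_zero, Complex.ofReal_one]
  have hyc : ContinuousOn (fun s : ℝ => ((Real.exp (γ * s) : ℝ) : ℂ) • z s) (Icc 0 b) :=
    (exp_cont γ).continuousOn.smul hzc
  have hy : ∀ t ∈ Icc 0 b, ((Real.exp (γ * t) : ℝ) : ℂ) • z t =
      T t x0 + ∫ s in (0 : ℝ)..t, T (t - s) (h s + (γ : ℂ) •
        (((Real.exp (γ * s) : ℝ) : ℂ) • z s)) := by
    intro t ht
    have h1 := claim v1 (γ := γ) (z := z) (x0 := x0) hT hadd hb hhc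
      (fun t _ => by rw [hz]) ht
    have h2 : (∫ s in (0 : ℝ)..t, T (t - s) (h s + (γ : ℂ) •
        (((Real.exp (γ * s) : ℝ) : ℂ) • z s))) =
        ∫ s in (0 : ℝ)..t, T (t - s) (((Real.exp (γ * s) : ℝ) : ℂ) •
          (((Real.exp (-(γ * s)) : ℝ) : ℂ) • h s) +
          (γ : ℂ) • (((Real.exp (γ * s) : ℝ) : ℂ) • z s)) := by
      apply intervalIntegral.integral_congr
      intro s _
      simp only
      rw [smul_smul ((Real.exp (γ * s) : ℝ) : ℂ) _ (h s), hee, one_smul]
    rw [h2, h1]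
    abel
  have hd : ContinuousOn (fun s => w s - ((Real.exp (γ * s) : ℝ) : ℂ) • z s) (Icc 0 b) :=
    hw.sub hyc
  have hq : ContinuousOn (fun _ : ℝ => (γ : ℂ) • ContinuousLinearMap.id ℂ X) (Icc 0 b) :=
    continuousOn_const
  have hu := v3 X M T b (fun _ => (γ : ℂ) • ContinuousLinearMap.id ℂ X) 0
    (fun s => w s - ((Real.exp (γ * s) : ℝ) : ℂ) • z s) (fun _ => 0) hT hb hq hd
    continuousOn_const ?_ ?_ t ht
  · have hwt : w t = ((Real.exp (γ * t) : ℝ) : ℂ) • z t := sub_eq_zero.mp hu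
    rw [hwt, smul_smul, mul_comm, hee, one_smul, hz]
  · intro r hr
    have b1 : ContinuousOn (fun s => h s + (γ : ℂ) • w s) (Icc 0 b) :=
      hh.add (hw.const_smul _)
    have b2 : ContinuousOn (fun s => h s + (γ : ℂ) • (((Real.exp (γ * s) : ℝ) : ℂ) • z s))
      (Icc 0 b) := hh.add (hyc.const_smul _)
    have i1 : IntervalIntegrable (fun s => T (r - s) (h s + (γ : ℂ) • w s)) volume 0 r := by
      apply ContinuousOn.intervalIntegrable
      rw [uIcc_of_le hr.1]
      exact (v1 X M T b _ hT hb b1).1 r hr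
    have i2 : IntervalIntegrable (fun s => T (r - s) (h s + (γ : ℂ) •
        (((Real.exp (γ * s) : ℝ) : ℂ) • z s))) volume 0 r := by
      apply ContinuousOn.intervalIntegrable
      rw [uIcc_of_le hr.1]
      exact (v1 X M T b _ hT hb b2).1 r hr
    show w r - ((Real.exp (γ * r) : ℝ) : ℂ) • z r = _
    rw [heq r hr, hy r hr, add_sub_add_left_eq_sub, ← intervalIntegral.integral_sub i1 i2,
      map_zero, zero_add]
    apply intervalIntegral.integral_congr
    intro s _
    simp only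
    rw [← map_sub]
    congr 1
    simp only [ContinuousLinearMap.smul_apply, ContinuousLinearMap.id_apply]
    rw [add_sub_add_left_eq_sub, smul_sub]
  · intro r _
    simp

end Pool.Agent.Q73.GL
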