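import Pool.Agent.Q73.GL.Stm

/-!
Lemma job GL-XC of project GL (helper73): the space `C_0 ∩ L^2` is complete.
-/

set_option autoImplicit false

namespace Pool.Agent.Q73.GL

open MeasureTheory Set Filter Topology
open scoped ZeroAtInfty

namespace XC

theorem closed (N : ℕ) : IsClosed ((XS N : Submodule ℂ (C₀(E N, ℂ) × L2 N)) :
    Set (C₀(E N, ℂ) × L2 N)) := by
  refine isClosed_of_closure_subset ?_
  intro p hp
  obtain ⟨u, hu, hlim⟩ := mem_closure_iff_seq_limit.1 hp
  have h1 : Tendsto (fun k => (u k).1) atTop (𝓝 p.1) :=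
    (continuous_fst.tendsto p).comp hlim
  have h2 : Tendsto (fun k => (u k).2) atTop (𝓝 p.2) :=
    (continuous_snd.tendsto p).comp hlim
  obtain ⟨ns, hns, hae⟩ := (tendstoInMeasure_of_tendsto_Lp h2).exists_seq_tendsto_ae
  have h3 : ∀ᵐ x ∂(volume : Measure (E N)), ∀ k, (u k).2 x = (u k).1 x := by
    rw [ae_all_iff]
    intro k
    exact (mem_XS _).1 (hu k)
  refine (mem_XS p).2 ?_
  filter_upwards [hae, h3] with x hx hx3
  have h4 : Tendsto (fun i => (u (ns i)).1 x) atTop (𝓝 (p.1 x)) := by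
    have h5 : Tendsto (fun i => (u (ns i)).1) atTop (𝓝 p.1) := h1.comp hns.tendsto_atTop
    rw [tendsto_iff_dist_tendsto_zero] at h5 ⊢
    refine squeeze_zero (fun _ => dist_nonneg) (fun i => ?_) h5
    exact BoundedContinuousFunction.dist_coe_le_dist (f := (u (ns i)).1.toBCF)
      (g := p.1.toBCF) x
  refine tendsto_nhds_unique (hx.congr fun i => ?_) h4
  exact hx3 (ns i)

end XC

theorem t_XC : S_XC := by
  intro N
  have h : CompleteSpace (XS N) := (XC.closed N).completeSpace_coe
  exact h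

end Pool.Agent.Q73.GL
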